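import Pool.Agent.H628R3.RO.M2
import Pool.Agent.H628R3.RO.D1
import Pool.Agent.H628R3.RO.N1

/-!
# Random oracles: density points, in terms of cylinders
-/

set_option autoImplicit false

namespace Pool.Agent.W2helper58.RU

open MeasureTheory Filter Topology Pool.Agent.H628R3.RO Pool.Agent.H628R3.RO.M2

theorem tendsto_prob_iUnion {S : ℕ → Set Oracle} (hS : Monotone S) :
    Tendsto (fun m => prob (S m)) atTop (𝓝 (prob (⋃ m, S m))) := by
  have h := tendsto_measure_iUnion_atTop (μ := randomOracle) hS
  have h2 := (ENNReal.tendsto_toReal (measure_ne_top randomOracle (⋃ m, S m))).comp h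
  exact h2

theorem cyl_eq (t : ℕ) (L : List (List Bool)) :
    cyl t L = {A | ∀ x ∈ strs t, A x = ofL L x} := by
  ext A
  simp only [cyl, Set.mem_ofPred_eq, mem_strs]

theorem prob_cyl (t : ℕ) (L : List (List Bool)) :
    prob (cyl t L) = (1 / 2) ^ (strs t).length := by
  rw [cyl_eq]
  exact prob_agree (strs t) (nodup_strs t) (ofL L)

theorem prob_cyl_pos (t : ℕ) (L : List (List Bool)) : 0 < prob (cyl t L) := by
  rw [prob_cyl]
  positivity

theorem measurableSet_cyl (t : ℕ) (L : List (List Bool)) : MeasurableSet (cyl t L) :=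
  measurableSet_of_loc (finite_length_le t) (loc_cyl t L)

open Classical in
/-- a local set is a finite disjoint union of cylinders -/
theorem prob_inter_loc_le {G : Set Oracle} (hG : MeasurableSet G) {θ : ℝ} {t : ℕ}
    (h : ∀ L, prob (G ∩ cyl t L) ≤ θ * prob (cyl t L)) {S : Set Oracle}
    (hS : Loc {x | x.length ≤ t} S) : prob (G ∩ S) ≤ θ * prob S := by
  set K := strs t with hKdef
  have hK : K.Nodup := nodup_strs t
  set F := K.sublists.filter (fun l => decide (ofL l ∈ S)) with hF
  have hSe : S = ⋃ l ∈ F.toFinset, cyl t l := by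
    ext A
    simp only [Set.mem_iUnion, List.mem_toFinset, hF, List.mem_filter, List.mem_sublists,
      decide_eq_true_eq, exists_prop, cyl_eq]
    constructor
    · intro hA
      have h1 : ∀ x ∈ K, A x = ofL (K.filter A) x := fun x hx => (ofL_filter A hx).symm
      exact ⟨K.filter A, ⟨List.filter_sublist, (hS _ _ fun x hx => h1 x (mem_strs.2 hx)).1 hA⟩, h1⟩
    · rintro ⟨l, ⟨_, hl⟩, hA⟩
      exact (hS _ _ fun x hx => hA x (mem_strs.2 hx)).2 hl
  have hdis : (F.toFinset : Set (List (List Bool))).PairwiseDisjoint (fun l => cyl t l) := by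
    intro l hl l' hl' hne
    rw [Function.onFun, Set.disjoint_left]
    intro A hA hA'
    apply hne
    simp only [Finset.mem_coe, List.mem_toFinset, hF, List.mem_filter, List.mem_sublists] at hl hl'
    rw [← filter_sublist hl.1 hK, ← filter_sublist hl'.1 hK]
    apply List.filter_congr
    intro x hx
    have h1 := hA x (mem_strs.1 hx)
    have h2 := hA' x (mem_strs.1 hx)
    rw [h1] at h2
    exact h2
  have e1 : prob S = ∑ l ∈ F.toFinset, prob (cyl t l) := by
    conv_lhs => rw [hSe]
    unfold prob
    exact measureReal_biUnion_finset hdis fun l _ => measurableSet_cyl t l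
  have e2 : prob (G ∩ S) = ∑ l ∈ F.toFinset, prob (G ∩ cyl t l) := by
    conv_lhs => rw [hSe]
    rw [Set.inter_iUnion₂]
    unfold prob
    refine measureReal_biUnion_finset ?_ fun l _ => hG.inter (measurableSet_cyl t l)
    intro l hl l' hl' hne
    exact (hdis hl hl' hne).mono Set.inter_subset_right Set.inter_subset_right
  rw [e1, e2, Finset.mul_sum]
  exact Finset.sum_le_sum fun l _ => h l

/-- **Lebesgue density for cylinders.** -/
theorem exists_cyl_dense {G : Set Oracle} (hG : MeasurableSet G) (hpos : 0 < prob G) {θ : ℝ}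
    (hθ : θ < 1) (hθ0 : 0 ≤ θ) : ∃ (t : ℕ) (L : List (List Bool)),
      θ * prob (cyl t L) < prob (G ∩ cyl t L) := by
  by_contra hcon
  push Not at hcon
  -- open neighbourhoods
  have key : ∀ U : Set Oracle, IsOpen U → G ⊆ U → prob G ≤ θ * prob U := by
    intro U hU hGU
    set Ut : ℕ → Set Oracle := fun t => {A | ∀ A' : Oracle, (∀ x : List Bool, x.length ≤ t →
      A' x = A x) → A' ∈ U} with hUt
    have hmono : Monotone Ut := by
      intro t t' htt' A hA A' hA'
      exact hA A' fun x hx => hA' x (hx.trans htt')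
    have hloc : ∀ t, Loc {x | x.length ≤ t} (Ut t) := by
      intro t A A' h
      constructor
      · intro hA B hB
        exact hA B fun x hx => (hB x hx).trans (h x hx).symm
      · intro hA B hB
        exact hA B fun x hx => (hB x hx).trans (h x hx)
    have hsub : ∀ t, Ut t ⊆ U := fun t A hA => hA A fun _ _ => rfl
    have hun : ⋃ t, Ut t = U := by
      apply Set.Subset.antisymm (Set.iUnion_subset hsub)
      intro A hA
      obtain ⟨I, u, hu, hIu⟩ := isOpen_pi_iff.1 hU A hA
      refine Set.mem_iUnion.2 ⟨I.sup List.length, fun A' hA' => hIu ?_⟩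
      intro x hx
      rw [hA' x (Finset.le_sup (f := List.length) hx)]
      exact (hu x hx).2
    have h1 : Tendsto (fun t => prob (G ∩ Ut t)) atTop (𝓝 (prob G)) := by
      have h2 := tendsto_prob_iUnion (S := fun t => G ∩ Ut t)
        (fun t t' h => Set.inter_subset_inter_right G (hmono h))
      rw [← Set.inter_iUnion, hun, Set.inter_eq_left.2 hGU] at h2
      exact h2
    refine le_of_tendsto h1 (Eventually.of_forall fun t => ?_)
    calc prob (G ∩ Ut t) ≤ θ * prob (Ut t) := prob_inter_loc_le hG (hcon t) (hloc t)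
      _ ≤ θ * prob U := mul_le_mul_of_nonneg_left (prob_mono (hsub t)) hθ0
  have h3 : ∀ ε > 0, prob G ≤ θ * (prob G + ε) := by
    intro ε hε
    obtain ⟨U, hGU, hU, hμ⟩ := G.exists_isOpen_le_add randomOracle
      (ε := ENNReal.ofReal ε) (by simpa using hε)
    refine (key U hU hGU).trans (mul_le_mul_of_nonneg_left ?_ hθ0)
    have h4 : prob U ≤ (randomOracle G + ENNReal.ofReal ε).toReal :=
      ENNReal.toReal_mono (by simp [measure_ne_top]) hμ
    rw [ENNReal.toReal_add (measure_ne_top _ _) (by simp), ENNReal.toReal_ofReal hε.le] at h4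
    exact h4
  have h5 : prob G ≤ θ * prob G := by
    refine le_of_forall_pos_le_add fun ε hε => ?_
    have h6 := h3 ε hε
    nlinarith
  nlinarith

end Pool.Agent.W2helper58.RU
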