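import Pool.Agent.H628R3.RO.M2

/-!
# An inequality of Bessel's type

If every event of a finite family of pairwise independent events is positively correlated with one
event `F`, then the sum of the probabilities of the family is small.
-/

set_option autoImplicit false

namespace Pool.Agent.W2helper58.RU

open MeasureTheory Filter Topology Pool.Agent.H628R3.RO Pool.Agent.H628R3.RO.M2

/-- the indicator function of an event -/
noncomputable def ind (S : Set Oracle) (A : Oracle) : ℝ := S.indicator (fun _ => (1 : ℝ)) A

theorem ind_mul (S T : Set Oracle) (A : Oracle) : ind S A * ind T A = ind (S ∩ T) A := by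
  classical
  unfold ind
  by_cases h1 : A ∈ S <;> by_cases h2 : A ∈ T <;> simp [Set.indicator, h1, h2]

theorem integrable_ind {S : Set Oracle} (hS : MeasurableSet S) :
    Integrable (fun A => ind S A) randomOracle :=
  (integrable_const (1 : ℝ)).indicator hS

theorem integral_ind {S : Set Oracle} (hS : MeasurableSet S) :
    ∫ A, ind S A ∂randomOracle = prob S := by
  unfold ind prob
  exact integral_indicator_one hS

theorem bessel {F : Set Oracle} (hF : MeasurableSet F) {ι : Type} [DecidableEq ι] (J : Finset ι)
    (B : ι → Set Oracle) (hB : ∀ i, MeasurableSet (B i))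
    (hind : ∀ i ∈ J, ∀ j ∈ J, i ≠ j → prob (B i ∩ B j) = prob (B i) * prob (B j))
    {a : ℝ} (ha : 0 ≤ a)
    (hcov : ∀ i ∈ J, a * prob (B i) ≤ prob (F ∩ B i) - prob F * prob (B i)) :
    a ^ 2 * ∑ i ∈ J, prob (B i) ≤ 1 := by
  set p : ι → ℝ := fun i => prob (B i) with hp
  have hpn : ∀ i, 0 ≤ p i := fun i => prob_nonneg _
  set X : Oracle → ℝ := fun A => ind F A - a * ∑ i ∈ J, (ind (B i) A - p i) with hX
  have e1 : ∀ A, X A ^ 2 = ind F A - 2 * a * ∑ i ∈ J, (ind (F ∩ B i) A - p i * ind F A) +
      a ^ 2 * ∑ i ∈ J, ∑ j ∈ J, (ind (B i ∩ B j) A - p j * ind (B i) A - p i * ind (B j) A +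
        p i * p j) := by
    intro A
    have h1 : X A ^ 2 = ind F A * ind F A - 2 * a * (ind F A * ∑ i ∈ J, (ind (B i) A - p i)) +
        a ^ 2 * ((∑ i ∈ J, (ind (B i) A - p i)) * ∑ j ∈ J, (ind (B j) A - p j)) := by
      simp only [hX]
      ring
    rw [h1, ind_mul, Set.inter_self, Finset.mul_sum, Finset.sum_mul_sum]
    have h2 : ∑ i ∈ J, ind F A * (ind (B i) A - p i) =
        ∑ i ∈ J, (ind (F ∩ B i) A - p i * ind F A) := by
      apply Finset.sum_congr rfl
      intro i _
      rw [← ind_mul]
      ring
    have h3 : ∑ i ∈ J, ∑ j ∈ J, (ind (B i) A - p i) * (ind (B j) A - p j) =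
        ∑ i ∈ J, ∑ j ∈ J, (ind (B i ∩ B j) A - p j * ind (B i) A - p i * ind (B j) A +
        p i * p j) := by
      apply Finset.sum_congr rfl
      intro i _
      apply Finset.sum_congr rfl
      intro j _
      rw [← ind_mul]
      ring
    rw [h2, h3]
  have i1 : ∀ i, Integrable (fun A => ind (F ∩ B i) A - p i * ind F A) randomOracle := fun i =>
    (integrable_ind (hF.inter (hB i))).sub ((integrable_ind hF).const_mul _)
  have i2 : ∀ i j, Integrable (fun A => ind (B i ∩ B j) A - p j * ind (B i) A -
      p i * ind (B j) A + p i * p j) randomOracle := fun i j =>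
    (((integrable_ind ((hB i).inter (hB j))).sub ((integrable_ind (hB i)).const_mul _)).sub
      ((integrable_ind (hB j)).const_mul _)).add (integrable_const _)
  have i3 : Integrable (fun A => ∑ i ∈ J, (ind (F ∩ B i) A - p i * ind F A)) randomOracle :=
    integrable_finsetSum _ fun i _ => i1 i
  have i4 : ∀ i, Integrable (fun A => ∑ j ∈ J, (ind (B i ∩ B j) A - p j * ind (B i) A -
      p i * ind (B j) A + p i * p j)) randomOracle := fun i =>
    integrable_finsetSum _ fun j _ => i2 i j
  have i5 : Integrable (fun A => ∑ i ∈ J, ∑ j ∈ J, (ind (B i ∩ B j) A - p j * ind (B i) A -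
      p i * ind (B j) A + p i * p j)) randomOracle :=
    integrable_finsetSum _ fun i _ => i4 i
  have v1 : ∀ i, ∫ A, (ind (F ∩ B i) A - p i * ind F A) ∂randomOracle =
      prob (F ∩ B i) - p i * prob F := by
    intro i
    rw [integral_sub (integrable_ind (hF.inter (hB i))) ((integrable_ind hF).const_mul _),
      integral_const_mul, integral_ind hF, integral_ind (hF.inter (hB i))]
  have v2 : ∀ i j, ∫ A, (ind (B i ∩ B j) A - p j * ind (B i) A - p i * ind (B j) A +
      p i * p j) ∂randomOracle = prob (B i ∩ B j) - p i * p j := by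
    intro i j
    have k1 : Integrable (fun A => ind (B i ∩ B j) A - p j * ind (B i) A) randomOracle :=
      (integrable_ind ((hB i).inter (hB j))).sub ((integrable_ind (hB i)).const_mul _)
    have k2 : Integrable (fun A => ind (B i ∩ B j) A - p j * ind (B i) A - p i * ind (B j) A)
        randomOracle := k1.sub ((integrable_ind (hB j)).const_mul _)
    rw [integral_add k2 (integrable_const _),
      integral_sub k1 ((integrable_ind (hB j)).const_mul _),
      integral_sub (integrable_ind ((hB i).inter (hB j))) ((integrable_ind (hB i)).const_mul _),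
      integral_const_mul, integral_const_mul, integral_ind (hB i), integral_ind (hB j),
      integral_ind ((hB i).inter (hB j)), integral_const]
    simp only [hp, probReal_univ, smul_eq_mul, one_mul]
    ring
  have e2 : ∫ A, X A ^ 2 ∂randomOracle = prob F - 2 * a * ∑ i ∈ J, (prob (F ∩ B i) - p i * prob F)
      + a ^ 2 * ∑ i ∈ J, ∑ j ∈ J, (prob (B i ∩ B j) - p i * p j) := by
    simp_rw [e1]
    have k3 : Integrable (fun A => ind F A - 2 * a * ∑ i ∈ J,
        (ind (F ∩ B i) A - p i * ind F A)) randomOracle := (integrable_ind hF).sub (i3.const_mul _)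
    rw [integral_add k3 (i5.const_mul _),
      integral_sub (integrable_ind hF) (i3.const_mul _), integral_const_mul, integral_const_mul,
      integral_ind hF, integral_finsetSum _ fun i _ => i1 i,
      integral_finsetSum _ fun i _ => i4 i]
    simp_rw [v1]
    congr 3
    funext i
    rw [integral_finsetSum _ fun j _ => i2 i j]
    simp_rw [v2]
  have e3 : 0 ≤ ∫ A, X A ^ 2 ∂randomOracle := integral_nonneg fun A => sq_nonneg _
  have e4 : ∑ i ∈ J, ∑ j ∈ J, (prob (B i ∩ B j) - p i * p j) ≤ ∑ i ∈ J, p i := by
    apply Finset.sum_le_sum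
    intro i hi
    rw [Finset.sum_eq_single i]
    · rw [Set.inter_self]
      have := hpn i
      simp only [hp] at this ⊢
      nlinarith
    · intro j hj hne
      rw [hind i hi j hj (Ne.symm hne)]
      simp [hp]
    · intro h
      exact absurd hi h
  have e5 : a * ∑ i ∈ J, p i ≤ ∑ i ∈ J, (prob (F ∩ B i) - p i * prob F) := by
    rw [Finset.mul_sum]
    apply Finset.sum_le_sum
    intro i hi
    have := hcov i hi
    simp only [hp]
    linarith
  have e6 : prob F ≤ 1 := by
    unfold prob
    exact measureReal_le_one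
  rw [e2] at e3
  have e7 := mul_le_mul_of_nonneg_left e4 (sq_nonneg a)
  have e8 := mul_le_mul_of_nonneg_left e5 ha
  nlinarith

end Pool.Agent.W2helper58.RU
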