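import Pool.Agent.H628R3.RO.BaseD
import Pool.Agent.H628R3.RO.Lev
import Pool.Agent.H529R3.Lev.Tow

/-!
# The schedule and the levels
-/

set_option autoImplicit false

namespace Pool.Agent.W2helper58.RU

open Filter Pool.Agent.H628R3.RO

section T

variable (b : Polynomial ℕ) (t : ℕ)

theorem pow_lt_Gt (n : ℕ) (hb : ∀ m, m ≤ b.eval m) : 2 ^ n ≤ Gt b n := by
  have h1 : n ≤ 2 ^ (b.eval (2 ^ n) + 1) := by
    calc n ≤ 2 ^ n := Nat.lt_two_pow_self.le
      _ ≤ b.eval (2 ^ n) := hb _
      _ ≤ b.eval (2 ^ n) + 1 := Nat.le_succ _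
      _ ≤ 2 ^ (b.eval (2 ^ n) + 1) := Nat.lt_two_pow_self.le
  unfold Gt
  have h2 : 2 ^ n ≤ 2 ^ 2 ^ (b.eval (2 ^ n) + 1) := Nat.pow_le_pow_right (by norm_num) h1
  omega

theorem Tt_lt (i : ℕ) : Tt b t i < Tt b t (i + 1) := by
  show Tt b t i < Gt b (Tt b t i)
  unfold Gt
  exact Nat.lt_succ_of_le (Nat.le_add_left _ _)

theorem Tt_mono : StrictMono (Tt b t) := strictMono_nat_of_lt_succ (Tt_lt b t)

theorem add_le_Tt (i : ℕ) : t + 4 + i ≤ Tt b t i := by
  induction i with
  | zero => exact le_rfl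
  | succ i ih =>
    have := Tt_lt b t i
    omega

theorem lt_Tt (i : ℕ) : t < Tt b t i := by
  have := add_le_Tt b t i
  omega

theorem le_Tt (i : ℕ) : i ≤ Tt b t i := by
  have := add_le_Tt b t i
  omega

theorem tendsto_Tt : Tendsto (Tt b t) atTop atTop := (Tt_mono b t).tendsto_atTop

theorem poly_le_Tt (hb : ∀ m, m ≤ b.eval m) (q : Polynomial ℕ) :
    ∀ᶠ i in atTop, q.eval (Tt b t i) ≤ Tt b t (i + 1) := by
  filter_upwards [(tendsto_Tt b t).eventually (H529R3.Lev.poly_le_two_pow q)] with i hi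
  exact hi.trans (pow_lt_Gt b _ hb)

end T

section L

variable (Bad Err : ℕ → ℕ → Set Oracle) (t : ℕ) (L : List (List Bool)) (T : ℕ → ℕ)

theorem lev_zero : lev Bad Err t L T 0 = 4 := rfl

theorem lev_succ (i : ℕ) : lev Bad Err t L T (i + 1) =
    lev Bad Err t L T i + (chk Bad Err t L (T i) (lev Bad Err t L T i)).toNat := rfl

theorem lev_le_succ (i : ℕ) : lev Bad Err t L T i ≤ lev Bad Err t L T (i + 1) := by
  rw [lev_succ]
  omega

theorem lev_succ_le (i : ℕ) : lev Bad Err t L T (i + 1) ≤ lev Bad Err t L T i + 1 := by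
  rw [lev_succ]
  have := Bool.toNat_le (chk Bad Err t L (T i) (lev Bad Err t L T i))
  omega

theorem lev_mono : Monotone (lev Bad Err t L T) := monotone_nat_of_le_succ (lev_le_succ _ _ _ _ _)

theorem four_le_lev (i : ℕ) : 4 ≤ lev Bad Err t L T i := by
  have := lev_mono Bad Err t L T (Nat.zero_le i)
  rwa [lev_zero] at this

theorem lev_le (i : ℕ) : lev Bad Err t L T i ≤ 4 + i := by
  induction i with
  | zero => exact le_rfl
  | succ i ih =>
    have := lev_succ_le Bad Err t L T i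
    omega

open Classical in
/-- summation over the successful stages -/
theorem sum_success (f : ℕ → ℝ) (i₁ : ℕ) : ∀ i₂, i₁ ≤ i₂ →
    ∑ i ∈ (Finset.Ico i₁ i₂).filter (fun i => chk Bad Err t L (T i) (lev Bad Err t L T i) = true),
      f (lev Bad Err t L T i) =
    ∑ s ∈ Finset.Ico (lev Bad Err t L T i₁) (lev Bad Err t L T i₂), f s := by
  intro i₂ h
  induction i₂, h using Nat.le_induction with
  | base => simp
  | succ i hi ih =>
    rw [← Finset.insert_Ico_right_eq_Ico_add_one hi, Finset.filter_insert]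
    have hl := lev_mono Bad Err t L T hi
    cases hc : chk Bad Err t L (T i) (lev Bad Err t L T i) with
    | true =>
      rw [if_pos rfl, Finset.sum_insert (by simp), ih, lev_succ, hc]
      change _ = ∑ s ∈ Finset.Ico (lev Bad Err t L T i₁) (lev Bad Err t L T i + 1), f s
      rw [Finset.sum_Ico_succ_top hl, add_comm]
    | false =>
      rw [if_neg (by simp), ih, lev_succ, hc]
      rfl

end L

end Pool.Agent.W2helper58.RU
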