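import Pool.Agent.W2helper58.RU.Dens
import Pool.Agent.W2helper58.RU.Bessel
import Pool.Agent.W2helper58.RU.Sched

/-!
# The abstract diagonalization for random oracles
-/

set_option autoImplicit false

namespace Pool.Agent.W2helper58.RU

open MeasureTheory Filter Topology Pool.Agent.H628R3.RO Pool.Agent.H628R3.RO.M2

/-- What is needed about one candidate. `Bad n s` is the rare event at stage `n` and level `s`,
`Err n s` the event that the candidate makes a mistake, `Viol n s` that our object makes one, and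
`Good k n s` that the `k`-th reduction works. -/
structure Eng (Bad Err Viol : ℕ → ℕ → Set Oracle) (Good : ℕ → ℕ → ℕ → Set Oracle)
    (b : Polynomial ℕ) : Prop where
  le_eval : ∀ m, m ≤ b.eval m
  mErr : ∀ n s, MeasurableSet (Err n s)
  mViol : ∀ n s, MeasurableSet (Viol n s)
  spots : ∃ K : ℕ → ℕ → Finset (List Bool), (∀ n s, Loc (K n s : Set (List Bool)) (Bad n s)) ∧
    (∀ n s, ∀ x ∈ K n s, n < x.length) ∧ ∀ n n' s s', n ≠ n' → Disjoint (K n s) (K n' s')
  low : ∀ s, ∃ c > 0, ∀ n ≥ 1, c ≤ prob (Bad n s)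
  up : ∃ β : ℕ → ℝ, Summable β ∧ (∀ s, 0 ≤ β s) ∧ ∀ n s, prob (Bad n s) ≤ β s
  viol : ∃ C : ℝ, 0 ≤ C ∧ ∀ n ≥ 1, ∀ s, prob (Viol n s) ≤ C * prob (Bad n s)
  goodLoc : ∀ k, ∃ q : Polynomial ℕ, ∀ n s, s ≤ n → Loc {x | x.length ≤ q.eval n} (Good k n s)
  fail : ∃ γ : ℕ → ℝ, (∀ s, 0 ≤ γ s) ∧ ¬ Summable γ ∧ ∀ k, ∀ η > 0, ∃ n₀, ∀ n ≥ n₀, ∀ s, 4 ≤ s →
    s ≤ n → ∀ τ : Set Oracle, Loc {x | x.length ≤ n} τ →
      γ s * (prob τ - 2 * (prob (Err n s ∩ τ ∩ Bad n s) / prob (Bad n s)) - η) ≤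
        prob (τ ∩ (Good k n s)ᶜ)

section

variable {Bad Err Viol : ℕ → ℕ → Set Oracle} {Good : ℕ → ℕ → ℕ → Set Oracle} {b : Polynomial ℕ}

/-- all mistakes of the candidate -/
def ErrAll (Err : ℕ → ℕ → Set Oracle) : Set Oracle := ⋃ n, ⋃ s, Err n s

theorem Eng.mErrAll (h : Eng Bad Err Viol Good b) : MeasurableSet (ErrAll Err) :=
  MeasurableSet.iUnion fun n => MeasurableSet.iUnion fun s => h.mErr n s

theorem Eng.mBad (h : Eng Bad Err Viol Good b) (n s : ℕ) : MeasurableSet (Bad n s) := by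
  obtain ⟨K, hK, -⟩ := h.spots
  exact measurableSet_of_loc (K n s).finite_toSet (hK n s)

theorem Eng.indep (h : Eng Bad Err Viol Good b) {n s : ℕ} {τ : Set Oracle}
    (hτ : Loc {x | x.length ≤ n} τ) : prob (τ ∩ Bad n s) = prob τ * prob (Bad n s) := by
  obtain ⟨K, hK, hlen, -⟩ := h.spots
  refine prob_inter_of_disjoint (finite_length_le n) (K n s).finite_toSet ?_ hτ (hK n s)
  rw [Set.disjoint_left]
  intro x hx hx'
  have := hlen n s x hx'
  simp only [Set.mem_ofPred_eq] at hx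
  omega

theorem Eng.indep2 (h : Eng Bad Err Viol Good b) {n n' s s' : ℕ} (hn : n ≠ n') :
    prob (Bad n s ∩ Bad n' s') = prob (Bad n s) * prob (Bad n' s') := by
  obtain ⟨K, hK, -, hdis⟩ := h.spots
  refine prob_inter_of_disjoint (K n s).finite_toSet (K n' s').finite_toSet ?_ (hK n s)
    (hK n' s')
  exact_mod_cast hdis n n' s s' hn

theorem Eng.bad_pos (h : Eng Bad Err Viol Good b) {n s : ℕ} (hn : 1 ≤ n) :
    0 < prob (Bad n s) := by
  obtain ⟨c, hc, hc'⟩ := h.low s
  exact hc.trans_le (hc' n hn)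

theorem loc_cyl_of_le {t n : ℕ} (L : List (List Bool)) (h : t ≤ n) :
    Loc {x | x.length ≤ n} (cyl t L) := by
  intro A A' hA
  exact loc_cyl t L A A' fun x hx => hA x (le_trans hx h)

variable {t : ℕ} {L : List (List Bool)}

/-- unsuccessful stages -/
theorem Eng.unsuccess (h : Eng Bad Err Viol Good b)
    (hE : prob (cyl t L ∩ ErrAll Err) ≤ prob (cyl t L) / 8) (J : Finset ℕ)
    (hJ : ∀ i ∈ J, chk Bad Err t L (Tt b t i) (lev Bad Err t L (Tt b t) i) = false) :
    (prob (cyl t L) / 8) ^ 2 *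
      ∑ i ∈ J, prob (Bad (Tt b t i) (lev Bad Err t L (Tt b t) i)) ≤ 1 := by
  classical
  refine bessel ((measurableSet_cyl t L).inter h.mErrAll) J
    (fun i => Bad (Tt b t i) (lev Bad Err t L (Tt b t) i)) (fun i => h.mBad _ _) ?_
    (by have := prob_cyl_pos t L; positivity) ?_
  · intro i _ j _ hij
    exact h.indep2 fun h1 => hij ((Tt_mono b t).injective h1)
  · intro i hi
    set n := Tt b t i with hn
    set s := lev Bad Err t L (Tt b t) i with hs
    have h1 := hJ i hi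
    unfold chk at h1
    rw [decide_eq_false_iff_not, not_lt] at h1
    have h2 : prob (cyl t L ∩ Bad n s) = prob (cyl t L) * prob (Bad n s) :=
      h.indep (loc_cyl_of_le L (lt_Tt b t i).le)
    have h3 : prob (cyl t L ∩ (Bad n s ∩ Err n s)) ≤
        prob (cyl t L ∩ ErrAll Err ∩ Bad n s) := by
      apply prob_mono
      rintro A ⟨h4, h5, h6⟩
      exact ⟨⟨h4, Set.mem_iUnion.2 ⟨n, Set.mem_iUnion.2 ⟨s, h6⟩⟩⟩, h5⟩
    have h4 : 0 ≤ prob (Bad n s) := prob_nonneg _
    nlinarith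

theorem Eng.levels (h : Eng Bad Err Viol Good b)
    (hE : prob (cyl t L ∩ ErrAll Err) ≤ prob (cyl t L) / 8) :
    Tendsto (lev Bad Err t L (Tt b t)) atTop atTop := by
  refine tendsto_atTop_atTop_of_monotone (lev_mono _ _ _ _ _) ?_
  by_contra hcon
  push Not at hcon
  obtain ⟨B, hB⟩ := hcon
  -- the levels are eventually constant
  obtain ⟨i₀, hi₀⟩ : ∃ i₀, ∀ i ≥ i₀, lev Bad Err t L (Tt b t) i = lev Bad Err t L (Tt b t) i₀ := by
    by_contra hc
    push Not at hc
    have key : ∀ N, ∃ i, N ≤ lev Bad Err t L (Tt b t) i := by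
      intro N
      induction N with
      | zero => exact ⟨0, Nat.zero_le _⟩
      | succ N ih =>
        obtain ⟨i, hi⟩ := ih
        obtain ⟨j, hj, hne⟩ := hc i
        have := lev_mono Bad Err t L (Tt b t) hj
        exact ⟨j, by omega⟩
    obtain ⟨i, hi⟩ := key B
    have := hB i
    omega
  set s := lev Bad Err t L (Tt b t) i₀ with hs
  obtain ⟨c, hc, hc'⟩ := h.low s
  have hun : ∀ i ≥ i₀, chk Bad Err t L (Tt b t i) (lev Bad Err t L (Tt b t) i) = false := by
    intro i hi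
    have h1 := hi₀ (i + 1) (by omega)
    rw [lev_succ, hi₀ i hi] at h1
    rw [hi₀ i hi]
    cases hch : chk Bad Err t L (Tt b t i) s with
    | false => rfl
    | true => rw [hch] at h1; simp at h1
  have ha : 0 < (prob (cyl t L) / 8) ^ 2 := by
    have := prob_cyl_pos t L
    positivity
  obtain ⟨M, hM⟩ := exists_nat_gt (1 / ((prob (cyl t L) / 8) ^ 2 * c))
  have h2 := h.unsuccess hE (Finset.Ico i₀ (i₀ + M)) fun i hi => hun i (Finset.mem_Ico.1 hi).1
  have h3 : (M : ℝ) * c ≤ ∑ i ∈ Finset.Ico i₀ (i₀ + M),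
      prob (Bad (Tt b t i) (lev Bad Err t L (Tt b t) i)) := by
    calc (M : ℝ) * c = ∑ i ∈ Finset.Ico i₀ (i₀ + M), c := by simp
      _ ≤ _ := by
        apply Finset.sum_le_sum
        intro i hi
        rw [hi₀ i (Finset.mem_Ico.1 hi).1]
        exact hc' _ (by have := add_le_Tt b t i; omega)
  rw [div_lt_iff₀ (by positivity)] at hM
  have h4 := mul_le_mul_of_nonneg_left h3 ha.le
  nlinarith

theorem Eng.summable (h : Eng Bad Err Viol Good b)
    (hE : prob (cyl t L ∩ ErrAll Err) ≤ prob (cyl t L) / 8) :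
    Summable fun i => prob (Bad (Tt b t i) (lev Bad Err t L (Tt b t) i)) := by
  classical
  obtain ⟨β, hβ, hβ0, hβ'⟩ := h.up
  set a := (prob (cyl t L) / 8) ^ 2 with haa
  have ha : 0 < a := by
    have := prob_cyl_pos t L
    positivity
  refine summable_of_sum_range_le (c := 1 / a + ∑' s, β s) (fun i => prob_nonneg _) fun M => ?_
  rw [← Finset.sum_filter_add_sum_filter_not (Finset.range M)
    (fun i => chk Bad Err t L (Tt b t i) (lev Bad Err t L (Tt b t) i) = true), add_comm]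
  apply add_le_add
  · have h1 := h.unsuccess hE ((Finset.range M).filter fun i =>
      ¬ chk Bad Err t L (Tt b t i) (lev Bad Err t L (Tt b t) i) = true) fun i hi => by
        simpa using (Finset.mem_filter.1 hi).2
    rw [le_div_iff₀ ha, mul_comm]
    exact h1
  · calc _ ≤ ∑ i ∈ (Finset.range M).filter (fun i =>
          chk Bad Err t L (Tt b t i) (lev Bad Err t L (Tt b t) i) = true),
          β (lev Bad Err t L (Tt b t) i) := Finset.sum_le_sum fun i _ => hβ' _ _
      _ = ∑ s ∈ Finset.Ico (lev Bad Err t L (Tt b t) 0) (lev Bad Err t L (Tt b t) M), β s := by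
          have := sum_success Bad Err t L (Tt b t) β 0 M (Nat.zero_le M)
          rw [← Nat.Ico_zero_eq_range]
          convert this using 2
      _ ≤ ∑' s, β s := hβ.sum_le_tsum _ fun s _ => hβ0 s

theorem Eng.borel (h : Eng Bad Err Viol Good b)
    (hE : prob (cyl t L ∩ ErrAll Err) ≤ prob (cyl t L) / 8) :
    ∀ᵐ A ∂randomOracle, ∀ᶠ i in atTop, A ∉ Viol (Tt b t i) (lev Bad Err t L (Tt b t) i) := by
  obtain ⟨C, hC, hC'⟩ := h.viol
  apply ae_eventually_notMem
  have h1 : Summable fun i => prob (Viol (Tt b t i) (lev Bad Err t L (Tt b t) i)) := by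
    refine Summable.of_nonneg_of_le (fun i => prob_nonneg _) (fun i => ?_)
      ((h.summable hE).mul_left C)
    exact hC' _ (by have := add_le_Tt b t i; omega) _
  have h2 : ∀ i, randomOracle (Viol (Tt b t i) (lev Bad Err t L (Tt b t) i)) =
      ENNReal.ofReal (prob (Viol (Tt b t i) (lev Bad Err t L (Tt b t) i))) := fun i =>
    (ENNReal.ofReal_toReal (measure_ne_top _ _)).symm
  simp_rw [h2]
  exact h1.tsum_ofReal_ne_top

end

end Pool.Agent.W2helper58.RU
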