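import Pool.Agent.W2helper58.RU.Abs

/-!
# The abstract diagonalization for random oracles: no reduction works
-/

set_option autoImplicit false

namespace Pool.Agent.W2helper58.RU

open MeasureTheory Filter Topology Pool.Agent.H628R3.RO Pool.Agent.H628R3.RO.M2

variable {Bad Err Viol : ℕ → ℕ → Set Oracle} {Good : ℕ → ℕ → ℕ → Set Oracle} {b : Polynomial ℕ}

/-- the oracles for which some reduction works from some stage on -/
def Works (Bad Err : ℕ → ℕ → Set Oracle) (Good : ℕ → ℕ → ℕ → Set Oracle) (b : Polynomial ℕ)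
    (t : ℕ) (L : List (List Bool)) : Set Oracle :=
  {A | ∃ k i₀, ∀ i ≥ i₀, A ∈ Good k (Tt b t i) (lev Bad Err t L (Tt b t) i)}

theorem Eng.mGood (h : Eng Bad Err Viol Good b) {k n s : ℕ} (hs : s ≤ n) :
    MeasurableSet (Good k n s) := by
  obtain ⟨q, hq⟩ := h.goodLoc k
  exact measurableSet_of_loc (finite_length_le _) (hq n s hs)

theorem lev_le_Tt (t : ℕ) (L : List (List Bool)) (i : ℕ) :
    lev Bad Err t L (Tt b t) i ≤ Tt b t i := by
  have h1 := lev_le Bad Err t L (Tt b t) i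
  have h2 := add_le_Tt b t i
  omega

theorem Eng.mGood' (h : Eng Bad Err Viol Good b) (t : ℕ) (L : List (List Bool)) (k i : ℕ) :
    MeasurableSet (Good k (Tt b t i) (lev Bad Err t L (Tt b t) i)) :=
  h.mGood (lev_le_Tt t L i)

theorem Eng.mWorks (h : Eng Bad Err Viol Good b) (t : ℕ) (L : List (List Bool)) :
    MeasurableSet (Works Bad Err Good b t L) := by
  have : Works Bad Err Good b t L = ⋃ k, ⋃ i₀, ⋂ i, ⋂ (_ : i ≥ i₀),
      Good k (Tt b t i) (lev Bad Err t L (Tt b t) i) := by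
    ext A
    simp [Works]
  rw [this]
  exact MeasurableSet.iUnion fun k => MeasurableSet.iUnion fun i₀ =>
    MeasurableSet.iInter fun i => MeasurableSet.iInter fun _ => h.mGood' t L k i

theorem not_summable_Ico {γ : ℕ → ℝ} (h0 : ∀ s, 0 ≤ γ s) (h : ¬ Summable γ) (a : ℕ) (C : ℝ) :
    ∃ N, ∀ n ≥ N, C < ∑ s ∈ Finset.Ico a n, γ s := by
  have h1 := (not_summable_iff_tendsto_nat_atTop_of_nonneg h0).1 h
  have h2 := h1.eventually_gt_atTop (C + ∑ s ∈ Finset.range a, γ s)
  obtain ⟨N, hN⟩ := eventually_atTop.1 h2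
  refine ⟨max N a, fun n hn => ?_⟩
  have h3 := hN n (le_trans (le_max_left _ _) hn)
  have h4 := Finset.sum_range_add_sum_Ico γ (le_trans (le_max_right N a) hn)
  linarith

variable {t : ℕ} {L : List (List Bool)}

open Classical in
theorem Eng.works_le (h : Eng Bad Err Viol Good b)
    (hE : prob (cyl t L ∩ ErrAll Err) ≤ prob (cyl t L) / 8) :
    prob (cyl t L ∩ Works Bad Err Good b t L) ≤ 7 / 8 * prob (cyl t L) := by
  by_contra hcon
  rw [not_le] at hcon
  set T := Tt b t with hT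
  set lv := lev Bad Err t L T with hlv
  set c := cyl t L with hc
  have hcpos : 0 < prob c := prob_cyl_pos t L
  have hlevle : ∀ i, lv i ≤ T i := lev_le_Tt t L
  obtain ⟨γ, hγ0, hγ, hfail⟩ := h.fail
  -- finitely many reductions
  obtain ⟨m, hm⟩ : ∃ m, 7 / 8 * prob c <
      prob {A | A ∈ c ∧ ∃ k < m, ∀ i ≥ m, A ∈ Good k (T i) (lv i)} := by
    have hmono : Monotone fun m : ℕ => {A | A ∈ c ∧ ∃ k < m, ∀ i ≥ m,
        A ∈ Good k (T i) (lv i)} := by
      rintro m m' hmm A ⟨h1, k, hk, h2⟩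
      exact ⟨h1, k, lt_of_lt_of_le hk hmm, fun i hi => h2 i (le_trans hmm hi)⟩
    have hU : ⋃ m : ℕ, {A | A ∈ c ∧ ∃ k < m, ∀ i ≥ m, A ∈ Good k (T i) (lv i)} =
        c ∩ Works Bad Err Good b t L := by
      ext A
      simp only [Set.mem_iUnion, Set.mem_ofPred_eq, Set.mem_inter_iff, Works]
      constructor
      · rintro ⟨m, h1, k, _, h2⟩
        exact ⟨h1, k, m, h2⟩
      · rintro ⟨h1, k, i₀, h2⟩
        exact ⟨max (k + 1) i₀, h1, k, by omega, fun i hi => h2 i (by omega)⟩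
    have h1 := tendsto_prob_iUnion hmono
    rw [hU] at h1
    obtain ⟨m, hm⟩ := (h1.eventually (lt_mem_nhds hcon)).exists
    exact ⟨m, hm⟩
  -- the parameters
  set η := prob c / (8 * (m + 1)) with hη
  have hηpos : 0 < η := by positivity
  choose n₀ hn₀ using fun k => hfail k η hηpos
  choose q hq using h.goodLoc
  obtain ⟨i₀, hi₀m, hi₀⟩ : ∃ i₀ ≥ m, ∀ i ≥ i₀, ∀ k < m, (q k).eval (T i) ≤ T (i + 1) ∧
      n₀ k ≤ T i := by
    have e1 : ∀ᶠ i in atTop, ∀ k ∈ Finset.range m, (q k).eval (T i) ≤ T (i + 1) ∧ n₀ k ≤ T i := by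
      rw [Filter.eventually_all_finset]
      intro k _
      exact (poly_le_Tt b t h.le_eval (q k)).and ((tendsto_Tt b t).eventually_ge_atTop (n₀ k))
    obtain ⟨i₁, hi₁⟩ := eventually_atTop.1 e1
    exact ⟨max m i₁, le_max_left _ _, fun i hi k hk =>
      hi₁ i (le_trans (le_max_right _ _) hi) k (Finset.mem_range.2 hk)⟩
  -- the sets
  set al : ℕ → ℕ → Set Oracle := fun k i =>
    {A | A ∈ c ∧ ∀ i', i₀ ≤ i' → i' < i → A ∈ Good k (T i') (lv i')} with hal
  set τ : ℕ → ℕ → Set Oracle := fun k i =>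
    {A | A ∈ al k i ∧ ∀ k' < k, A ∉ al k' i} with hτ
  set D : ℕ → ℕ → Set Oracle := fun k i => τ k i ∩ (Good k (T i) (lv i))ᶜ with hD
  have loc_al : ∀ i ≥ i₀, ∀ k < m, Loc {x | x.length ≤ T i} (al k i) := by
    intro i hi k hk A A' hA
    have e1 : A ∈ c ↔ A' ∈ c := loc_cyl_of_le L (lt_Tt b t i).le A A' hA
    have e2 : ∀ i', i₀ ≤ i' → i' < i → (A ∈ Good k (T i') (lv i') ↔ A' ∈ Good k (T i') (lv i')) := by
      intro i' h1 h2
      refine hq k (T i') (lv i') (hlevle i') A A' fun x hx => hA x ?_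
      simp only [Set.mem_ofPred_eq] at hx ⊢
      have h3 := (hi₀ i' h1 k hk).1
      have h4 : T (i' + 1) ≤ T i := (Tt_mono b t).monotone h2
      omega
    simp only [hal, Set.mem_ofPred_eq]
    constructor
    · rintro ⟨h1, h2⟩
      exact ⟨e1.1 h1, fun i' h3 h4 => (e2 i' h3 h4).1 (h2 i' h3 h4)⟩
    · rintro ⟨h1, h2⟩
      exact ⟨e1.2 h1, fun i' h3 h4 => (e2 i' h3 h4).2 (h2 i' h3 h4)⟩
  have loc_τ : ∀ i ≥ i₀, ∀ k < m, Loc {x | x.length ≤ T i} (τ k i) := by
    intro i hi k hk A A' hA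
    simp only [hτ, Set.mem_ofPred_eq]
    have e1 : ∀ k' < k, (A ∈ al k' i ↔ A' ∈ al k' i) := fun k' hk' =>
      loc_al i hi k' (by omega) A A' hA
    constructor
    · rintro ⟨h1, h2⟩
      exact ⟨(loc_al i hi k hk A A' hA).1 h1, fun k' hk' h3 => h2 k' hk' ((e1 k' hk').2 h3)⟩
    · rintro ⟨h1, h2⟩
      exact ⟨(loc_al i hi k hk A A' hA).2 h1, fun k' hk' h3 => h2 k' hk' ((e1 k' hk').1 h3)⟩
  have mτ : ∀ i ≥ i₀, ∀ k < m, MeasurableSet (τ k i) := fun i hi k hk =>
    measurableSet_of_loc (finite_length_le _) (loc_τ i hi k hk)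
  have hdisτ : ∀ i, ∀ k k', k ≠ k' → Disjoint (τ k i) (τ k' i) := by
    intro i k k' hne
    rw [Set.disjoint_left]
    rintro A ⟨h1, h2⟩ ⟨h3, h4⟩
    rcases lt_trichotomy k k' with h5 | h5 | h5
    · exact h4 k h5 h1
    · exact hne h5
    · exact h2 k' h5 h3
  -- one successful stage
  have hstage : ∀ i ≥ i₀, chk Bad Err t L (T i) (lv i) = true →
      prob c / 4 * γ (lv i) ≤ ∑ k ∈ Finset.range m, prob (D k i) := by
    intro i hi hch
    set n := T i with hn
    set s := lv i with hs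
    have hs4 : 4 ≤ s := four_le_lev _ _ _ _ _ _
    have hsn : s ≤ n := hlevle i
    have hn1 : 1 ≤ n := by omega
    have hBpos : 0 < prob (Bad n s) := h.bad_pos hn1
    unfold chk at hch
    rw [decide_eq_true_eq] at hch
    have hci : prob (c ∩ Bad n s) = prob c * prob (Bad n s) :=
      h.indep (loc_cyl_of_le L (lt_Tt b t i).le)
    have hdis1 : (↑(Finset.range m) : Set ℕ).PairwiseDisjoint (fun k => τ k i) :=
      fun k _ k' _ hne => hdisτ i k k' hne
    have e1 : ∑ k ∈ Finset.range m, prob (τ k i) = prob (⋃ k ∈ Finset.range m, τ k i) := by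
      unfold prob
      exact (measureReal_biUnion_finset hdis1 fun k hk => mτ i hi k (Finset.mem_range.1 hk)).symm
    have e2 : 7 / 8 * prob c ≤ prob (⋃ k ∈ Finset.range m, τ k i) := by
      refine hm.le.trans (prob_mono ?_)
      rintro A ⟨h1, k, hk, h2⟩
      have h3 : ∃ k, A ∈ al k i := ⟨k, h1, fun i' h4 _ => h2 i' (le_trans hi₀m h4)⟩
      refine Set.mem_iUnion₂.2 ⟨Nat.find h3, ?_, Nat.find_spec h3, fun k' hk' =>
        Nat.find_min h3 hk'⟩
      rw [Finset.mem_range]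
      refine lt_of_le_of_lt (Nat.find_le (h := h3) (n := k) ?_) hk
      exact ⟨h1, fun i' h4 _ => h2 i' (le_trans hi₀m h4)⟩
    have e3 : ∑ k ∈ Finset.range m, prob (Err n s ∩ τ k i ∩ Bad n s) ≤
        prob (c ∩ (Bad n s ∩ Err n s)) := by
      have hm3 : ∀ k ∈ Finset.range m, MeasurableSet (Err n s ∩ τ k i ∩ Bad n s) := fun k hk =>
        ((h.mErr n s).inter (mτ i hi k (Finset.mem_range.1 hk))).inter (h.mBad n s)
      have hd3 : (↑(Finset.range m) : Set ℕ).PairwiseDisjoint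
          (fun k => Err n s ∩ τ k i ∩ Bad n s) := by
        intro k hk k' hk' hne
        exact (hdis1 hk hk' hne).mono (fun A hA => hA.1.2) (fun A hA => hA.1.2)
      have : ∑ k ∈ Finset.range m, prob (Err n s ∩ τ k i ∩ Bad n s) =
          prob (⋃ k ∈ Finset.range m, (Err n s ∩ τ k i ∩ Bad n s)) := by
        unfold prob
        exact (measureReal_biUnion_finset hd3 hm3).symm
      rw [this]
      apply prob_mono
      intro A hA
      obtain ⟨k, _, ⟨h2, h3⟩, h4⟩ := Set.mem_iUnion₂.1 hA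
      exact ⟨h3.1.1, h4, h2⟩
    have e4 : ∀ k ∈ Finset.range m, γ s * (prob (τ k i) -
        2 * (prob (Err n s ∩ τ k i ∩ Bad n s) / prob (Bad n s)) - η) ≤ prob (D k i) := by
      intro k hk
      rw [Finset.mem_range] at hk
      exact hn₀ k n (hi₀ i hi k hk).2 s hs4 hsn _ (loc_τ i hi k hk)
    have e5 := Finset.sum_le_sum e4
    rw [← Finset.mul_sum, Finset.sum_sub_distrib, Finset.sum_sub_distrib, ← Finset.mul_sum,
      ← Finset.sum_div, e1, Finset.sum_const, Finset.card_range, nsmul_eq_mul] at e5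
    refine le_trans ?_ e5
    rw [mul_comm]
    apply mul_le_mul_of_nonneg_left _ (hγ0 s)
    have e6 : (∑ k ∈ Finset.range m, prob (Err n s ∩ τ k i ∩ Bad n s)) / prob (Bad n s) ≤
        prob c / 4 := by
      rw [div_le_iff₀ hBpos]
      rw [hci] at hch
      linarith
    have e7 : (m : ℝ) * η ≤ prob c / 8 := by
      rw [hη, mul_div_assoc', div_le_div_iff₀ (by positivity) (by norm_num)]
      nlinarith
    linarith
  -- the total
  have htotal : ∀ I, ∑ i ∈ Finset.Ico i₀ I, ∑ k ∈ Finset.range m, prob (D k i) ≤ m := by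
    intro I
    rw [Finset.sum_comm]
    have : ∀ k ∈ Finset.range m, ∑ i ∈ Finset.Ico i₀ I, prob (D k i) ≤ 1 := by
      intro k hk
      rw [Finset.mem_range] at hk
      have hm4 : ∀ i ∈ Finset.Ico i₀ I, MeasurableSet (D k i) := fun i hi =>
        (mτ i (Finset.mem_Ico.1 hi).1 k hk).inter (h.mGood' t L k i).compl
      have hd4 : (↑(Finset.Ico i₀ I) : Set ℕ).PairwiseDisjoint (fun i => D k i) := by
        have key : ∀ i i', i₀ ≤ i → i < i' → Disjoint (D k i) (D k i') := by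
          intro i i' h1 h2
          rw [Set.disjoint_left]
          rintro A ⟨_, h3⟩ ⟨h4, _⟩
          exact h3 (h4.1.2 i h1 h2)
        intro i hi i' hi' hne
        rw [Finset.mem_coe, Finset.mem_Ico] at hi hi'
        rcases lt_or_gt_of_ne hne with h1 | h1
        · exact key i i' hi.1 h1
        · exact (key i' i hi'.1 h1).symm
      have e1 : ∑ i ∈ Finset.Ico i₀ I, prob (D k i) = prob (⋃ i ∈ Finset.Ico i₀ I, D k i) := by
        unfold prob
        exact (measureReal_biUnion_finset hd4 hm4).symm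
      rw [e1]
      unfold prob
      exact measureReal_le_one
    calc _ ≤ ∑ k ∈ Finset.range m, (1 : ℝ) := Finset.sum_le_sum this
      _ = m := by simp
  -- divergence
  obtain ⟨N, hN⟩ := not_summable_Ico hγ0 hγ (lv i₀) (4 * m / prob c)
  obtain ⟨I, hI, hI'⟩ := (((h.levels hE).eventually_ge_atTop N).and
    (eventually_ge_atTop i₀)).exists
  have h1 := hN (lv I) hI
  have h2 := sum_success Bad Err t L T γ i₀ I hI'
  have h3 : prob c / 4 * ∑ s ∈ Finset.Ico (lv i₀) (lv I), γ s ≤ m := by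
    rw [← h2, Finset.mul_sum]
    refine le_trans ?_ (htotal I)
    refine le_trans (Finset.sum_le_sum fun i hi => ?_)
      (Finset.sum_le_sum_of_subset_of_nonneg (Finset.filter_subset _ _) fun i _ _ =>
        Finset.sum_nonneg fun k _ => prob_nonneg _)
    rw [Finset.mem_filter, Finset.mem_Ico] at hi
    exact hstage i hi.1.1 hi.2
  rw [div_lt_iff₀ hcpos] at h1
  nlinarith

/-- **The abstract theorem.** -/
theorem Eng.main (h : Eng Bad Err Viol Good b) : ∀ᵐ A ∂randomOracle,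
    (∀ n s, A ∉ Err n s) → ∃ (t : ℕ) (L : List (List Bool)),
      (∃ i₁, ∀ i ≥ i₁, A ∉ Viol (Tt b t i) (lev Bad Err t L (Tt b t) i)) ∧
      ∀ k i₀, ∃ i ≥ i₀, A ∉ Good k (Tt b t i) (lev Bad Err t L (Tt b t) i) := by
  set G : Set Oracle := {A | A ∉ ErrAll Err ∧ ∀ (t : ℕ) (L : List (List Bool)),
    prob (cyl t L ∩ ErrAll Err) ≤ prob (cyl t L) / 8 → A ∈ cyl t L →
      A ∈ Works Bad Err Good b t L} with hG
  have mG : MeasurableSet G := by
    have e1 : G = (ErrAll Err)ᶜ ∩ ⋂ t : ℕ, ⋂ L : List (List Bool),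
        ⋂ (_ : prob (cyl t L ∩ ErrAll Err) ≤ prob (cyl t L) / 8),
          ((cyl t L)ᶜ ∪ Works Bad Err Good b t L) := by
      ext A
      simp only [hG, Set.mem_ofPred_eq, Set.mem_inter_iff, Set.mem_compl_iff, Set.mem_iInter,
        Set.mem_union]
      refine and_congr_right fun _ => forall_congr' fun t => forall_congr' fun L =>
        forall_congr' fun _ => ?_
      tauto
    rw [e1]
    exact h.mErrAll.compl.inter (MeasurableSet.iInter fun t => MeasurableSet.iInter fun L =>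
      MeasurableSet.iInter fun _ => (measurableSet_cyl t L).compl.union (h.mWorks t L))
  have hG0 : prob G = 0 := by
    by_contra hne
    have hpos : 0 < prob G := lt_of_le_of_ne (prob_nonneg _) (Ne.symm hne)
    obtain ⟨t, L, htL⟩ := exists_cyl_dense mG hpos (θ := 7 / 8) (by norm_num) (by norm_num)
    have h1 : prob (cyl t L ∩ ErrAll Err) ≤ prob (cyl t L) / 8 := by
      have h2 := prob_inter_add_compl (cyl t L) h.mErrAll
      have h3 : prob (G ∩ cyl t L) ≤ prob (cyl t L ∩ (ErrAll Err)ᶜ) :=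
        prob_mono fun A hA => ⟨hA.2, hA.1.1⟩
      linarith
    have h2 := h.works_le h1
    have h3 : prob (G ∩ cyl t L) ≤ prob (cyl t L ∩ Works Bad Err Good b t L) :=
      prob_mono fun A hA => ⟨hA.2, hA.1.2 t L h1 hA.2⟩
    linarith
  have hG1 : ∀ᵐ A ∂randomOracle, A ∉ G := by
    rw [ae_iff]
    simp only [not_not]
    have : randomOracle G = 0 := by
      unfold prob Measure.real at hG0
      rcases (ENNReal.toReal_eq_zero_iff _).1 hG0 with h1 | h1
      · exact h1
      · exact absurd h1 (measure_ne_top _ _)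
    exact this
  have hV : ∀ᵐ A ∂randomOracle, ∀ (t : ℕ) (L : List (List Bool)),
      prob (cyl t L ∩ ErrAll Err) ≤ prob (cyl t L) / 8 →
        ∀ᶠ i in atTop, A ∉ Viol (Tt b t i) (lev Bad Err t L (Tt b t) i) := by
    rw [ae_all_iff]
    intro t
    rw [ae_all_iff]
    intro L
    by_cases hE : prob (cyl t L ∩ ErrAll Err) ≤ prob (cyl t L) / 8
    · filter_upwards [h.borel hE] with A hA _
      exact hA
    · exact Eventually.of_forall fun A h1 => absurd h1 hE
  filter_upwards [hG1, hV] with A h1 h2 h3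
  have h4 : A ∉ ErrAll Err := by
    intro h5
    obtain ⟨n, h6⟩ := Set.mem_iUnion.1 h5
    obtain ⟨s, h7⟩ := Set.mem_iUnion.1 h6
    exact h3 n s h7
  by_contra hcon
  push Not at hcon
  apply h1
  refine ⟨h4, fun t L hE hA => ?_⟩
  obtain ⟨i₁, hi₁⟩ := eventually_atTop.1 (h2 t L hE)
  obtain ⟨k, i₀, hk⟩ := hcon t L ⟨i₁, hi₁⟩
  exact ⟨k, i₀, hk⟩

end Pool.Agent.W2helper58.RU
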