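import Pool.Agent.W2helper58.RU.Key
import Pool.Agent.H628R3.RO.BaseE
import Pool.Agent.H628R3.RO.D2
import Pool.Agent.H529R3.Lev.Tow

/-!
# Certificates, and the blocks for `UP`
-/

set_option autoImplicit false

namespace Pool.Agent.W2helper58.RU

open MeasureTheory Filter Topology Pool.Agent.NPC Pool.Agent.H628R3.RO
open Pool.Agent.H628R3.RO.M2 (spots_disjoint mem_spots hit_plant hit_plant_self prob_mono
  prob_union_le prob_nonneg measurableSet_noHit measurableSet_hit prob_hit_inter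
  prob_inter_add_compl loc_hit)

open Classical in
/-- the candidates touched by a set of strings -/
noncomputable def touched (m : ℕ) (W : Finset Cand) (Q : Finset (List Bool)) : Finset Cand :=
  W.filter fun κ => ∃ x ∈ Q, x ∈ spots m κ

theorem card_touched_le (m : ℕ) (W : Finset Cand) (Q : Finset (List Bool)) :
    (touched m W Q).card ≤ Q.card := by
  classical
  have h1 : touched m W Q ⊆ Q.biUnion fun x => W.filter fun κ => x ∈ spots m κ := by
    intro κ hκ
    unfold touched at hκ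
    rw [Finset.mem_filter] at hκ
    obtain ⟨h2, x, hx, h3⟩ := hκ
    exact Finset.mem_biUnion.2 ⟨x, hx, Finset.mem_filter.2 ⟨h2, h3⟩⟩
  refine (Finset.card_le_card h1).trans (Finset.card_biUnion_le.trans ?_)
  calc ∑ x ∈ Q, (W.filter fun κ => x ∈ spots m κ).card ≤ ∑ x ∈ Q, 1 := by
        apply Finset.sum_le_sum
        intro x _
        rw [Finset.card_le_one]
        intro κ hκ κ' hκ'
        rw [Finset.mem_filter] at hκ hκ'
        exact spots_disjoint hκ.2 hκ'.2
    _ = Q.card := by simp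

theorem plant_eq {m : ℕ} {W h : Finset Cand} {Q : Finset (List Bool)} (hW : h ⊆ W)
    (hd : Disjoint h (touched m W Q)) (A : Oracle) {x : List Bool} (hx : x ∈ Q) :
    plant (allSpots m h) A x = A x := by
  unfold plant
  rw [if_neg]
  intro h1
  obtain ⟨κ, hκ, h2⟩ := M2.mem_allSpots.1 h1
  refine Finset.disjoint_left.1 hd hκ ?_
  unfold touched
  rw [Finset.mem_filter]
  exact ⟨hW hκ, x, hx, h2⟩

/-- a certificate for the output -/
theorem exists_cert (M : Alg) (A : Oracle) (x : List Bool) : ∃ Q : Finset (List Bool),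
    Q.card ≤ M.p.eval x.length ∧
      ∀ A' : Oracle, (∀ q ∈ Q, A' q = A q) → M.out A' x = M.out A x := by
  obtain ⟨qb, hq⟩ := M.out_local
  obtain ⟨Q, h1, -, h2⟩ := hq A x
  exact ⟨Q, h1, h2⟩

theorem mem_halfN {i : Bool} {n : ℕ} {κ : Cand} :
    κ ∈ halfN i n ↔ κ.1 = i.toNat ∧ κ.2.length = n := by
  unfold halfN
  rw [mem_cands, Finset.mem_singleton]

theorem card_halfN (i : Bool) (n : ℕ) : (halfN i n).card = 2 ^ n := by
  unfold halfN
  rw [card_cands, Finset.card_singleton, one_mul]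

theorem disjoint_halfN (n : ℕ) : Disjoint (halfN false n) (halfN true n) := by
  rw [Finset.disjoint_left]
  intro κ h1 h2
  rw [mem_halfN] at h1 h2
  have := h1.1.symm.trans h2.1
  simp at this

theorem lvN_le (s : ℕ) : lvN s ≤ s := by
  unfold lvN
  rw [Nat.size_le]
  exact Nat.lt_two_pow_self

theorem mem_spotsN {n s : ℕ} {x : List Bool} (hx : x ∈ spotsN n s) :
    ∃ c ≤ 1, ∃ i < bitsN n s, ∃ w : List Bool, w.length = n ∧ x = pos c i w := by
  unfold spotsN at hx
  rw [mem_allSpots] at hx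
  obtain ⟨κ, hκ, i, hi, rfl⟩ := hx
  rw [Finset.mem_union, mem_halfN, mem_halfN] at hκ
  rcases hκ with ⟨h1, h2⟩ | ⟨h1, h2⟩
  · exact ⟨κ.1, by rw [h1]; simp, i, hi, κ.2, h2, rfl⟩
  · exact ⟨κ.1, by rw [h1]; simp, i, hi, κ.2, h2, rfl⟩

theorem lt_length_spotsN {n s : ℕ} : ∀ x ∈ spotsN n s, n < x.length := by
  intro x hx
  obtain ⟨c, _, i, _, w, hw, rfl⟩ := mem_spotsN hx
  rw [length_pos]
  omega

theorem length_le_spotsN {n s : ℕ} (hs : s ≤ n) : ∀ x ∈ spotsN n s, x.length ≤ 3 * n + 3 := by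
  intro x hx
  obtain ⟨c, hc, i, hi, w, hw, rfl⟩ := mem_spotsN hx
  rw [length_pos]
  have h1 := lvN_le s
  unfold bitsN at hi
  omega

theorem disjoint_spotsN (n n' s s' : ℕ) (h : n ≠ n') : Disjoint (spotsN n s) (spotsN n' s') := by
  rw [Finset.disjoint_left]
  intro x hx hx'
  obtain ⟨c, _, i, _, w, hw, rfl⟩ := mem_spotsN hx
  obtain ⟨c', _, i', _, w', hw', h2⟩ := mem_spotsN hx'
  obtain ⟨-, -, h3⟩ := pos_inj h2
  apply h
  rw [← hw, ← hw', h3]

/-- the spots of one half -/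
theorem loc_HitN' (i : Bool) (n s : ℕ) :
    Loc (allSpots (bitsN n s) (halfN i n) : Set (List Bool)) (HitN i n s) := by
  unfold HitN
  apply M2.Loc.compl
  apply M2.loc_noHit
  intro κ hκ j hj
  exact Finset.mem_coe.2 (mem_allSpots.2 ⟨κ, hκ, j, hj, rfl⟩)

theorem spots_half_subset (i : Bool) (n s : ℕ) :
    (allSpots (bitsN n s) (halfN i n) : Set (List Bool)) ⊆ spotsN n s := by
  intro x hx
  rw [Finset.mem_coe, mem_allSpots] at hx
  obtain ⟨κ, hκ, j, hj, rfl⟩ := hx
  unfold spotsN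
  rw [Finset.mem_coe, mem_allSpots]
  refine ⟨κ, ?_, j, hj, rfl⟩
  cases i
  · exact Finset.mem_union_left _ hκ
  · exact Finset.mem_union_right _ hκ

theorem loc_HitN (i : Bool) (n s : ℕ) : Loc (spotsN n s : Set (List Bool)) (HitN i n s) :=
  M2.Loc.mono (loc_HitN' i n s) (spots_half_subset i n s)

theorem loc_BadN (n s : ℕ) : Loc (spotsN n s : Set (List Bool)) (BadN n s) :=
  M2.Loc.inter (loc_HitN false n s) (loc_HitN true n s)

theorem loc_TwoN (n s : ℕ) : Loc (spotsN n s : Set (List Bool)) (TwoN n s) := by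
  have key : ∀ A A' : Oracle, (∀ x ∈ (spotsN n s : Set (List Bool)), A x = A' x) →
      ∀ κ ∈ halfN false n ∪ halfN true n, (Hit (bitsN n s) κ A ↔ Hit (bitsN n s) κ A') := by
    intro A A' h κ hκ
    refine forall₂_congr fun i hi => ?_
    rw [h]
    unfold spotsN
    rw [Finset.mem_coe, mem_allSpots]
    exact ⟨κ, hκ, i, hi, rfl⟩
  apply loc_of_imp
  rintro A A' h ⟨κ, h1, κ', h2, h3, h4, h5⟩
  exact ⟨κ, h1, κ', h2, h3, (key A A' h κ h1).1 h4, (key A A' h κ' h2).1 h5⟩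

theorem prob_HitN (i : Bool) (n s : ℕ) :
    prob (HitN i n s) = 1 - (1 - (1 / 2 : ℝ) ^ (n + lvN s)) ^ (2 ^ n) := by
  have h1 := prob_inter_add_compl Set.univ (measurableSet_noHit (bitsN n s) (halfN i n))
  rw [Set.univ_inter, Set.univ_inter, prob_univ', prob_noHit, card_halfN] at h1
  unfold HitN
  unfold bitsN at h1 ⊢
  linarith

theorem prob_HitN_le (i : Bool) (n s : ℕ) : prob (HitN i n s) ≤ (1 / 2) ^ lvN s := by
  rw [prob_HitN]
  exact taut_le n (lvN s)

theorem prob_HitN_ge (i : Bool) (n s : ℕ) : (1 / 2) ^ (lvN s + 1) ≤ prob (HitN i n s) := by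
  rw [prob_HitN]
  exact taut_ge n (lvN s)

theorem prob_BadN (n s : ℕ) :
    prob (BadN n s) = prob (HitN false n s) * prob (HitN true n s) := by
  unfold BadN
  refine prob_inter_of_disjoint (Finset.finite_toSet _) (Finset.finite_toSet _) ?_
    (loc_HitN' false n s) (loc_HitN' true n s)
  rw [Finset.disjoint_coe, Finset.disjoint_left]
  intro x h1 h2
  rw [mem_allSpots] at h1 h2
  obtain ⟨κ, hκ, i, hi, rfl⟩ := h1
  obtain ⟨κ', hκ', i', hi', h3⟩ := h2
  obtain ⟨h4, -, -⟩ := pos_inj h3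
  rw [mem_halfN] at hκ hκ'
  have := (hκ.1.symm.trans h4).trans hκ'.1
  simp at this

theorem prob_BadN_le (n s : ℕ) : prob (BadN n s) ≤ ((1 / 2) ^ lvN s) ^ 2 := by
  rw [prob_BadN, sq]
  exact mul_le_mul (prob_HitN_le _ _ _) (prob_HitN_le _ _ _) (prob_nonneg _) (by positivity)

theorem prob_BadN_ge (n s : ℕ) : ((1 / 2) ^ (lvN s + 1)) ^ 2 ≤ prob (BadN n s) := by
  rw [prob_BadN, sq]
  exact mul_le_mul (prob_HitN_ge _ _ _) (prob_HitN_ge _ _ _) (by positivity) (prob_nonneg _)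

theorem prob_hit (m : ℕ) (κ : Cand) : prob {A | Hit m κ A} = (1 / 2) ^ m := by
  have := prob_hit_inter MeasurableSet.univ m κ (fun A => by simp)
  rw [Set.univ_inter, prob_univ', mul_one] at this
  exact this

theorem prob_two_hits {m : ℕ} {κ κ' : Cand} (h : κ ≠ κ') :
    prob ({A | Hit m κ' A} ∩ {A | Hit m κ A}) = (1 / 2) ^ m * (1 / 2) ^ m := by
  rw [prob_hit_inter (measurableSet_hit m κ') m κ, prob_hit]
  intro A
  have h1 : κ' ∉ ({κ} : Finset Cand) := by
    rw [Finset.mem_singleton]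
    exact fun h2 => h h2.symm
  have := hit_plant (m := m) h1 A
  rw [M2.allSpots_singleton] at this
  exact this

theorem prob_TwoN_le (n s : ℕ) : prob (TwoN n s) ≤ 16 * prob (BadN n s) := by
  classical
  set W := halfN false n ∪ halfN true n with hW
  have hWc : W.card = 2 * 2 ^ n := by
    rw [hW, Finset.card_union_of_disjoint (disjoint_halfN n), card_halfN, card_halfN]
    ring
  have h1 : TwoN n s ⊆ ⋃ κ ∈ W, ⋃ κ' ∈ W.erase κ,
      {A | Hit (bitsN n s) κ' A} ∩ {A | Hit (bitsN n s) κ A} := by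
    rintro A ⟨κ, h1, κ', h2, h3, h4, h5⟩
    refine Set.mem_iUnion₂.2 ⟨κ, h1, Set.mem_iUnion₂.2 ⟨κ', ?_, h5, h4⟩⟩
    rw [Finset.mem_erase]
    exact ⟨Ne.symm h3, h2⟩
  have h2 : prob (TwoN n s) ≤ ∑ κ ∈ W, ∑ κ' ∈ W.erase κ,
      (1 / 2 : ℝ) ^ bitsN n s * (1 / 2) ^ bitsN n s := by
    refine (prob_mono h1).trans ((measureReal_biUnion_finset_le _ _).trans ?_)
    apply Finset.sum_le_sum
    intro κ _
    refine (measureReal_biUnion_finset_le _ _).trans ?_
    apply Finset.sum_le_sum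
    intro κ' hκ'
    exact (prob_two_hits (Finset.mem_erase.1 hκ').1.symm).le
  have h3 : ∑ κ ∈ W, ∑ κ' ∈ W.erase κ, (1 / 2 : ℝ) ^ bitsN n s * (1 / 2) ^ bitsN n s ≤
      4 * ((1 / 2) ^ lvN s) ^ 2 := by
    calc _ ≤ ∑ κ ∈ W, ∑ κ' ∈ W, (1 / 2 : ℝ) ^ bitsN n s * (1 / 2) ^ bitsN n s := by
          apply Finset.sum_le_sum
          intro κ _
          exact Finset.sum_le_sum_of_subset_of_nonneg (Finset.erase_subset _ _)
            fun _ _ _ => by positivity
      _ = 4 * ((1 / 2) ^ bitsN n s * ((2 ^ n : ℕ) : ℝ)) ^ 2 := by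
          simp only [Finset.sum_const, hWc, nsmul_eq_mul]
          push_cast
          ring
      _ = 4 * ((1 / 2) ^ lvN s) ^ 2 := by
          unfold bitsN
          rw [half_pow_add_mul]
  have h4 := prob_BadN_ge n s
  have h5 : ((1 / 2 : ℝ) ^ (lvN s + 1)) ^ 2 = ((1 / 2) ^ lvN s) ^ 2 / 4 := by
    rw [pow_succ]
    ring
  rw [h5] at h4
  linarith

/-! ### the numbers -/

theorem size_lower (s : ℕ) : s + 1 ≤ 2 ^ s.size := Nat.lt_size_self s

theorem size_upper {s : ℕ} (hs : 1 ≤ s) : 2 ^ s.size ≤ 2 * s := by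
  have h1 : s.size ≠ 0 := by
    rw [Ne, Nat.size_eq_zero]
    omega
  obtain ⟨k, hk⟩ : ∃ k, s.size = k + 1 := ⟨s.size - 1, by omega⟩
  have h2 : k < s.size := by omega
  rw [Nat.lt_size] at h2
  rw [hk, pow_succ]
  omega

theorem summable_quarter : Summable fun s : ℕ => (((1 / 2 : ℝ)) ^ lvN s) ^ 2 := by
  have h1 : Summable fun s : ℕ => 1 / ((s + 1 : ℕ) : ℝ) ^ 2 :=
    (summable_nat_add_iff 1).2 (Real.summable_one_div_nat_pow.2 (by norm_num))
  refine Summable.of_nonneg_of_le (fun s => by positivity) (fun s => ?_) h1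
  have h2 := size_lower s
  have h3 : ((s + 1 : ℕ) : ℝ) ≤ 2 ^ s.size := by exact_mod_cast h2
  unfold lvN
  rw [one_div_pow, one_div_pow]
  apply one_div_le_one_div_of_le (by positivity)
  exact pow_le_pow_left₀ (by positivity) h3 2

theorem not_summable_half (c : ℝ) (hc : 0 < c) :
    ¬ Summable fun s : ℕ => c * ((1 / 2 : ℝ)) ^ s.size := by
  intro h
  rw [summable_mul_left_iff hc.ne'] at h
  have h1 : Summable fun s : ℕ => (1 / (2 : ℝ)) * (1 / (s : ℝ)) := by
    refine Summable.of_nonneg_of_le (fun s => by positivity) (fun s => ?_) h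
    rcases Nat.eq_zero_or_pos s with rfl | hs
    · simp
    · have h2 : ((2 ^ s.size : ℕ) : ℝ) ≤ ((2 * s : ℕ) : ℝ) := by exact_mod_cast size_upper hs
      push_cast at h2
      rw [one_div_pow, one_div_mul_one_div]
      exact one_div_le_one_div_of_le (by positivity) h2
  rw [summable_mul_left_iff (by norm_num)] at h1
  exact Real.not_summable_one_div_natCast h1

theorem four_le_size {s : ℕ} (hs : 4 ≤ s) : 3 ≤ s.size := by
  have : 2 < s.size := by
    rw [Nat.lt_size]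
    omega
  omega

/-- polynomials are small compared with exponentials -/
theorem poly_small (P : Polynomial ℕ) {η : ℝ} (hη : 0 < η) : ∃ n₀ : ℕ, ∀ n : ℕ, n₀ ≤ n →
    ((P.eval n : ℕ) : ℝ) * (1 / 2) ^ n ≤ η := by
  have h1 := H529R3.Lev.poly_le_two_pow (Polynomial.X * P)
  obtain ⟨M, hM⟩ := exists_nat_gt (1 / η)
  obtain ⟨n₁, hn₁⟩ := eventually_atTop.1 h1
  refine ⟨max n₁ (max M 1), fun n hn => ?_⟩
  have h2 := hn₁ n (le_trans (le_max_left _ _) hn)
  have h3 : M ≤ n := le_trans (le_trans (le_max_left _ _) (le_max_right _ _)) hn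
  have h4 : 1 ≤ n := le_trans (le_trans (le_max_right _ _) (le_max_right _ _)) hn
  rw [Polynomial.eval_mul, Polynomial.eval_X] at h2
  have h5 : (n : ℝ) * ((P.eval n : ℕ) : ℝ) ≤ 2 ^ n := by exact_mod_cast h2
  have h6 : 1 / η < n := hM.trans_le (by exact_mod_cast h3)
  rw [div_lt_iff₀ hη] at h6
  have h7 : (0 : ℝ) < n := by exact_mod_cast h4
  rw [one_div_pow, mul_one_div, div_le_iff₀ (by positivity)]
  have h8 : (0 : ℝ) ≤ ((P.eval n : ℕ) : ℝ) := Nat.cast_nonneg _
  nlinarith [mul_le_mul_of_nonneg_left h6.le h8]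

end Pool.Agent.W2helper58.RU
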