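import Pool.Agent.W2helper58.RU.Memb
import Pool.Agent.H628R3.RO.E1

/-!
# The checks can be carried out in time polynomial in a pad
-/

set_option autoImplicit false

namespace Pool.Agent.W2helper58.RU

open MeasureTheory Pool.Agent.NPC Pool.Agent.H628R3.RO

/-- acceptance, as a boolean -/
def acc (V : Alg) (S : List (List Bool)) (x y : List Bool) : Bool :=
  decide (V.out (ofL S) (pairBits x y) = some [true])

theorem acc_iff {V : Alg} {S : List (List Bool)} {x y : List Bool} :
    acc V S x y = true ↔ V.out (ofL S) (pairBits x y) = some [true] := decide_eq_true_iff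

theorem p_acc (V : Alg) {α : Type} [TEnc α] {S : α → List (List Bool)} {x y : α → List Bool}
    (hS : Poly S) (hx : Poly x) (hy : Poly y) : Poly (fun a => acc V (S a) (x a) (y a)) :=
  (Poly.decide_eq (p_out V hS (H622R2.poly_pairBits hx hy))
    (NPC.Poly.const (some [true]))).congr fun _ => decide_eq_decide.2 Iff.rfl

/-- length bound, as a boolean -/
def shrt (p : Polynomial ℕ) (x y : List Bool) : Bool := decide (y.length ≤ p.eval x.length)

theorem shrt_iff {p : Polynomial ℕ} {x y : List Bool} :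
    shrt p x y = true ↔ y.length ≤ p.eval x.length := decide_eq_true_iff

theorem p_shrt (p : Polynomial ℕ) {α : Type} [TEnc α] {x y : α → List Bool}
    (hx : Poly x) (hy : Poly y) : Poly (fun a => shrt p (x a) (y a)) :=
  (Poly.decide_le (UPoly.toPoly (UPoly.length hy))
    (UPoly.toPoly ((UPoly.length hx).eval p))).congr fun _ => decide_eq_decide.2 Iff.rfl

theorem pErr_U (V : Alg) (p b : Polynomial ℕ) (hb : ∀ m, m ≤ b.eval m)
    (hp : ∀ m, p.eval m ≤ b.eval m) :
    ∃ f : List (List Bool) → ℕ → ℕ → Bool, (∀ S n j, f S n j = true ↔ ofL S ∈ ErrU V p n) ∧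
    ∀ {α : Type} [TEnc α] {S : α → List (List Bool)} {n j N : α → ℕ}, Poly S → UPoly n →
      UPoly j → UPoly N → (∀ a, 2 ^ (b.eval (2 ^ (n a))) ≤ N a) →
      Poly (fun a => f (S a) (n a) (j a)) := by
  refine ⟨fun S n _ => (strs (2 ^ n)).any (fun x => (strs (p.eval (2 ^ n))).any
    (fun y => (strs (p.eval (2 ^ n))).any (fun y' => (!(decide (y = y')) &&
      (shrt p x y && shrt p x y')) && (acc V S x y && acc V S x y')))), fun S n j => ?_, ?_⟩
  · simp only [List.any_eq_true, Bool.and_eq_true, Bool.not_eq_true', decide_eq_false_iff_not,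
      shrt_iff, acc_iff, mem_strs]
    constructor
    · rintro ⟨x, hx, y, _, y', _, ⟨hne, hy, hy'⟩, h1, h2⟩
      exact ⟨x, hx, y, y', hne, hy, hy', h1, h2⟩
    · rintro ⟨x, hx, y, y', hne, hy, hy', h1, h2⟩
      exact ⟨x, hx, y, hy.trans (eval_mono p hx), y', hy'.trans (eval_mono p hx),
        ⟨hne, hy, hy'⟩, h1, h2⟩
  · intro α _ S n j N hS hn hj hN h
    have hp1 : ∀ a, 2 ^ (2 ^ (n a)) ≤ N a := fun a =>
      (Nat.pow_le_pow_right (by norm_num) (hb _)).trans (h a)
    have hn' : UPoly (fun a => 2 ^ (n a)) :=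
      u_pow hn hN fun a => (Nat.pow_le_pow_right (by norm_num) Nat.lt_two_pow_self.le).trans (hp1 a)
    have hp2 : ∀ a, 2 ^ (p.eval (2 ^ (n a))) ≤ N a := fun a =>
      (Nat.pow_le_pow_right (by norm_num) (hp _)).trans (h a)
    have h1 : Poly (fun q : α × List Bool => q.1) := Poly.fst Poly.id
    have g1 : Poly (fun q : (α × List Bool) × List Bool => q.1.1) := Poly.fst (Poly.fst Poly.id)
    refine Poly.any (p := fun a x => (strs (p.eval (2 ^ (n a)))).any
      (fun y => (strs (p.eval (2 ^ (n a)))).any (fun y' => (!(decide (y = y')) &&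
        (shrt p x y && shrt p x y')) && (acc V (S a) x y && acc V (S a) x y'))))
      (p_strs hn' hN hp1) ?_
    refine Poly.any (p := fun (q : α × List Bool) y => (strs (p.eval (2 ^ (n q.1)))).any
      (fun y' => (!(decide (y = y')) &&
        (shrt p q.2 y && shrt p q.2 y')) && (acc V (S q.1) q.2 y && acc V (S q.1) q.2 y')))
      (p_strs (l := fun q : α × List Bool => p.eval (2 ^ (n q.1))) ((hn'.eval p).comp h1)
        (hN.comp h1) fun q => hp2 q.1) ?_
    refine Poly.any (p := fun (q : (α × List Bool) × List Bool) y' => (!(decide (q.2 = y')) &&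
        (shrt p q.1.2 q.2 && shrt p q.1.2 y')) &&
        (acc V (S q.1.1) q.1.2 q.2 && acc V (S q.1.1) q.1.2 y'))
      (p_strs (l := fun q : (α × List Bool) × List Bool => p.eval (2 ^ (n q.1.1)))
        ((hn'.eval p).comp g1) (hN.comp g1) fun q => hp2 q.1.1) ?_
    have k0 : Poly (fun q : ((α × List Bool) × List Bool) × List Bool => q.1.1.1) :=
      Poly.fst (Poly.fst (Poly.fst Poly.id))
    have k1 : Poly (fun q : ((α × List Bool) × List Bool) × List Bool => q.1.1.2) :=
      Poly.snd (Poly.fst (Poly.fst Poly.id))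
    have k2 : Poly (fun q : ((α × List Bool) × List Bool) × List Bool => q.1.2) :=
      Poly.snd (Poly.fst Poly.id)
    have k3 : Poly (fun q : ((α × List Bool) × List Bool) × List Bool => q.2) := Poly.snd Poly.id
    exact Poly.and (Poly.and (Poly.not (Poly.decide_eq k2 k3))
      (Poly.and (p_shrt p k1 k2) (p_shrt p k1 k3)))
      (Poly.and (p_acc V (hS.comp k0) k1 k2) (p_acc V (hS.comp k0) k1 k3))

/-- no witness, as a boolean -/
def noWit (V : Alg) (p : Polynomial ℕ) (S : List (List Bool)) (m : ℕ) (x : List Bool) : Bool :=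
  (strs (p.eval m)).all (fun y => !(shrt p x y) || !(acc V S x y))

theorem noWit_iff {V : Alg} {p : Polynomial ℕ} {S : List (List Bool)} {m : ℕ} {x : List Bool}
    (hx : x.length ≤ m) : noWit V p S m x = true ↔ ¬ Wit V p x (ofL S) := by
  unfold noWit
  simp only [List.all_eq_true, Bool.or_eq_true, Bool.not_eq_true', mem_strs]
  constructor
  · rintro h ⟨y, hy, h1⟩
    rcases h y (hy.trans (eval_mono p hx)) with h2 | h2
    · rw [shrt_iff.2 hy] at h2
      simp at h2
    · rw [acc_iff.2 h1] at h2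
      simp at h2
  · intro h y _
    by_cases h1 : shrt p x y = true
    · right
      by_contra h2
      rw [Bool.not_eq_false] at h2
      exact h ⟨y, shrt_iff.1 h1, acc_iff.1 h2⟩
    · left
      simpa using h1

theorem p_noWit (V : Alg) (p : Polynomial ℕ) {α : Type} [TEnc α] {S : α → List (List Bool)}
    {x : α → List Bool} {m N : α → ℕ} (hS : Poly S) (hx : Poly x) (hm : UPoly m) (hN : UPoly N)
    (h : ∀ a, 2 ^ (p.eval (m a)) ≤ N a) : Poly (fun a => noWit V p (S a) (m a) (x a)) := by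
  refine Poly.all (p := fun a y => !(shrt p (x a) y) || !(acc V (S a) (x a) y))
    (p_strs (hm.eval p) hN h) ?_
  have h1 : Poly (fun q : α × List Bool => q.1) := Poly.fst Poly.id
  have h2 : Poly (fun q : α × List Bool => q.2) := Poly.snd Poly.id
  exact Poly.or (Poly.not (p_shrt p (hx.comp h1) h2))
    (Poly.not (p_acc V (hS.comp h1) (hx.comp h1) h2))

theorem pErr_C (V : Bool → Alg) (p : Bool → Polynomial ℕ) (b : Polynomial ℕ)
    (hb : ∀ m, m ≤ b.eval m) (hp : ∀ i m, (p i).eval m ≤ b.eval m) :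
    ∃ f : List (List Bool) → ℕ → ℕ → Bool, (∀ S n j, f S n j = true ↔ ofL S ∈ ErrC V p n) ∧
    ∀ {α : Type} [TEnc α] {S : α → List (List Bool)} {n j N : α → ℕ}, Poly S → UPoly n →
      UPoly j → UPoly N → (∀ a, 2 ^ (b.eval (2 ^ (n a))) ≤ N a) →
      Poly (fun a => f (S a) (n a) (j a)) := by
  refine ⟨fun S n _ => (strs (2 ^ n)).any (fun x => noWit (V false) (p false) S (2 ^ n) x &&
    noWit (V true) (p true) S (2 ^ n) x), fun S n j => ?_, ?_⟩
  · simp only [List.any_eq_true, Bool.and_eq_true, mem_strs]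
    constructor
    · rintro ⟨x, hx, h1, h2⟩
      refine ⟨x, hx, fun i => ?_⟩
      cases i
      · exact (noWit_iff hx).1 h1
      · exact (noWit_iff hx).1 h2
    · rintro ⟨x, hx, h1⟩
      exact ⟨x, hx, (noWit_iff hx).2 (h1 false), (noWit_iff hx).2 (h1 true)⟩
  · intro α _ S n j N hS hn hj hN h
    have hp1 : ∀ a, 2 ^ (2 ^ (n a)) ≤ N a := fun a =>
      (Nat.pow_le_pow_right (by norm_num) (hb _)).trans (h a)
    have hn' : UPoly (fun a => 2 ^ (n a)) :=
      u_pow hn hN fun a => (Nat.pow_le_pow_right (by norm_num) Nat.lt_two_pow_self.le).trans (hp1 a)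
    have hp2 : ∀ i a, 2 ^ ((p i).eval (2 ^ (n a))) ≤ N a := fun i a =>
      (Nat.pow_le_pow_right (by norm_num) (hp i _)).trans (h a)
    have h1 : Poly (fun q : α × List Bool => q.1) := Poly.fst Poly.id
    have h2 : Poly (fun q : α × List Bool => q.2) := Poly.snd Poly.id
    refine Poly.any (p := fun a x => noWit (V false) (p false) (S a) (2 ^ (n a)) x &&
      noWit (V true) (p true) (S a) (2 ^ (n a)) x) (p_strs hn' hN hp1) ?_
    exact Poly.and
      (p_noWit (V false) (p false) (hS.comp h1) h2 (hn'.comp h1) (hN.comp h1) fun q => hp2 _ q.1)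
      (p_noWit (V true) (p true) (hS.comp h1) h2 (hn'.comp h1) (hN.comp h1) fun q => hp2 _ q.1)

/-! ### the bad events -/

/-- a hit in half `i`, as a boolean -/
def hitNB (S : List (List Bool)) (n j : ℕ) (i : Bool) : Bool :=
  (strsEq n).any (fun w => hitB S (n + j.size) i.toNat w)

theorem hitNB_iff {S : List (List Bool)} {n j : ℕ} {i : Bool} :
    hitNB S n j i = true ↔ ofL S ∈ HitN i n j := by
  unfold hitNB
  rw [hitN_iff]
  simp only [List.any_eq_true, hitB_iff, mem_strsEq]
  constructor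
  · rintro ⟨w, hw, h⟩
    exact ⟨(i.toNat, w), mem_halfN.2 ⟨rfl, hw⟩, h⟩
  · rintro ⟨⟨c, w⟩, hκ, h⟩
    rw [mem_halfN] at hκ
    obtain ⟨rfl, hw⟩ := hκ
    exact ⟨w, hw, h⟩

theorem p_hitNB {α : Type} [TEnc α] {S : α → List (List Bool)} {n j N : α → ℕ} (i : Bool)
    (hS : Poly S) (hn : UPoly n) (hj : UPoly j) (hN : UPoly N) (h : ∀ a, 2 ^ (n a) ≤ N a) :
    Poly (fun a => hitNB (S a) (n a) (j a) i) := by
  refine Poly.any (p := fun a w => hitB (S a) (n a + (j a).size) i.toNat w) (p_strsEq hn hN h) ?_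
  have h1 : Poly (fun p : α × List Bool => p.1) := Poly.fst Poly.id
  have h2 : Poly (fun p : α × List Bool => p.2) := Poly.snd Poly.id
  exact p_hitB (hS.comp h1) ((hn.add (u_size hj)).comp h1) (UPoly.const _) h2

theorem pBad_N (b : Polynomial ℕ) (hb : ∀ m, m ≤ b.eval m) :
    ∃ f : List (List Bool) → ℕ → ℕ → Bool, (∀ S n j, f S n j = true ↔ ofL S ∈ BadN n j) ∧
    ∀ {α : Type} [TEnc α] {S : α → List (List Bool)} {n j N : α → ℕ}, Poly S → UPoly n →
      UPoly j → UPoly N → (∀ a, 2 ^ (b.eval (2 ^ (n a))) ≤ N a) →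
      Poly (fun a => f (S a) (n a) (j a)) := by
  refine ⟨fun S n j => hitNB S n j false && hitNB S n j true, fun S n j => ?_, ?_⟩
  · rw [Bool.and_eq_true, hitNB_iff, hitNB_iff]
    rfl
  · intro α _ S n j N hS hn hj hN h
    have hp1 : ∀ a, 2 ^ (n a) ≤ N a := fun a =>
      (Nat.pow_le_pow_right (by norm_num) (Nat.lt_two_pow_self.le.trans (hb _))).trans (h a)
    exact Poly.and (p_hitNB false hS hn hj hN hp1) (p_hitNB true hS hn hj hN hp1)

/-- no hit in half `i`, second kind, as a boolean -/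
def noHitCB (S : List (List Bool)) (n j : ℕ) (i : Bool) : Bool :=
  (List.range (lvC j)).all (fun c => (strsEq n).all
    (fun w => !(hitB S n (i.toNat * lvC j + min c (lvC j)) w)))

theorem noHitCB_iff {S : List (List Bool)} {n j : ℕ} {i : Bool} :
    noHitCB S n j i = true ↔ ofL S ∉ HitC i n j := by
  unfold noHitCB
  rw [hitC_iff]
  simp only [List.all_eq_true, Bool.not_eq_true', mem_strsEq, List.mem_range]
  constructor
  · rintro h ⟨⟨c, w⟩, hκ, hh⟩
    rw [mem_halfC] at hκ
    obtain ⟨⟨h1, h2⟩, h3⟩ := hκ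
    simp only at h1 h2 h3
    have h4 : c - i.toNat * lvC j < lvC j := by
      rw [add_mul, one_mul] at h2
      omega
    have h5 := h _ h4 w h3
    rw [min_eq_left h4.le, Nat.add_sub_cancel' h1, hitB_iff.2 hh] at h5
    simp at h5
  · intro h c hc w hw
    rw [min_eq_left hc.le]
    by_contra h1
    rw [Bool.not_eq_false, hitB_iff] at h1
    refine h ⟨(i.toNat * lvC j + c, w), mem_halfC.2 ⟨⟨Nat.le_add_right _ _, ?_⟩, hw⟩, h1⟩
    rw [add_mul, one_mul]
    simp only
    omega

theorem u_lvC {α : Type} [TEnc α] {j : α → ℕ} (hj : UPoly j) : UPoly (fun a => lvC (j a)) := by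
  refine UPoly.of_le (Poly.div ((u_size hj).add (UPoly.const 1)).toPoly
    (NPC.Poly.const 2)) ((u_size hj).add (UPoly.const 1)) fun a => ?_
  exact Nat.div_le_self _ _

theorem p_noHitCB {α : Type} [TEnc α] {S : α → List (List Bool)} {n j N : α → ℕ} (i : Bool)
    (hS : Poly S) (hn : UPoly n) (hj : UPoly j) (hN : UPoly N) (h : ∀ a, 2 ^ (n a) ≤ N a) :
    Poly (fun a => noHitCB (S a) (n a) (j a) i) := by
  have hl := u_lvC hj
  refine Poly.all (p := fun a c => (strsEq (n a)).all
    (fun w => !(hitB (S a) (n a) (i.toNat * lvC (j a) + min c (lvC (j a))) w))) hl.range ?_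
  have h1 : Poly (fun p : α × ℕ => p.1) := Poly.fst Poly.id
  refine Poly.all (p := fun (q : α × ℕ) w => !(hitB (S q.1) (n q.1)
    (i.toNat * lvC (j q.1) + min q.2 (lvC (j q.1))) w))
    (p_strsEq (l := fun q : α × ℕ => n q.1) (hn.comp h1) (hN.comp h1) fun q => h q.1) ?_
  have k1 : Poly (fun q : (α × ℕ) × List Bool => q.1.1) := Poly.fst (Poly.fst Poly.id)
  have k2 : Poly (fun q : (α × ℕ) × List Bool => q.1.2) := Poly.snd (Poly.fst Poly.id)
  have k3 : Poly (fun q : (α × ℕ) × List Bool => q.2) := Poly.snd Poly.id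
  refine Poly.not (p_hitB (hS.comp k1) (hn.comp k1) ?_ k3)
  exact ((UPoly.const i.toNat).mul (hl.comp k1)).add
    (UPoly.of_le (Poly.min k2 ((hl.comp k1).toPoly)) (hl.comp k1) fun p => min_le_right _ _)

theorem pBad_C (b : Polynomial ℕ) (hb : ∀ m, m ≤ b.eval m) :
    ∃ f : List (List Bool) → ℕ → ℕ → Bool, (∀ S n j, f S n j = true ↔ ofL S ∈ BadC n j) ∧
    ∀ {α : Type} [TEnc α] {S : α → List (List Bool)} {n j N : α → ℕ}, Poly S → UPoly n →
      UPoly j → UPoly N → (∀ a, 2 ^ (b.eval (2 ^ (n a))) ≤ N a) →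
      Poly (fun a => f (S a) (n a) (j a)) := by
  refine ⟨fun S n j => noHitCB S n j false && noHitCB S n j true, fun S n j => ?_, ?_⟩
  · rw [Bool.and_eq_true, noHitCB_iff, noHitCB_iff]
    rfl
  · intro α _ S n j N hS hn hj hN h
    have hp1 : ∀ a, 2 ^ (n a) ≤ N a := fun a =>
      (Nat.pow_le_pow_right (by norm_num) (Nat.lt_two_pow_self.le.trans (hb _))).trans (h a)
    exact Poly.and (p_noHitCB false hS hn hj hN hp1) (p_noHitCB true hS hn hj hN hp1)

/-! ### the checks -/

theorem check_U (V : Alg) (p : Polynomial ℕ) : ∃ b, Check BadN (fun n _ => ErrU V p n) b := by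
  obtain ⟨b0, hb0⟩ := loc_ErrU V p
  refine ⟨b0 + p + Polynomial.C 3 * Polynomial.X + Polynomial.C 3, ?_⟩
  have hE : ∀ m, (b0 + p + Polynomial.C 3 * Polynomial.X + Polynomial.C 3).eval m =
      b0.eval m + p.eval m + 3 * m + 3 := by
    intro m
    simp only [Polynomial.eval_add, Polynomial.eval_mul, Polynomial.eval_C, Polynomial.eval_X]
  have hle : ∀ m, m ≤ (b0 + p + Polynomial.C 3 * Polynomial.X + Polynomial.C 3).eval m := by
    intro m
    rw [hE]
    omega
  have hle' : ∀ m, p.eval m ≤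
      (b0 + p + Polynomial.C 3 * Polynomial.X + Polynomial.C 3).eval m := by
    intro m
    rw [hE]
    omega
  refine ⟨hle, fun n j => (hb0 n).monoE fun x hx => ?_, fun n j hj => (loc_BadN n j).monoE
    fun x hx => ?_, pErr_U V p _ hle hle', pBad_N _ hle⟩
  · simp only [Set.mem_ofPred_eq] at hx ⊢
    rw [hE]
    omega
  · have h1 := length_le_spotsN hj x hx
    have h2 : n ≤ 2 ^ n := Nat.lt_two_pow_self.le
    simp only [Set.mem_ofPred_eq]
    rw [hE]
    omega

theorem check_C (V : Bool → Alg) (p : Bool → Polynomial ℕ) :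
    ∃ b, Check BadC (fun n _ => ErrC V p n) b := by
  obtain ⟨b0, hb0⟩ := loc_ErrC V p
  refine ⟨b0 + p false + p true + Polynomial.C 3 * Polynomial.X + Polynomial.C 3, ?_⟩
  have hE : ∀ m, (b0 + p false + p true + Polynomial.C 3 * Polynomial.X +
      Polynomial.C 3).eval m =
      b0.eval m + (p false).eval m + (p true).eval m + 3 * m + 3 := by
    intro m
    simp only [Polynomial.eval_add, Polynomial.eval_mul, Polynomial.eval_C, Polynomial.eval_X]
  have hle : ∀ m, m ≤ (b0 + p false + p true + Polynomial.C 3 * Polynomial.X +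
      Polynomial.C 3).eval m := by
    intro m
    rw [hE]
    omega
  have hle' : ∀ i m, (p i).eval m ≤
      (b0 + p false + p true + Polynomial.C 3 * Polynomial.X + Polynomial.C 3).eval m := by
    intro i m
    rw [hE]
    cases i <;> omega
  refine ⟨hle, fun n j => (hb0 n).monoE fun x hx => ?_, fun n j hj => (loc_BadC n j).monoE
    fun x hx => ?_, pErr_C V p _ hle hle', pBad_C _ hle⟩
  · simp only [Set.mem_ofPred_eq] at hx ⊢
    rw [hE]
    omega
  · have h1 := length_le_spotsC hj x hx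
    have h2 : n ≤ 2 ^ n := Nat.lt_two_pow_self.le
    simp only [Set.mem_ofPred_eq]
    rw [hE]
    omega

end Pool.Agent.W2helper58.RU
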