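import Pool.Agent.W2helper58.RU.Final
import Pool.Agent.W2helper68.RU.Stage

/-!
# The theorems on random oracles
-/

set_option autoImplicit false

namespace Pool.Agent.W2helper58.RU

open MeasureTheory Filter Topology Pool.Agent.NPC Pool.Agent.H628R3.RO

theorem stageHyp : StageHyp := by
  intro Bad Err b hc t L
  exact exists_stage hc t L

end Pool.Agent.W2helper58.RU
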