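import Pool.Agent.W2helper58.RU.FailU

/-!
# Disjoint pairs of `coNP` sets: a reduction fails at a block
-/

set_option autoImplicit false

namespace Pool.Agent.W2helper58.RU

open MeasureTheory Filter Topology Pool.Agent.NPC Pool.Agent.H628R3.RO
open Pool.Agent.H628R3.RO.M2 (prob_mono prob_union_le prob_nonneg hit_plant
  measurableSet_noHit prob_inter_add_compl)

theorem mem_halfC {i : Bool} {n s : ℕ} {κ : Cand} :
    κ ∈ halfC i n s ↔ (i.toNat * lvC s ≤ κ.1 ∧ κ.1 < (i.toNat + 1) * lvC s) ∧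
      κ.2.length = n := by
  unfold halfC
  rw [mem_cands, Finset.mem_Ico]

theorem card_halfC (i : Bool) (n s : ℕ) : (halfC i n s).card = lvC s * 2 ^ n := by
  unfold halfC
  rw [card_cands, Nat.card_Ico]
  congr 1
  rw [add_mul, one_mul]
  omega

theorem disjoint_halfC (i : Bool) (n s : ℕ) : Disjoint (halfC i n s) (halfC (!i) n s) := by
  rw [Finset.disjoint_left]
  intro κ h1 h2
  rw [mem_halfC] at h1 h2
  cases i <;> simp at h1 h2 <;> omega

theorem lvC_le (s : ℕ) : 2 * lvC s ≤ s.size + 1 := by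
  unfold lvC
  omega

theorem le_lvC (s : ℕ) : s.size ≤ 2 * lvC s := by
  unfold lvC
  omega

theorem mem_spotsC {n s : ℕ} {x : List Bool} (hx : x ∈ spotsC n s) :
    ∃ c < 2 * lvC s, ∃ i < n, ∃ w : List Bool, w.length = n ∧ x = pos c i w := by
  unfold spotsC at hx
  rw [mem_allSpots] at hx
  obtain ⟨κ, hκ, i, hi, rfl⟩ := hx
  rw [Finset.mem_union, mem_halfC, mem_halfC] at hκ
  rcases hκ with ⟨h1, h2⟩ | ⟨h1, h2⟩
  · refine ⟨κ.1, ?_, i, hi, κ.2, h2, rfl⟩
    simp at h1
    omega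
  · refine ⟨κ.1, ?_, i, hi, κ.2, h2, rfl⟩
    simp at h1
    omega

theorem lt_length_spotsC {n s : ℕ} : ∀ x ∈ spotsC n s, n < x.length := by
  intro x hx
  obtain ⟨c, _, i, _, w, hw, rfl⟩ := mem_spotsC hx
  rw [length_pos]
  omega

theorem length_le_spotsC {n s : ℕ} (hs : s ≤ n) : ∀ x ∈ spotsC n s, x.length ≤ 3 * n + 3 := by
  intro x hx
  obtain ⟨c, hc, i, hi, w, hw, rfl⟩ := mem_spotsC hx
  rw [length_pos]
  have h1 := lvN_le s
  have h2 := lvC_le s
  unfold lvN at h1
  omega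

theorem disjoint_spotsC (n n' s s' : ℕ) (h : n ≠ n') : Disjoint (spotsC n s) (spotsC n' s') := by
  rw [Finset.disjoint_left]
  intro x hx hx'
  obtain ⟨c, _, i, _, w, hw, rfl⟩ := mem_spotsC hx
  obtain ⟨c', _, i', _, w', hw', h2⟩ := mem_spotsC hx'
  obtain ⟨-, -, h3⟩ := pos_inj h2
  apply h
  rw [← hw, ← hw', h3]

theorem loc_HitC' (i : Bool) (n s : ℕ) :
    Loc (allSpots n (halfC i n s) : Set (List Bool)) (HitC i n s) := by
  unfold HitC
  apply M2.Loc.compl
  apply M2.loc_noHit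
  intro κ hκ j hj
  exact Finset.mem_coe.2 (mem_allSpots.2 ⟨κ, hκ, j, hj, rfl⟩)

theorem loc_HitC (i : Bool) (n s : ℕ) : Loc (spotsC n s : Set (List Bool)) (HitC i n s) := by
  refine M2.Loc.mono (loc_HitC' i n s) ?_
  intro x hx
  rw [Finset.mem_coe, mem_allSpots] at hx
  obtain ⟨κ, hκ, j, hj, rfl⟩ := hx
  unfold spotsC
  rw [Finset.mem_coe, mem_allSpots]
  refine ⟨κ, ?_, j, hj, rfl⟩
  cases i
  · exact Finset.mem_union_left _ hκ
  · exact Finset.mem_union_right _ hκ

theorem loc_BadC (n s : ℕ) : Loc (spotsC n s : Set (List Bool)) (BadC n s) :=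
  M2.Loc.inter (M2.Loc.compl (loc_HitC false n s)) (M2.Loc.compl (loc_HitC true n s))

/-- the probability that one half has no hit -/
noncomputable def rho (n s : ℕ) : ℝ := (1 - (1 / 2 : ℝ) ^ n) ^ (lvC s * 2 ^ n)

theorem prob_compl_HitC (i : Bool) (n s : ℕ) : prob (HitC i n s)ᶜ = rho n s := by
  unfold HitC rho
  rw [compl_compl, prob_noHit, card_halfC]

theorem prob_BadC (n s : ℕ) : prob (BadC n s) = rho n s * rho n s := by
  have h := prob_inter_of_disjoint (Finset.finite_toSet _) (Finset.finite_toSet _) (?_ : Disjoint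
    (allSpots n (halfC false n s) : Set (List Bool)) (allSpots n (halfC true n s)))
    (M2.Loc.compl (loc_HitC' false n s)) (M2.Loc.compl (loc_HitC' true n s))
  · unfold BadC
    rw [h, prob_compl_HitC, prob_compl_HitC]
  · rw [Finset.disjoint_coe, Finset.disjoint_left]
    intro x h1 h2
    rw [mem_allSpots] at h1 h2
    obtain ⟨κ, hκ, i, hi, rfl⟩ := h1
    obtain ⟨κ', hκ', i', hi', h3⟩ := h2
    obtain ⟨h4, -, h5⟩ := pos_inj h3
    refine Finset.disjoint_left.1 (disjoint_halfC false n s) hκ ?_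
    rw [mem_halfC] at hκ' ⊢
    rw [h4, h5]
    exact hκ'

theorem rho_le_exp (n s : ℕ) : rho n s ≤ Real.exp (-(lvC s : ℝ)) := by
  unfold rho
  refine (sub_pow_le_exp _ (half_pow_le_one n) _).trans ?_
  apply Real.exp_le_exp.2
  have := half_pow_mul n
  push_cast at this ⊢
  have h2 : (1 / 2 : ℝ) ^ n * ((lvC s : ℝ) * 2 ^ n) = lvC s * ((1 / 2 : ℝ) ^ n * 2 ^ n) := by ring
  rw [h2, this, mul_one]

theorem rho_ge {n : ℕ} (hn : 1 ≤ n) (s : ℕ) : (1 / 2 : ℝ) ^ (s.size + 1) ≤ rho n s := by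
  refine le_trans ?_ (sat_ge hn (lvC s))
  have h1 : (1 / 4 : ℝ) ^ lvC s = (1 / 2) ^ (2 * lvC s) := by
    rw [pow_mul]
    norm_num
  rw [h1]
  exact pow_le_pow_of_le_one (by norm_num) (by norm_num) (lvC_le s)

theorem rho_le_half {n s : ℕ} (hs : 4 ≤ s) : rho n s ≤ 1 / 2 := by
  refine (sat_le n (lvC s)).trans ?_
  have h1 := four_le_size hs
  have h2 := le_lvC s
  calc (1 / 2 : ℝ) ^ lvC s ≤ (1 / 2) ^ 1 :=
        pow_le_pow_of_le_one (by norm_num) (by norm_num) (by omega)
    _ = 1 / 2 := by norm_num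

theorem rho_pos {n : ℕ} (hn : 1 ≤ n) (s : ℕ) : 0 < rho n s :=
  lt_of_lt_of_le (by positivity) (rho_ge hn s)

theorem prob_BadC_le (n s : ℕ) : prob (BadC n s) ≤ Real.exp (-1) ^ s.size := by
  have h1 := rho_le_exp n s
  have h0 : 0 ≤ rho n s := by
    unfold rho
    exact pow_nonneg (by linarith [half_pow_le_one n]) _
  rw [prob_BadC, ← Real.exp_nat_mul]
  calc rho n s * rho n s ≤ Real.exp (-(lvC s : ℝ)) * Real.exp (-(lvC s : ℝ)) :=
        mul_le_mul h1 h1 h0 (Real.exp_nonneg _)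
    _ = Real.exp (-(2 * lvC s : ℝ)) := by rw [← Real.exp_add]; congr 1; ring
    _ ≤ Real.exp (s.size * -1) := by
        apply Real.exp_le_exp.2
        have : ((s.size : ℕ) : ℝ) ≤ 2 * lvC s := by exact_mod_cast le_lvC s
        linarith

theorem summable_exp_size : Summable fun s : ℕ => Real.exp (-1) ^ s.size := by
  have hlog : 1 < 1 / Real.log 2 := by
    rw [lt_div_iff₀ (Real.log_pos (by norm_num))]
    have := Real.log_two_lt_d9
    linarith
  have h1 : Summable fun s : ℕ => ((s + 1 : ℕ) : ℝ) ^ (-(1 / Real.log 2)) :=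
    (summable_nat_add_iff 1).2 (Real.summable_nat_rpow.2 (by linarith))
  refine Summable.of_nonneg_of_le (fun s => by positivity) (fun s => ?_) h1
  have h2 : ((s + 1 : ℕ) : ℝ) ≤ 2 ^ s.size := by exact_mod_cast size_lower s
  have h3 : Real.exp (-1) ^ s.size = ((2 : ℝ) ^ s.size) ^ (-(1 / Real.log 2)) := by
    rw [← Real.exp_nat_mul, Real.rpow_def_of_pos (by positivity), Real.log_pow]
    congr 1
    have := (Real.log_pos (by norm_num : (1 : ℝ) < 2)).ne'
    field_simp
  rw [h3]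
  exact Real.rpow_le_rpow_of_nonpos (by positivity) h2 (by
    have : 0 ≤ 1 / Real.log 2 := by linarith
    linarith)

/-! ### locality -/

theorem loc_ErrC (V : Bool → Alg) (p : Bool → Polynomial ℕ) : ∃ b : Polynomial ℕ, ∀ n,
    Loc {x | x.length ≤ b.eval (2 ^ n)} (ErrC V p n) := by
  obtain ⟨q0, hq0⟩ := wit_congr (V false) (p false)
  obtain ⟨q1, hq1⟩ := wit_congr (V true) (p true)
  refine ⟨q0 + q1, fun n => loc_of_imp fun A A' h => ?_⟩
  have h' : ∀ z : List Bool, z.length ≤ q0.eval (2 ^ n) + q1.eval (2 ^ n) → A z = A' z := by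
    intro z hz
    apply h z
    show z.length ≤ _
    rw [Polynomial.eval_add]
    exact hz
  rintro ⟨x, hx, h1⟩
  refine ⟨x, hx, fun i hw => h1 i ?_⟩
  obtain ⟨y, hy, h2⟩ := hw
  refine ⟨y, hy, ?_⟩
  cases i
  · rw [hq0 (2 ^ n) x hx A A' (fun z hz => h' z (by omega)) y hy, h2]
  · rw [hq1 (2 ^ n) x hx A A' (fun z hz => h' z (by omega)) y hy, h2]

/-- locality of the value of the reduction and of its witnesses -/
theorem loc_red (V : Alg) (p : Polynomial ℕ) (r : Alg) : ∃ q : Polynomial ℕ, ∀ n, ∀ A A' : Oracle,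
    (∀ x : List Bool, x.length ≤ q.eval n → A x = A' x) →
      r.out A (List.replicate n true) = r.out A' (List.replicate n true) ∧
      ∀ x, r.out A (List.replicate n true) = some x → (Wit V p x A ↔ Wit V p x A') := by
  obtain ⟨qr, hqr⟩ := r.out_congr
  obtain ⟨br, hbr⟩ := r.out_length
  obtain ⟨qV, hqV⟩ := wit_congr V p
  refine ⟨qr + qV.comp br, fun n A A' h => ?_⟩
  have hA : ∀ x : List Bool, x.length ≤ qr.eval n + qV.eval (br.eval n) → A x = A' x := by
    intro x hx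
    apply h x
    rw [Polynomial.eval_add, Polynomial.eval_comp]
    exact hx
  have hlen : (List.replicate n true).length = n := by simp
  have e1 : r.out A (List.replicate n true) = r.out A' (List.replicate n true) :=
    hqr A A' _ n hlen.le fun z hz => hA z (by omega)
  refine ⟨e1, fun x hx => ?_⟩
  have hxl : x.length ≤ br.eval n := by
    have h3 := hbr A _ x hx
    rwa [hlen] at h3
  have e2 := hqV (br.eval n) x hxl A A' fun z hz => hA z (by omega)
  constructor
  · rintro ⟨y, hy, h2⟩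
    exact ⟨y, hy, by rw [← e2 y hy, h2]⟩
  · rintro ⟨y, hy, h2⟩
    exact ⟨y, hy, by rw [e2 y hy, h2]⟩

/-- half `i` has no hit, and the reduction gives nothing without a witness for `V i` -/
def Zc (V : Bool → Alg) (p : Bool → Polynomial ℕ) (r : Alg) (n s : ℕ) (i : Bool) : Set Oracle :=
  {A | A ∉ HitC i n s ∧ ∀ x, r.out A (List.replicate n true) = some x → Wit (V i) (p i) x A}

theorem loc_GoodC (V : Bool → Alg) (p : Bool → Polynomial ℕ) (r : Alg) :
    ∃ q : Polynomial ℕ, ∀ n s, s ≤ n →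
    Loc {x | x.length ≤ q.eval n} (GoodC V p r n s) ∧
      ∀ i, Loc {x | x.length ≤ q.eval n} (Zc V p r n s i) := by
  obtain ⟨q0, hq0⟩ := loc_red (V false) (p false) r
  obtain ⟨q1, hq1⟩ := loc_red (V true) (p true) r
  refine ⟨q0 + q1 + (Polynomial.C 3 * Polynomial.X + Polynomial.C 3), fun n s hs => ?_⟩
  have hE : (q0 + q1 + (Polynomial.C 3 * Polynomial.X + Polynomial.C 3)).eval n =
      q0.eval n + q1.eval n + (3 * n + 3) := by
    simp only [Polynomial.eval_add, Polynomial.eval_mul, Polynomial.eval_C,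
      Polynomial.eval_X]
  have key : ∀ A A' : Oracle, (∀ x ∈ {x : List Bool | x.length ≤ (q0 + q1 +
      (Polynomial.C 3 * Polynomial.X + Polynomial.C 3)).eval n}, A x = A' x) →
      (∀ i, A ∈ HitC i n s ↔ A' ∈ HitC i n s) ∧
      r.out A (List.replicate n true) = r.out A' (List.replicate n true) ∧
      ∀ i x, r.out A (List.replicate n true) = some x →
        (Wit (V i) (p i) x A ↔ Wit (V i) (p i) x A') := by
    intro A A' h
    have hA : ∀ x : List Bool, x.length ≤ q0.eval n + q1.eval n + (3 * n + 3) → A x = A' x := by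
      intro x hx
      apply h x
      show x.length ≤ _
      rw [hE]
      exact hx
    obtain ⟨h1, h2⟩ := hq0 n A A' fun x hx => hA x (by omega)
    obtain ⟨-, h3⟩ := hq1 n A A' fun x hx => hA x (by omega)
    refine ⟨fun i => loc_HitC i n s A A' fun x hx => hA x ?_, h1, fun i x hx => ?_⟩
    · have := length_le_spotsC hs x hx
      omega
    · cases i
      · exact h2 x hx
      · exact h3 x hx
  refine ⟨loc_of_imp fun A A' h => ?_, fun i => loc_of_imp fun A A' h => ?_⟩
  · obtain ⟨k1, k2, k3⟩ := key A A' h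
    rintro ⟨x, hx, h1⟩
    exact ⟨x, by rw [← k2, hx], fun i hi => by
      rw [← k3 i x hx]
      exact h1 i (by rwa [k1 i])⟩
  · obtain ⟨k1, k2, k3⟩ := key A A' h
    rintro ⟨h1, h2⟩
    refine ⟨by rwa [← k1 i], fun x hx => ?_⟩
    rw [← k2] at hx
    exact (k3 i x hx).1 (h2 x hx)

theorem hitC_iff {i : Bool} {n s : ℕ} {A : Oracle} :
    A ∈ HitC i n s ↔ ∃ κ ∈ halfC i n s, Hit n κ A := by
  unfold HitC
  rw [Set.mem_compl_iff]
  simp only [NoHit, Set.mem_ofPred_eq]
  push Not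
  rfl

open Classical in
/-- the combinatorial heart for pairs of `coNP` sets -/
theorem hkeyC (V : Bool → Alg) (p : Bool → Polynomial ℕ) (r : Alg) : ∃ P : Polynomial ℕ,
    ∀ n s, ∀ i, ∀ B ∈ NoHit n (halfC (!i) n s), B ∈ Zc V p r n s i →
      ∃ T : Finset Cand, T.card ≤ P.eval n ∧
        ∀ h ⊆ halfC (!i) n s, h.Nonempty → Disjoint h T →
          plant (allSpots n h) B ∈ (GoodC V p r n s)ᶜ := by
  obtain ⟨br, hbr⟩ := r.out_length
  obtain ⟨P1, hP1⟩ : ∃ P : Bool → Polynomial ℕ, ∀ i, P i = (V i).p.comp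
    (Polynomial.C 2 * br + Polynomial.C 1 + (p i).comp br) := ⟨_, fun i => rfl⟩
  refine ⟨r.p + P1 false + P1 true, fun n s i B hB hBZ => ?_⟩
  obtain ⟨hZ1, hZ2⟩ := hBZ
  have hlen : (List.replicate n true).length = n := by simp
  obtain ⟨Qr, hQr1, hQr2⟩ := exists_cert r B (List.replicate n true)
  rw [hlen] at hQr1
  -- no hits in half `i` after planting
  have hno : ∀ h ⊆ halfC (!i) n s, plant (allSpots n h) B ∉ HitC i n s := by
    intro h hh h1
    rw [hitC_iff] at h1
    obtain ⟨κ, hκ, h2⟩ := h1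
    apply hZ1
    rw [hitC_iff]
    refine ⟨κ, hκ, ?_⟩
    rwa [hit_plant] at h2
    intro h3
    exact Finset.disjoint_left.1 (disjoint_halfC i n s) hκ (hh h3)
  obtain ⟨Q, hQc, hQ⟩ : ∃ Q : Finset (List Bool), Q.card ≤ (P1 i).eval n ∧
      ∀ x, r.out B (List.replicate n true) = some x → ∀ A' : Oracle, (∀ q ∈ Q, A' q = B q) →
        Wit (V i) (p i) x A' := by
    rcases hrx : r.out B (List.replicate n true) with _ | x
    · exact ⟨∅, by simp, fun x hx => by simp at hx⟩
    · have hxl : x.length ≤ br.eval n := by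
        have h3 := hbr B _ x hrx
        rwa [hlen] at h3
      obtain ⟨y, hy, h1⟩ := hZ2 x hrx
      obtain ⟨Q, h2, h3⟩ := exists_cert (V i) B (pairBits x y)
      refine ⟨Q, h2.trans ?_, fun x' hx' A' hA' => ?_⟩
      · rw [hP1, Polynomial.eval_comp]
        apply eval_mono
        rw [length_pairBits]
        have := eval_mono (p i) hxl
        simp only [Polynomial.eval_add, Polynomial.eval_mul, Polynomial.eval_C,
          Polynomial.eval_comp]
        omega
      · obtain rfl : x = x' := by simpa using hx'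
        exact ⟨y, hy, by rw [h3 A' hA', h1]⟩
  refine ⟨touched n (halfC (!i) n s) (Qr ∪ Q), ?_, fun h hh _ hd => ?_⟩
  · refine (card_touched_le _ _ _).trans ((Finset.card_union_le _ _).trans ?_)
    simp only [Polynomial.eval_add]
    cases i <;> omega
  · have hag : ∀ q ∈ Qr ∪ Q, plant (allSpots n h) B q = B q := fun q hq =>
      plant_eq hh hd B hq
    have e1 : r.out (plant (allSpots n h) B) (List.replicate n true) =
        r.out B (List.replicate n true) :=
      hQr2 _ fun q hq => hag q (Finset.mem_union_left _ hq)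
    rintro ⟨x, hx, h2⟩
    rw [e1] at hx
    exact h2 i (hno h hh) (hQ x hx _ fun q hq => hag q (Finset.mem_union_right _ hq))

/-- **Failure at a block, pairs of `coNP` sets.** -/
theorem fail_C (V : Bool → Alg) (p : Bool → Polynomial ℕ) (r : Alg) {η : ℝ} (hη : 0 < η) :
    ∃ n₀ : ℕ, ∀ n ≥ n₀, ∀ s, 4 ≤ s → s ≤ n → ∀ τ : Set Oracle, Loc {x | x.length ≤ n} τ →
      1 / 8 * (1 / 2 : ℝ) ^ s.size *
        (prob τ - 2 * (prob (ErrC V p n ∩ τ ∩ BadC n s) / prob (BadC n s)) - η) ≤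
        prob (τ ∩ (GoodC V p r n s)ᶜ) := by
  obtain ⟨P, hkey⟩ := hkeyC V p r
  obtain ⟨br, hbr⟩ := r.out_length
  obtain ⟨n₁, hn₁⟩ := eventually_atTop.1 (H529R3.Lev.poly_le_two_pow br)
  obtain ⟨n₂, hn₂⟩ := poly_small (Polynomial.C 16 * Polynomial.X * P) hη
  obtain ⟨bG, hbG⟩ := loc_GoodC V p r
  refine ⟨max n₁ n₂, fun n hn s hs4 hsn τ hτ => ?_⟩
  have hn1 : n₁ ≤ n := le_trans (le_max_left _ _) hn
  have hn2 : n₂ ≤ n := le_trans (le_max_right _ _) hn
  have hnpos : 1 ≤ n := by omega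
  set M := bG.eval n + (3 * n + 3) with hM
  set ρ := rho n s with hρ
  have hρ0 : 0 < ρ := rho_pos hnpos s
  have hρ2 : ρ ≤ 1 / 2 := rho_le_half hs4
  have hspots : ∀ i, ∀ κ ∈ halfC i n s, ∀ j < n, n < (pos κ.1 j κ.2).length ∧
      (pos κ.1 j κ.2).length ≤ 3 * n + 3 := by
    intro i κ hκ j hj
    have : pos κ.1 j κ.2 ∈ spotsC n s := by
      unfold spotsC
      rw [mem_allSpots]
      refine ⟨κ, ?_, j, hj, rfl⟩
      cases i
      · exact Finset.mem_union_left _ hκ
      · exact Finset.mem_union_right _ hκ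
    exact ⟨lt_length_spotsC _ this, length_le_spotsC hsn _ this⟩
  have hτ' : ∀ i, ∀ (B : Oracle) (h : Finset Cand), h ⊆ halfC i n s →
      (plant (allSpots n h) B ∈ τ ↔ B ∈ τ) := by
    intro i B h hh
    apply hτ
    intro x hx
    unfold plant
    rw [if_neg]
    intro h1
    rw [mem_allSpots] at h1
    obtain ⟨κ, hκ, j, hj, rfl⟩ := h1
    have := (hspots i κ (hh hκ) j hj).1
    simp only [Set.mem_ofPred_eq] at hx
    omega
  -- the key inequality for both halves
  have key : ∀ i, prob (Zc V p r n s i ∩ τ ∩ NoHit n (halfC (!i) n s)) * (1 - ρ) ≤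
      (prob (τ ∩ (GoodC V p r n s)ᶜ) + ((P.eval n : ℕ) : ℝ) * (1 / 2) ^ n) * ρ := by
    intro i
    have h1 := key_taut (K := {x : List Bool | x.length ≤ M}) (finite_length_le M)
      (Z := Zc V p r n s i) (E := (GoodC V p r n s)ᶜ) (τ := τ)
      (M2.Loc.mono ((hbG n s hsn).2 i) fun x hx => by
        simp only [Set.mem_ofPred_eq] at hx ⊢
        omega)
      (M2.Loc.compl (M2.Loc.mono (hbG n s hsn).1 fun x hx => by
        simp only [Set.mem_ofPred_eq] at hx ⊢
        omega))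
      (M2.Loc.mono hτ fun x hx => by
        simp only [Set.mem_ofPred_eq] at hx ⊢
        omega)
      (halfC (!i) n s) (m := n) hnpos (P.eval n)
      (fun κ hκ j hj => by
        simp only [Set.mem_ofPred_eq]
        have := (hspots (!i) κ hκ j hj).2
        omega) (hτ' (!i)) (hkey n s i)
    rw [card_halfC] at h1
    change _ * (1 - ρ) ≤ _ * ρ at h1
    refine h1.trans (mul_le_mul_of_nonneg_right ?_ hρ0.le)
    have e1 : prob ((GoodC V p r n s)ᶜ ∩ τ ∩ (NoHit n (halfC (!i) n s))ᶜ) ≤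
        prob (τ ∩ (GoodC V p r n s)ᶜ) := prob_mono fun A hA => ⟨hA.1.2, hA.1.1⟩
    have e2 : ((P.eval n : ℕ) : ℝ) * (1 / 2) ^ n * prob τ ≤ ((P.eval n : ℕ) : ℝ) * (1 / 2) ^ n := by
      have : prob τ ≤ 1 := by
        unfold prob
        exact measureReal_le_one
      exact mul_le_of_le_one_right (by positivity) this
    linarith
  -- the cover of the bad event
  have hcover : τ ∩ BadC n s ⊆ (ErrC V p n ∩ τ ∩ BadC n s) ∪
      ((Zc V p r n s false ∩ τ ∩ NoHit n (halfC (!false) n s)) ∪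
        (Zc V p r n s true ∩ τ ∩ NoHit n (halfC (!true) n s))) := by
    rintro A ⟨hA, hB⟩
    by_cases hE : A ∈ ErrC V p n
    · exact Or.inl ⟨⟨hE, hA⟩, hB⟩
    right
    have hN : ∀ i, A ∈ NoHit n (halfC i n s) := by
      intro i
      by_contra hc
      cases i
      · exact hB.1 hc
      · exact hB.2 hc
    have hZ : A ∈ Zc V p r n s false ∨ A ∈ Zc V p r n s true := by
      rcases hrx : r.out A (List.replicate n true) with _ | x
      · exact Or.inl ⟨hB.1, fun x hx => by rw [hrx] at hx; simp at hx⟩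
      · have hxl : x.length ≤ 2 ^ n := by
          have h3 := hbr A _ x hrx
          rw [List.length_replicate] at h3
          exact h3.trans (hn₁ n hn1)
        have h4 : ∃ i, Wit (V i) (p i) x A := by
          by_contra hc
          push Not at hc
          exact hE ⟨x, hxl, hc⟩
        obtain ⟨i, hi⟩ := h4
        have h5 : A ∈ Zc V p r n s i := by
          refine ⟨?_, fun x' hx' => ?_⟩
          · cases i
            · exact hB.1
            · exact hB.2
          · rw [hrx] at hx'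
            obtain rfl : x = x' := by simpa using hx'
            exact hi
        cases i
        · exact Or.inl h5
        · exact Or.inr h5
    rcases hZ with hZ | hZ
    · exact Or.inl ⟨⟨hZ, hA⟩, hN _⟩
    · exact Or.inr ⟨⟨hZ, hA⟩, hN _⟩
  have hbad : prob (τ ∩ BadC n s) = prob τ * (ρ * ρ) := by
    rw [← prob_BadC]
    refine prob_inter_of_disjoint (finite_length_le n) (spotsC n s).finite_toSet ?_ hτ
      (loc_BadC n s)
    rw [Set.disjoint_left]
    intro x hx hx'
    have := lt_length_spotsC x hx'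
    simp only [Set.mem_ofPred_eq] at hx
    omega
  set Z0 := prob (τ ∩ (GoodC V p r n s)ᶜ) with hZ0
  set E0 := prob (ErrC V p n ∩ τ ∩ BadC n s) with hE0
  set z0 := prob (Zc V p r n s false ∩ τ ∩ NoHit n (halfC (!false) n s)) with hz0
  set z1 := prob (Zc V p r n s true ∩ τ ∩ NoHit n (halfC (!true) n s)) with hz1
  set e := ((P.eval n : ℕ) : ℝ) * (1 / 2) ^ n with he
  have hZ0n : 0 ≤ Z0 := prob_nonneg _
  have hE0n : 0 ≤ E0 := prob_nonneg _
  have hen : 0 ≤ e := by positivity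
  have hk0 : z0 * (1 - ρ) ≤ (Z0 + e) * ρ := key false
  have hk1 : z1 * (1 - ρ) ≤ (Z0 + e) * ρ := key true
  have hsum : prob τ * (ρ * ρ) ≤ E0 + (z0 + z1) := by
    rw [← hbad]
    refine (prob_mono hcover).trans ((prob_union_le _ _).trans ?_)
    have := prob_union_le (Zc V p r n s false ∩ τ ∩ NoHit n (halfC (!false) n s))
      (Zc V p r n s true ∩ τ ∩ NoHit n (halfC (!true) n s))
    linarith
  rw [prob_BadC]
  change 1 / 8 * (1 / 2 : ℝ) ^ s.size * (prob τ - 2 * (E0 / (ρ * ρ)) - η) ≤ Z0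
  set X := prob τ - E0 / (ρ * ρ) with hX
  -- `(1 - ρ) ρ X ≤ 2 (Z0 + e)`
  have hmain : (1 - ρ) * ρ * X ≤ 2 * (Z0 + e) := by
    have h1 : ρ * ρ * X = prob τ * (ρ * ρ) - E0 := by
      rw [hX, mul_sub, mul_div_cancel₀ _ (by positivity)]
      ring
    have h2 : ρ * ((1 - ρ) * ρ * X) ≤ ρ * (2 * (Z0 + e)) := by
      calc ρ * ((1 - ρ) * ρ * X) = (1 - ρ) * (ρ * ρ * X) := by ring
        _ = (1 - ρ) * (prob τ * (ρ * ρ) - E0) := by rw [h1]
        _ ≤ (1 - ρ) * (z0 + z1) := mul_le_mul_of_nonneg_left (by linarith) (by linarith)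
        _ ≤ ρ * (2 * (Z0 + e)) := by linarith
    exact le_of_mul_le_mul_left h2 hρ0
  have hγ : 1 / 8 * (1 / 2 : ℝ) ^ s.size ≤ ρ / 4 := by
    have := rho_ge hnpos s
    rw [pow_succ] at this
    linarith
  have hγ0 : (0 : ℝ) < 1 / 8 * (1 / 2 : ℝ) ^ s.size := by positivity
  -- the error
  have herr : e ≤ 1 / 8 * (1 / 2 : ℝ) ^ s.size * η := by
    have h1 := hn₂ n hn2
    simp only [Polynomial.eval_mul, Polynomial.eval_C, Polynomial.eval_X] at h1
    push_cast at h1
    have h2 : ((2 ^ s.size : ℕ) : ℝ) ≤ ((2 * s : ℕ) : ℝ) := by exact_mod_cast size_upper (by omega)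
    push_cast at h2
    have h3 : (s : ℝ) ≤ n := by exact_mod_cast hsn
    have h4 : (2 : ℝ) ^ s.size ≤ 2 * n := by linarith
    have h5 : (1 / 2 : ℝ) ^ s.size * 2 ^ s.size = 1 := by
      rw [← mul_pow]
      norm_num
    have h6 : e * (8 * 2 ^ s.size) ≤ η := by
      calc e * (8 * 2 ^ s.size) ≤ e * (16 * n) := by
            apply mul_le_mul_of_nonneg_left _ hen
            linarith
        _ = 16 * n * ((P.eval n : ℕ) : ℝ) * (1 / 2) ^ n := by rw [he]; ring
        _ ≤ η := h1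
    have h7 : (0 : ℝ) < (1 / 2 : ℝ) ^ s.size := by positivity
    calc e = e * (8 * 2 ^ s.size) * (1 / 8 * (1 / 2 : ℝ) ^ s.size) := by
          rw [show e * (8 * 2 ^ s.size) * (1 / 8 * (1 / 2 : ℝ) ^ s.size) =
            e * ((1 / 2 : ℝ) ^ s.size * 2 ^ s.size) by ring, h5, mul_one]
      _ ≤ η * (1 / 8 * (1 / 2 : ℝ) ^ s.size) := mul_le_mul_of_nonneg_right h6 hγ0.le
      _ = _ := by ring
  have hdiv : 0 ≤ E0 / (ρ * ρ) := by positivity
  rcases le_or_gt 0 X with hX0 | hX0
  · have h1 : 1 / 8 * (1 / 2 : ℝ) ^ s.size * X ≤ Z0 + e := by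
      have h2 : ρ / 4 * X ≤ (1 - ρ) * ρ * X / 2 := by
        have : ρ / 4 ≤ (1 - ρ) * ρ / 2 := by nlinarith
        calc ρ / 4 * X ≤ (1 - ρ) * ρ / 2 * X := mul_le_mul_of_nonneg_right this hX0
          _ = _ := by ring
      have h3 := mul_le_mul_of_nonneg_right hγ hX0
      linarith
    have h4 : 1 / 8 * (1 / 2 : ℝ) ^ s.size * (prob τ - 2 * (E0 / (ρ * ρ)) - η) ≤
        1 / 8 * (1 / 2 : ℝ) ^ s.size * (X - η) :=
      mul_le_mul_of_nonneg_left (by rw [hX]; linarith) hγ0.le
    rw [mul_sub] at h4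
    linarith
  · have h4 : 1 / 8 * (1 / 2 : ℝ) ^ s.size * (prob τ - 2 * (E0 / (ρ * ρ)) - η) ≤ 0 := by
      apply mul_nonpos_of_nonneg_of_nonpos hγ0.le
      rw [hX] at hX0
      linarith
    linarith

end Pool.Agent.W2helper58.RU
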