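import Pool.Agent.W2helper58.RU.Abs2
import Pool.Agent.W2helper58.RU.FailC
import Pool.Agent.H628R3.RO.P3

/-!
# The two instances of the abstract theorem
-/

set_option autoImplicit false

namespace Pool.Agent.W2helper58.RU

open MeasureTheory Filter Topology Pool.Agent.NPC Pool.Agent.H628R3.RO
open Pool.Agent.H628R3.RO.M2 (prob_mono prob_union_le prob_nonneg)

theorem engU (V : Alg) (p : Polynomial ℕ) (g : ℕ → Alg) {b : Polynomial ℕ}
    (hc : Check BadN (fun n _ => ErrU V p n) b) :
    Eng BadN (fun n _ => ErrU V p n) TwoN (fun k n s => GoodU V p (g k) n s) b where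
  le_eval := hc.le_eval
  mErr := fun n s => measurableSet_of_loc (finite_length_le _) (hc.locErr n s)
  mViol := fun n s => measurableSet_of_loc (Finset.finite_toSet _) (loc_TwoN n s)
  spots := ⟨spotsN, loc_BadN, fun _ _ => lt_length_spotsN, disjoint_spotsN⟩
  low := fun s => ⟨((1 / 2) ^ (lvN s + 1)) ^ 2, by positivity, fun n _ => prob_BadN_ge n s⟩
  up := ⟨fun s => ((1 / 2) ^ lvN s) ^ 2, summable_quarter, fun s => by positivity,
    prob_BadN_le⟩
  viol := ⟨16, by norm_num, fun n _ s => prob_TwoN_le n s⟩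
  goodLoc := fun k => loc_GoodU V p (g k)
  fail := ⟨fun s => 1 / 2 * (1 / 2) ^ s.size, fun s => by positivity,
    not_summable_half (1 / 2) (by norm_num), fun k η hη => fail_U V p (g k) hη⟩

theorem engC (V : Bool → Alg) (p : Bool → Polynomial ℕ) (g : ℕ → Alg) {b : Polynomial ℕ}
    (hc : Check BadC (fun n _ => ErrC V p n) b) :
    Eng BadC (fun n _ => ErrC V p n) BadC (fun k n s => GoodC V p (g k) n s) b where
  le_eval := hc.le_eval
  mErr := fun n s => measurableSet_of_loc (finite_length_le _) (hc.locErr n s)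
  mViol := fun n s => measurableSet_of_loc (Finset.finite_toSet _) (loc_BadC n s)
  spots := ⟨spotsC, loc_BadC, fun _ _ => lt_length_spotsC, disjoint_spotsC⟩
  low := fun s => ⟨(1 / 2) ^ (s.size + 1) * (1 / 2) ^ (s.size + 1), by positivity,
    fun n hn => by
      rw [prob_BadC]
      exact mul_le_mul (rho_ge hn s) (rho_ge hn s) (by positivity) (rho_pos hn s).le⟩
  up := ⟨fun s => Real.exp (-1) ^ s.size, summable_exp_size, fun s => by positivity,
    prob_BadC_le⟩
  viol := ⟨1, by norm_num, fun n _ s => by rw [one_mul]⟩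
  goodLoc := fun k => by
    obtain ⟨q, hq⟩ := loc_GoodC V p (g k)
    exact ⟨q, fun n s hs => (hq n s hs).1⟩
  fail := ⟨fun s => 1 / 8 * (1 / 2) ^ s.size, fun s => by positivity,
    not_summable_half (1 / 8) (by norm_num), fun k η hη => fail_C V p (g k) hη⟩

instance : Nonempty Alg := ⟨⟨fun _ => [], H622R2.polyTime_of_poly_list (NPC.Poly.const []), 0⟩⟩

end Pool.Agent.W2helper58.RU
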