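import Pool.Agent.W2helper58.RU.Cert

/-!
# `UP`: a reduction fails at a block
-/

set_option autoImplicit false

namespace Pool.Agent.W2helper58.RU

open MeasureTheory Filter Topology Pool.Agent.NPC Pool.Agent.H628R3.RO
open Pool.Agent.H628R3.RO.M2 (prob_mono prob_union_le prob_nonneg hit_plant)

/-- the verifier depends on short strings only -/
theorem wit_congr (V : Alg) (p : Polynomial ℕ) : ∃ q : Polynomial ℕ, ∀ (M : ℕ) (x : List Bool),
    x.length ≤ M → ∀ A A' : Oracle, (∀ z : List Bool, z.length ≤ q.eval M → A z = A' z) →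
      ∀ y : List Bool, y.length ≤ p.eval x.length →
        V.out A (pairBits x y) = V.out A' (pairBits x y) := by
  obtain ⟨qb, hq⟩ := V.out_congr
  refine ⟨qb.comp (Polynomial.C 2 * Polynomial.X + Polynomial.C 1 + p),
    fun M x hx A A' h y hy => ?_⟩
  apply hq A A' _ ((Polynomial.C 2 * Polynomial.X + Polynomial.C 1 + p).eval M)
  · rw [length_pairBits]
    have h3 := eval_mono p hx
    simp only [Polynomial.eval_add, Polynomial.eval_mul, Polynomial.eval_C, Polynomial.eval_X]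
    omega
  · intro z hz
    apply h z
    rw [Polynomial.eval_comp]
    exact hz

theorem loc_ErrU (V : Alg) (p : Polynomial ℕ) : ∃ b : Polynomial ℕ, ∀ n,
    Loc {x | x.length ≤ b.eval (2 ^ n)} (ErrU V p n) := by
  obtain ⟨q, hq⟩ := wit_congr V p
  refine ⟨q, fun n => loc_of_imp fun A A' h => ?_⟩
  rintro ⟨x, hx, y, y', hne, hy, hy', h1, h2⟩
  have e1 := hq (2 ^ n) x hx A A' (fun z hz => h z hz)
  exact ⟨x, hx, y, y', hne, hy, hy', by rw [← e1 y hy, h1], by rw [← e1 y' hy', h2]⟩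

theorem loc_GoodU (V : Alg) (p : Polynomial ℕ) (r : Alg) : ∃ q : Polynomial ℕ, ∀ n s, s ≤ n →
    Loc {x | x.length ≤ q.eval n} (GoodU V p r n s) := by
  obtain ⟨qr, hqr⟩ := r.out_congr
  obtain ⟨br, hbr⟩ := r.out_length
  obtain ⟨qV, hqV⟩ := wit_congr V p
  refine ⟨qr + qV.comp br + (Polynomial.C 3 * Polynomial.X + Polynomial.C 3),
    fun n s hs => loc_of_imp fun A A' h => ?_⟩
  have hE : (qr + qV.comp br + (Polynomial.C 3 * Polynomial.X + Polynomial.C 3)).eval n =
      qr.eval n + qV.eval (br.eval n) + (3 * n + 3) := by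
    simp only [Polynomial.eval_add, Polynomial.eval_comp, Polynomial.eval_mul, Polynomial.eval_C,
      Polynomial.eval_X]
  have hA : ∀ x : List Bool, x.length ≤ qr.eval n + qV.eval (br.eval n) + (3 * n + 3) →
      A x = A' x := by
    intro x hx
    apply h x
    show x.length ≤ _
    rw [hE]
    exact hx
  rintro ⟨x, hx, h1⟩
  have hlen : (List.replicate n true).length = n := by simp
  have hxl : x.length ≤ br.eval n := by
    have h3 := hbr A _ x hx
    rwa [hlen] at h3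
  have e1 : r.out A (List.replicate n true) = r.out A' (List.replicate n true) :=
    hqr A A' _ n hlen.le fun z hz => hA z (by omega)
  have e2 := hqV (br.eval n) x hxl A A' fun z hz => hA z (by omega)
  have e3 : Wit V p x A ↔ Wit V p x A' := by
    constructor
    · rintro ⟨y, hy, h2⟩
      exact ⟨y, hy, by rw [← e2 y hy, h2]⟩
    · rintro ⟨y, hy, h2⟩
      exact ⟨y, hy, by rw [e2 y hy, h2]⟩
  have e4 : ∀ i, A ∈ HitN i n s ↔ A' ∈ HitN i n s := fun i =>
    loc_HitN i n s A A' fun x hx => hA x (by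
      have := length_le_spotsN hs x hx
      omega)
  refine ⟨x, by rw [← e1, hx], ?_⟩
  rw [← e3, ← h1]
  exact exists_congr fun i => (e4 i).symm

theorem hitN_iff {i : Bool} {n s : ℕ} {A : Oracle} :
    A ∈ HitN i n s ↔ ∃ κ ∈ halfN i n, Hit (bitsN n s) κ A := by
  unfold HitN
  rw [Set.mem_compl_iff]
  simp only [NoHit, Set.mem_ofPred_eq]
  push Not
  rfl

open Classical in
/-- the combinatorial heart for `UP` -/
theorem hkeyU (V : Alg) (p : Polynomial ℕ) (r : Alg) : ∃ (P : Polynomial ℕ) (n₀ : ℕ),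
    ∀ n ≥ n₀, ∀ s, ∀ B ∈ NoHit (bitsN n s) (halfN false n ∪ halfN true n),
      B ∈ GoodU V p r n s → ∃ T : Cand → Finset Cand, (∀ κ, (T κ).card ≤ P.eval n) ∧
        ∀ κ ∈ halfN false n, ∀ κ' ∈ halfN true n, κ' ∉ T κ → κ ∉ T κ' →
          plant (allSpots (bitsN n s) {κ}) B ∈ GoodU V p r n s →
          plant (allSpots (bitsN n s) {κ'}) B ∈ GoodU V p r n s →
          plant (allSpots (bitsN n s) {κ, κ'}) B ∈ ErrU V p n := by
  obtain ⟨br, hbr⟩ := r.out_length
  obtain ⟨P1, hP1⟩ : ∃ P : Polynomial ℕ, P = Polynomial.C 2 * br + Polynomial.C 1 + p.comp br :=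
    ⟨_, rfl⟩
  obtain ⟨n₀, hn₀⟩ := eventually_atTop.1 (H529R3.Lev.poly_le_two_pow br)
  refine ⟨r.p + Polynomial.C 2 * V.p.comp P1, n₀, fun n hn s B hB hBG => ?_⟩
  set W := halfN false n ∪ halfN true n with hW
  set m := bitsN n s with hm
  obtain ⟨x, hx, hx2⟩ := hBG
  have hlen : (List.replicate n true).length = n := by simp
  have hxl : x.length ≤ br.eval n := by
    have h3 := hbr B _ x hx
    rwa [hlen] at h3
  -- no witness
  have hnoW : ¬ Wit V p x B := by
    rw [← hx2]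
    rintro ⟨i, hi⟩
    rw [hitN_iff] at hi
    obtain ⟨κ, hκ, hh⟩ := hi
    refine hB κ ?_ hh
    cases i
    · exact Finset.mem_union_left _ hκ
    · exact Finset.mem_union_right _ hκ
  obtain ⟨Qr, hQr1, hQr2⟩ := exists_cert r B (List.replicate n true)
  rw [hlen] at hQr1
  -- the witnesses
  have hch : ∀ κ : Cand, ∃ (y : List Bool) (Q Q' : Finset (List Bool)),
      y.length ≤ p.eval x.length ∧ Q.card ≤ V.p.eval (P1.eval n) ∧
      Q'.card ≤ V.p.eval (P1.eval n) ∧
      (∀ A' : Oracle, (∀ q ∈ Q, A' q = plant (allSpots m {κ}) B q) →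
        V.out A' (pairBits x y) = V.out (plant (allSpots m {κ}) B) (pairBits x y)) ∧
      (∀ A' : Oracle, (∀ q ∈ Q', A' q = B q) →
        V.out A' (pairBits x y) = V.out B (pairBits x y)) ∧
      (Wit V p x (plant (allSpots m {κ}) B) →
        V.out (plant (allSpots m {κ}) B) (pairBits x y) = some [true]) := by
    intro κ
    obtain ⟨y, hy, hy2⟩ : ∃ y : List Bool, y.length ≤ p.eval x.length ∧
        (Wit V p x (plant (allSpots m {κ}) B) →
          V.out (plant (allSpots m {κ}) B) (pairBits x y) = some [true]) := by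
      by_cases hw : Wit V p x (plant (allSpots m {κ}) B)
      · obtain ⟨y, hy, h⟩ := hw
        exact ⟨y, hy, fun _ => h⟩
      · exact ⟨[], by simp, fun h => absurd h hw⟩
    have hl : (pairBits x y).length ≤ P1.eval n := by
      rw [length_pairBits, hP1]
      have := eval_mono p hxl
      simp only [Polynomial.eval_add, Polynomial.eval_mul, Polynomial.eval_C,
        Polynomial.eval_comp]
      omega
    obtain ⟨Q, h1, h2⟩ := exists_cert V (plant (allSpots m {κ}) B) (pairBits x y)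
    obtain ⟨Q', h3, h4⟩ := exists_cert V B (pairBits x y)
    exact ⟨y, Q, Q', hy, h1.trans (eval_mono _ hl), h3.trans (eval_mono _ hl), h2, h4, hy2⟩
  choose y Q Q' hy hQc hQc' hQ hQ' hwit using hch
  refine ⟨fun κ => touched m W (Qr ∪ Q κ ∪ Q' κ), fun κ => ?_, ?_⟩
  · refine (card_touched_le _ _ _).trans ((Finset.card_union_le _ _).trans ?_)
    have h1 := Finset.card_union_le Qr (Q κ)
    have h2 := hQc κ
    have h3 := hQc' κ
    simp only [Polynomial.eval_add, Polynomial.eval_mul, Polynomial.eval_C, Polynomial.eval_comp]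
    omega
  · intro κ hκ κ' hκ' hT hT' hG hG'
    have hκW : κ ∈ W := Finset.mem_union_left _ hκ
    have hκW' : κ' ∈ W := Finset.mem_union_right _ hκ'
    -- a planted candidate outside of the touched ones changes nothing
    have hpl : ∀ (κ₁ : Cand) (R : Finset (List Bool)), κ₁ ∈ W →
        κ₁ ∉ touched m W R → ∀ (A : Oracle), ∀ q ∈ R, plant (allSpots m {κ₁}) A q = A q := by
      intro κ₁ R h1 h2 A q hq
      exact plant_eq (Finset.singleton_subset_iff.2 h1) (by simpa using h2) A hq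
    have hmonoT : ∀ (R R' : Finset (List Bool)) (κ₁ : Cand), R ⊆ R' →
        κ₁ ∉ touched m W R' → κ₁ ∉ touched m W R := by
      intro R R' κ₁ h1 h2 h3
      apply h2
      unfold touched at h3 ⊢
      rw [Finset.mem_filter] at h3 ⊢
      obtain ⟨h4, q, h5, h6⟩ := h3
      exact ⟨h4, q, h1 h5, h6⟩
    have a1 : ∀ (κ₁ κ₂ : Cand), κ₁ ∈ W → κ₁ ∉ touched m W (Qr ∪ Q κ₂ ∪ Q' κ₂) →
        r.out (plant (allSpots m {κ₁}) B) (List.replicate n true) = some x := by
      intro κ₁ κ₂ h1 h2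
      rw [← hx]
      apply hQr2
      exact hpl κ₁ Qr h1 (hmonoT _ _ _ (by
        intro z hz
        simp [hz]) h2) B
    have r1 := a1 κ κ' hκW hT'
    have r2 := a1 κ' κ hκW' hT
    -- witnesses after planting
    have b1 : ∀ (κ₁ : Cand) (i : Bool), κ₁ ∈ halfN i n →
        r.out (plant (allSpots m {κ₁}) B) (List.replicate n true) = some x →
        plant (allSpots m {κ₁}) B ∈ GoodU V p r n s → Wit V p x (plant (allSpots m {κ₁}) B) := by
      rintro κ₁ i h1 h2 ⟨x', hx', h3⟩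
      rw [h2] at hx'
      obtain rfl : x = x' := by simpa using hx'
      rw [← h3]
      exact ⟨i, hitN_iff.2 ⟨κ₁, h1, M2.hit_plant_self (Finset.mem_singleton_self _) B⟩⟩
    have w1 := hwit κ (b1 κ false hκ r1 hG)
    have w2 := hwit κ' (b1 κ' true hκ' r2 hG')
    have e1 : plant (allSpots m {κ, κ'}) B =
        plant (allSpots m {κ'}) (plant (allSpots m {κ}) B) := by
      funext z
      unfold plant
      have : z ∈ allSpots m {κ, κ'} ↔ z ∈ allSpots m {κ} ∨ z ∈ allSpots m {κ'} := by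
        simp only [M2.mem_allSpots, Finset.mem_insert, Finset.mem_singleton]
        constructor
        · rintro ⟨κ₁, rfl | rfl, h⟩
          · exact Or.inl ⟨_, rfl, h⟩
          · exact Or.inr ⟨_, rfl, h⟩
        · rintro (⟨κ₁, rfl, h⟩ | ⟨κ₁, rfl, h⟩)
          · exact ⟨_, Or.inl rfl, h⟩
          · exact ⟨_, Or.inr rfl, h⟩
      by_cases h1 : z ∈ allSpots m {κ} <;> by_cases h2 : z ∈ allSpots m {κ'} <;>
        simp [this, h1, h2]
    have e2 : plant (allSpots m {κ, κ'}) B =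
        plant (allSpots m {κ}) (plant (allSpots m {κ'}) B) := by
      rw [e1]
      funext z
      unfold plant
      by_cases h1 : z ∈ allSpots m {κ} <;> by_cases h2 : z ∈ allSpots m {κ'} <;>
        simp [h1, h2]
    refine ⟨x, hxl.trans (hn₀ n hn), y κ, y κ', ?_, hy κ, hy κ', ?_, ?_⟩
    · intro heq
      -- the same witness would work without hits
      apply hnoW
      refine ⟨y κ, hy κ, ?_⟩
      have h1 : V.out (plant (allSpots m {κ'}) B) (pairBits x (y κ)) =
          V.out B (pairBits x (y κ)) := by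
        apply hQ' κ
        exact hpl κ' (Q' κ) hκW' (hmonoT _ _ _ (by
          intro z hz
          simp [hz]) hT) B
      rw [← h1, heq]
      exact w2
    · rw [e1, ← w1]
      apply hQ κ
      exact hpl κ' (Q κ) hκW' (hmonoT _ _ _ (by
        intro z hz
        simp [hz]) hT) _
    · rw [e2, ← w2]
      apply hQ κ'
      exact hpl κ (Q κ') hκW (hmonoT _ _ _ (by
        intro z hz
        simp [hz]) hT') _

/-- **Failure at a block, `UP`.** -/
theorem fail_U (V : Alg) (p : Polynomial ℕ) (r : Alg) {η : ℝ} (hη : 0 < η) : ∃ n₀ : ℕ, ∀ n ≥ n₀,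
    ∀ s, 4 ≤ s → s ≤ n → ∀ τ : Set Oracle, Loc {x | x.length ≤ n} τ →
      1 / 2 * (1 / 2 : ℝ) ^ s.size *
        (prob τ - 2 * (prob (ErrU V p n ∩ τ ∩ BadN n s) / prob (BadN n s)) - η) ≤
        prob (τ ∩ (GoodU V p r n s)ᶜ) := by
  obtain ⟨P, n₁, hkey⟩ := hkeyU V p r
  obtain ⟨n₂, hn₂⟩ := poly_small P (η := η / 4) (by positivity)
  obtain ⟨bE, hbE⟩ := loc_ErrU V p
  obtain ⟨bG, hbG⟩ := loc_GoodU V p r
  refine ⟨max n₁ n₂, fun n hn s hs4 hsn τ hτ => ?_⟩
  have hn1 : n₁ ≤ n := le_trans (le_max_left _ _) hn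
  have hn2 : n₂ ≤ n := le_trans (le_max_right _ _) hn
  set M := bE.eval (2 ^ n) + bG.eval n + (3 * n + 3) with hM
  set W := halfN false n ∪ halfN true n with hW
  set δ : ℝ := (1 / 2) ^ lvN s with hδ
  have hδpos : 0 < δ := by positivity
  have hlv : lvN s = s.size := rfl
  have hδ8 : δ ≤ 1 / 8 := by
    have h3 := four_le_size hs4
    rw [hδ, hlv]
    calc (1 / 2 : ℝ) ^ s.size ≤ (1 / 2) ^ 3 := pow_le_pow_of_le_one (by norm_num) (by norm_num) h3
      _ = 1 / 8 := by norm_num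
  have hqN : (1 / 2 : ℝ) ^ (bitsN n s) * ((2 ^ n : ℕ) : ℝ) = δ := by
    unfold bitsN
    exact half_pow_add_mul n (lvN s)
  have hspots : ∀ κ ∈ W, ∀ i < bitsN n s, n < (pos κ.1 i κ.2).length ∧
      (pos κ.1 i κ.2).length ≤ 3 * n + 3 := by
    intro κ hκ i hi
    have : pos κ.1 i κ.2 ∈ spotsN n s := by
      unfold spotsN
      rw [mem_allSpots]
      exact ⟨κ, hκ, i, hi, rfl⟩
    exact ⟨lt_length_spotsN _ this, length_le_spotsN hsn _ this⟩
  have hτ' : ∀ (B : Oracle) (h : Finset Cand), h ⊆ W →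
      (plant (allSpots (bitsN n s) h) B ∈ τ ↔ B ∈ τ) := by
    intro B h hh
    apply hτ
    intro x hx
    unfold plant
    rw [if_neg]
    intro h1
    rw [mem_allSpots] at h1
    obtain ⟨κ, hκ, i, hi, rfl⟩ := h1
    have := (hspots κ (hh hκ) i hi).1
    simp only [Set.mem_ofPred_eq] at hx
    omega
  have key := key_two (K := {x : List Bool | x.length ≤ M}) (finite_length_le M)
    (Z := GoodU V p r n s) (E := ErrU V p n) (τ := τ)
    (M2.Loc.mono (hbG n s hsn) fun x hx => by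
      simp only [Set.mem_ofPred_eq] at hx ⊢
      omega)
    (M2.Loc.mono (hbE n) fun x hx => by
      simp only [Set.mem_ofPred_eq] at hx ⊢
      omega)
    (M2.Loc.mono hτ fun x hx => by
      simp only [Set.mem_ofPred_eq] at hx ⊢
      omega)
    (halfN false n) (halfN true n) (disjoint_halfN n) (m := bitsN n s) (P.eval n) (2 ^ n)
    (card_halfN _ _) (card_halfN _ _) (by rw [hqN]; linarith)
    (fun κ hκ i hi => by
      simp only [Set.mem_ofPred_eq]
      have := (hspots κ hκ i hi).2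
      omega) hτ' (hkey n hn1 s)
  rw [hqN] at key
  set P0 := prob (τ ∩ NoHit (bitsN n s) (halfN false n ∪ halfN true n)) with hP0
  set E0 := prob (ErrU V p n ∩ τ ∩ ((NoHit (bitsN n s) (halfN false n))ᶜ ∩
    (NoHit (bitsN n s) (halfN true n))ᶜ)) with hE0
  have hE0' : E0 = prob (ErrU V p n ∩ τ ∩ BadN n s) := rfl
  have hP0le : P0 ≤ prob τ := prob_mono Set.inter_subset_left
  have hP0n : 0 ≤ P0 := prob_nonneg _
  have hτ1 : prob τ ≤ 1 := by
    unfold prob
    exact measureReal_le_one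
  have hP0ge : prob τ / 2 ≤ P0 := by
    have e1 : P0 = prob τ * (1 - (1 / 2 : ℝ) ^ (bitsN n s)) ^ (2 * 2 ^ n) := by
      rw [hP0, prob_noHit_inter (finite_length_le n) hτ (bitsN n s)
        (halfN false n ∪ halfN true n) (fun κ hκ i hi => by
          simp only [Set.mem_ofPred_eq, not_le]
          exact (hspots κ hκ i hi).1),
        Finset.card_union_of_disjoint (disjoint_halfN n), card_halfN, card_halfN]
      congr 2
      ring
    have e2 := one_add_mul_le_pow (a := -(1 / 2 : ℝ) ^ (bitsN n s))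
      (by have := half_pow_le_one (bitsN n s); linarith) (2 * 2 ^ n)
    have e3 : (1 : ℝ) + ((2 * 2 ^ n : ℕ) : ℝ) * -(1 / 2 : ℝ) ^ (bitsN n s) = 1 - 2 * δ := by
      rw [← hqN]
      push_cast
      ring
    rw [e3, ← sub_eq_add_neg] at e2
    rw [e1]
    have e4 : (1 / 2 : ℝ) ≤ (1 - (1 / 2 : ℝ) ^ (bitsN n s)) ^ (2 * 2 ^ n) := by linarith
    have := mul_le_mul_of_nonneg_left e4 (prob_nonneg τ)
    linarith
  -- the error term
  have hsmall : ((P.eval n : ℕ) : ℝ) * (1 / 2) ^ n ≤ η / 4 := hn₂ n hn2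
  have hterm : 2 * ((1 / 2 : ℝ) ^ bitsN n s) ^ 2 * ((2 ^ n : ℕ) : ℝ) * ((P.eval n : ℕ) : ℝ) * P0 ≤
      δ * δ * (η / 2) := by
    have e1 : (1 / 2 : ℝ) ^ bitsN n s = (1 / 2) ^ n * δ := by
      unfold bitsN
      rw [pow_add]
    have e2 : 2 * ((1 / 2 : ℝ) ^ bitsN n s) ^ 2 * ((2 ^ n : ℕ) : ℝ) * ((P.eval n : ℕ) : ℝ) * P0 =
        2 * δ * δ * (((P.eval n : ℕ) : ℝ) * (1 / 2) ^ n) * P0 := by
      have e3 : ((1 / 2 : ℝ) ^ bitsN n s) ^ 2 * ((2 ^ n : ℕ) : ℝ) = (1 / 2) ^ n * δ * δ := by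
        rw [sq, mul_assoc, hqN, e1]
      calc _ = 2 * (((1 / 2 : ℝ) ^ bitsN n s) ^ 2 * ((2 ^ n : ℕ) : ℝ)) *
            ((P.eval n : ℕ) : ℝ) * P0 := by ring
        _ = _ := by rw [e3]; ring
    rw [e2]
    have e4 : (((P.eval n : ℕ) : ℝ) * (1 / 2) ^ n) * P0 ≤ η / 4 * 1 :=
      mul_le_mul hsmall (hP0le.trans hτ1) hP0n (by positivity)
    calc 2 * δ * δ * (((P.eval n : ℕ) : ℝ) * (1 / 2) ^ n) * P0 =
          2 * δ * δ * ((((P.eval n : ℕ) : ℝ) * (1 / 2) ^ n) * P0) := by ring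
      _ ≤ 2 * δ * δ * (η / 4 * 1) := mul_le_mul_of_nonneg_left e4 (by positivity)
      _ = δ * δ * (η / 2) := by ring
  -- divide
  set Z0 := prob (τ ∩ (GoodU V p r n s)ᶜ) with hZ0
  have hB1 := prob_BadN_le n s
  have hB2 : 0 < prob (BadN n s) := lt_of_lt_of_le (by positivity) (prob_BadN_ge n s)
  have hE0n : 0 ≤ E0 := prob_nonneg _
  have hEdiv : E0 ≤ δ * δ * (E0 / prob (BadN n s)) := by
    rw [mul_div_assoc', le_div_iff₀ hB2]
    rw [← hδ, sq] at hB1
    have := mul_le_mul_of_nonneg_left hB1 hE0n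
    linarith
  have hfin : δ * (δ * (prob τ / 2 - η / 2 - E0 / prob (BadN n s))) ≤ δ * Z0 := by
    have k1 : δ * (δ * (prob τ / 2)) ≤ δ ^ 2 * P0 := by
      rw [← mul_assoc, ← sq]
      exact mul_le_mul_of_nonneg_left hP0ge (by positivity)
    calc δ * (δ * (prob τ / 2 - η / 2 - E0 / prob (BadN n s))) =
          δ * (δ * (prob τ / 2)) - δ * δ * (η / 2) - δ * δ * (E0 / prob (BadN n s)) := by ring
      _ ≤ δ ^ 2 * P0 - 2 * ((1 / 2 : ℝ) ^ bitsN n s) ^ 2 * ((2 ^ n : ℕ) : ℝ) *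
          ((P.eval n : ℕ) : ℝ) * P0 - E0 := by linarith
      _ ≤ δ * Z0 := by linarith
  have hfin2 := le_of_mul_le_mul_left hfin hδpos
  have hlast : 1 / 2 * (1 / 2 : ℝ) ^ s.size *
      (prob τ - 2 * (prob (ErrU V p n ∩ τ ∩ BadN n s) / prob (BadN n s)) - η) =
      δ * (prob τ / 2 - η / 2 - E0 / prob (BadN n s)) := by
    rw [hE0', hδ, hlv]
    ring
  rw [hlast]
  exact hfin2

end Pool.Agent.W2helper58.RU
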