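import Pool.Agent.W2helper58.RU.Engs
import Pool.Agent.W2helper58.RU.Chk

/-!
# The final theorems, given the stage function
-/

set_option autoImplicit false

namespace Pool.Agent.W2helper58.RU

open MeasureTheory Filter Topology Pool.Agent.NPC Pool.Agent.H628R3.RO

/-- the stage function exists -/
def StageHyp : Prop := ∀ {Bad Err : ℕ → ℕ → Set Oracle} {b : Polynomial ℕ},
  Check Bad Err b → ∀ (t : ℕ) (L : List (List Bool)), ∃ stg : ℕ → ℕ × ℕ,
    (∀ i, stg (Tt b t i) = (Tt b t i, lev Bad Err t L (Tt b t) i)) ∧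
    (∀ N, (stg N).1 = N → ∃ i, N = Tt b t i ∧ (stg N).2 = lev Bad Err t L (Tt b t) i) ∧
    StgPoly stg

theorem final_U (hS : StageHyp) : ∀ᵐ A ∂randomOracle, ∀ K : Set (List Bool), IsUP A K →
    ∃ L : Set (List Bool), IsUP A L ∧ (∀ x ∈ L, x = List.replicate x.length true) ∧
      ¬ Red A L K := by
  obtain ⟨g, hg⟩ := exists_surjective_nat Alg
  have h1 : ∀ (V : Alg) (p : Polynomial ℕ), ∀ᵐ A ∂randomOracle,
      (∀ n (s : ℕ), A ∉ ErrU V p n) → ∃ (t : ℕ) (L : List (List Bool)),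
      (∃ i₁, ∀ i ≥ i₁, A ∉ TwoN (Tt (check_U V p).choose t i)
        (lev BadN (fun n _ => ErrU V p n) t L (Tt (check_U V p).choose t) i)) ∧
      ∀ k i₀, ∃ i ≥ i₀, A ∉ GoodU V p (g k) (Tt (check_U V p).choose t i)
        (lev BadN (fun n _ => ErrU V p n) t L (Tt (check_U V p).choose t) i) := fun V p =>
    (engU V p g (check_U V p).choose_spec).main
  have hP : Countable (Polynomial ℕ) := by
    have : Function.Injective (fun p : Polynomial ℕ => (p.toFinsupp.coeff : ℕ →₀ ℕ)) := by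
      intro p q h
      ext n
      exact DFunLike.congr_fun h n
    exact this.countable
  have h2 := ae_all_iff.2 fun V => ae_all_iff.2 (h1 V)
  filter_upwards [h2] with A hA K hK
  obtain ⟨V, p, ⟨MV, hMV⟩, hK1, hK2⟩ := hK
  have hwit : ∀ x, x ∈ K ↔ Wit MV p x A := by
    intro x
    rw [hK1 x]
    refine exists_congr fun y => and_congr_right fun _ => ?_
    rw [hMV, Option.some.injEq]
  have hno : ∀ n (s : ℕ), A ∉ ErrU MV p n := by
    rintro n - ⟨x, _, y, y', hne, hy, hy', h3, h4⟩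
    rw [hMV, Option.some.injEq] at h3 h4
    exact hne (hK2 x y y' hy hy' h3 h4)
  obtain ⟨t, L, ⟨i₁, hi₁⟩, hk⟩ := hA MV p hno
  obtain ⟨stg, hs1, hs2, hs3⟩ := hS (check_U MV p).choose_spec t L
  set b := (check_U MV p).choose with hb
  refine ⟨LU stg A (Tt b t i₁), isUP_lang hs3 A _ fun N hN hN1 => ?_, fun x hx => hx.1,
    fun hred => ?_⟩
  · obtain ⟨i, h3, h4⟩ := hs2 N hN1
    rw [h4, h3]
    refine hi₁ i ?_
    rw [h3] at hN
    exact (Tt_mono b t).le_iff_le.1 hN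
  · obtain ⟨F, ⟨MF, hMF⟩, hF⟩ := hred
    obtain ⟨k, hk'⟩ := hg MF
    obtain ⟨i, hi, hi2⟩ := hk k i₁
    apply hi2
    rw [hk']
    refine ⟨F (List.replicate (Tt b t i) true), hMF _, ?_⟩
    rw [← hwit, ← hF]
    simp only [LU, Set.mem_ofPred_eq, List.length_replicate, hs1, true_and]
    constructor
    · intro h
      exact ⟨(Tt_mono b t).monotone hi, h⟩
    · exact fun h => h.2

theorem final_C (hS : StageHyp) : ∀ᵐ A ∂randomOracle, ∀ K₀ K₁ : Set (List Bool),
    IsPair (IsCoNP A) K₀ K₁ →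
    ∃ L₀ L₁ : Set (List Bool), IsPair (IsCoNP A) L₀ L₁ ∧
      (∀ x ∈ L₀ ∪ L₁, x = List.replicate x.length true) ∧ ¬ RedPair A L₀ L₁ K₀ K₁ := by
  obtain ⟨g, hg⟩ := exists_surjective_nat Alg
  have h1 : ∀ (V : Bool → Alg) (p : Bool → Polynomial ℕ), ∀ᵐ A ∂randomOracle,
      (∀ n (s : ℕ), A ∉ ErrC V p n) → ∃ (t : ℕ) (L : List (List Bool)),
      (∃ i₁, ∀ i ≥ i₁, A ∉ BadC (Tt (check_C V p).choose t i)
        (lev BadC (fun n _ => ErrC V p n) t L (Tt (check_C V p).choose t) i)) ∧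
      ∀ k i₀, ∃ i ≥ i₀, A ∉ GoodC V p (g k) (Tt (check_C V p).choose t i)
        (lev BadC (fun n _ => ErrC V p n) t L (Tt (check_C V p).choose t) i) := fun V p =>
    (engC V p g (check_C V p).choose_spec).main
  have hP : Countable (Polynomial ℕ) := by
    have : Function.Injective (fun p : Polynomial ℕ => (p.toFinsupp.coeff : ℕ →₀ ℕ)) := by
      intro p q h
      ext n
      exact DFunLike.congr_fun h n
    exact this.countable
  have h2 := ae_all_iff.2 fun V => ae_all_iff.2 (h1 V)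
  filter_upwards [h2] with A hA K₀ K₁ hK
  obtain ⟨⟨V0, p0, ⟨M0, hM0⟩, hK0⟩, ⟨V1, p1, ⟨M1, hM1⟩, hK1⟩, hdis⟩ := hK
  set MV : Bool → Alg := fun i => if i then M1 else M0 with hMV
  set p : Bool → Polynomial ℕ := fun i => if i then p1 else p0 with hp
  have hwit0 : ∀ x, x ∈ K₀ ↔ ¬ Wit (MV false) (p false) x A := by
    intro x
    have h3 : x ∉ K₀ ↔ Wit (MV false) (p false) x A := by
      rw [← Set.mem_compl_iff, hK0 x]
      refine exists_congr fun y => and_congr_right fun _ => ?_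
      change _ ↔ M0.out A (pairBits x y) = some [true]
      rw [hM0, Option.some.injEq]
    rw [← h3, not_not]
  have hwit1 : ∀ x, x ∈ K₁ ↔ ¬ Wit (MV true) (p true) x A := by
    intro x
    have h3 : x ∉ K₁ ↔ Wit (MV true) (p true) x A := by
      rw [← Set.mem_compl_iff, hK1 x]
      refine exists_congr fun y => and_congr_right fun _ => ?_
      change _ ↔ M1.out A (pairBits x y) = some [true]
      rw [hM1, Option.some.injEq]
    rw [← h3, not_not]
  have hno : ∀ n (s : ℕ), A ∉ ErrC MV p n := by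
    rintro n - ⟨x, _, h3⟩
    exact hdis x ⟨(hwit0 x).2 (h3 false), (hwit1 x).2 (h3 true)⟩
  obtain ⟨t, L, ⟨i₁, hi₁⟩, hk⟩ := hA MV p hno
  obtain ⟨stg, hs1, hs2, hs3⟩ := hS (check_C MV p).choose_spec t L
  set b := (check_C MV p).choose with hb
  refine ⟨LC stg A (Tt b t i₁) false, LC stg A (Tt b t i₁) true,
    ⟨isCoNP_lang hs3 A _ false, isCoNP_lang hs3 A _ true, ?_⟩, fun x hx => ?_, fun hred => ?_⟩
  · rintro x ⟨⟨-, h3, h4, h5⟩, -, -, -, h6⟩
    obtain ⟨i, h7, h8⟩ := hs2 x.length h4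
    rw [h8] at h5 h6
    rw [h7] at h3 h5 h6
    exact hi₁ i ((Tt_mono b t).le_iff_le.1 h3) ⟨h5, h6⟩
  · rcases hx with hx | hx
    · exact hx.1
    · exact hx.1
  · obtain ⟨F, ⟨MF, hMF⟩, hF0, hF1⟩ := hred
    obtain ⟨k, hk'⟩ := hg MF
    obtain ⟨i, hi, hi2⟩ := hk k i₁
    apply hi2
    rw [hk']
    refine ⟨F (List.replicate (Tt b t i) true), hMF _, fun j hj => ?_⟩
    have hmem : List.replicate (Tt b t i) true ∈ LC stg A (Tt b t i₁) j := by
      simp only [LC, Set.mem_ofPred_eq, List.length_replicate, hs1, true_and]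
      exact ⟨(Tt_mono b t).monotone hi, hj⟩
    cases j
    · exact (hwit0 _).1 (hF0 _ hmem)
    · exact (hwit1 _).1 (hF1 _ hmem)

end Pool.Agent.W2helper58.RU
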