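import Pool.Agent.H628R3.RO.M2
import Pool.Agent.H628R3.RO.M4
import Pool.Agent.H628R3.RO.D1

/-!
# Random oracles: the key inequality for two halves of a block
-/

set_option autoImplicit false

namespace Pool.Agent.W2helper58.RU

open MeasureTheory Pool.Agent.H628R3.RO Pool.Agent.H628R3.RO.M2

theorem prob_compl_inter_add {S T : Set Oracle} (hT : MeasurableSet T) :
    prob (S ∩ Tᶜ) + prob (S ∩ T) = prob S := by
  have := prob_inter_add_compl S hT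
  linarith

theorem hitSet_disjoint {m : ℕ} {W h h' : Finset Cand} (hh : h ⊆ W) (hh' : h' ⊆ W)
    (hne : h ≠ h') : Disjoint (HitSet m W h) (HitSet m W h') := by
  rw [Set.disjoint_left]
  intro A hA hA'
  apply hne
  ext κ
  constructor
  · intro hκ
    exact (hA' κ (hh hκ)).1 ((hA κ (hh hκ)).2 hκ)
  · intro hκ
    exact (hA κ (hh' hκ)).1 ((hA' κ (hh' hκ)).2 hκ)

theorem noHit_eq_hitSet (m : ℕ) (W : Finset Cand) : NoHit m W = HitSet m W ∅ := by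
  ext A
  constructor
  · intro h κ hκ
    exact ⟨fun h1 => absurd h1 (h κ hκ), fun h1 => absurd h1 (Finset.notMem_empty κ)⟩
  · intro h κ hκ h1
    exact absurd ((h κ hκ).1 h1) (Finset.notMem_empty κ)

/-- a sum over disjoint sets of hits -/
theorem sum_hitSet_le {S : Set Oracle} (hS : MeasurableSet S) (m : ℕ) (W : Finset Cand)
    (P : Finset (Finset Cand)) (hP : ∀ h ∈ P, h ⊆ W) {U : Set Oracle}
    (hU : ∀ h ∈ P, S ∩ HitSet m W h ⊆ U) :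
    ∑ h ∈ P, prob (S ∩ HitSet m W h) ≤ prob U := by
  have h2 : (P : Set (Finset Cand)).PairwiseDisjoint (fun h => S ∩ HitSet m W h) := by
    intro h hh h' hh' hne
    exact (hitSet_disjoint (hP h hh) (hP h' hh') hne).mono Set.inter_subset_right
      Set.inter_subset_right
  unfold prob
  rw [← measureReal_biUnion_finset h2 fun h _ => hS.inter (measurableSet_hitSet m W h)]
  exact prob_mono (Set.iUnion₂_subset hU)

open Classical in
/-- **The key inequality for two halves.** -/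
theorem key_two {K : Set (List Bool)} (hK : K.Finite) {Z E τ : Set Oracle} (hZ : Loc K Z)
    (hE : Loc K E) (hτ : Loc K τ) (W₀ W₁ : Finset Cand) (hd : Disjoint W₀ W₁) {m : ℕ} (t N : ℕ)
    (h0 : W₀.card = N) (h1 : W₁.card = N) (hqN : (1 / 2 : ℝ) ^ m * N ≤ 1)
    (hW : ∀ κ ∈ W₀ ∪ W₁, ∀ i < m, pos κ.1 i κ.2 ∈ K)
    (hτ' : ∀ (B : Oracle) (h : Finset Cand), h ⊆ W₀ ∪ W₁ →
      (plant (allSpots m h) B ∈ τ ↔ B ∈ τ))
    (hkey : ∀ B ∈ NoHit m (W₀ ∪ W₁), B ∈ Z → ∃ T : Cand → Finset Cand,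
      (∀ κ, (T κ).card ≤ t) ∧ ∀ κ ∈ W₀, ∀ κ' ∈ W₁, κ' ∉ T κ → κ ∉ T κ' →
        plant (allSpots m {κ}) B ∈ Z → plant (allSpots m {κ'}) B ∈ Z →
        plant (allSpots m {κ, κ'}) B ∈ E) :
    ((1 / 2 : ℝ) ^ m * N) ^ 2 * prob (τ ∩ NoHit m (W₀ ∪ W₁)) ≤
      (1 / 2 : ℝ) ^ m * N * prob (τ ∩ Zᶜ) +
      2 * ((1 / 2 : ℝ) ^ m) ^ 2 * N * t * prob (τ ∩ NoHit m (W₀ ∪ W₁)) +
      prob (E ∩ τ ∩ ((NoHit m W₀)ᶜ ∩ (NoHit m W₁)ᶜ)) := by
  set W : Finset Cand := W₀ ∪ W₁ with hWdef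
  set q : ℝ := (1 / 2) ^ m with hq
  have hq0 : 0 < q := by positivity
  have hq1 : q ≤ 1 := pow_le_one₀ (by norm_num) (by norm_num)
  have hN : Loc K (NoHit m W) := loc_noHit hW
  have hZm := measurableSet_of_loc hK hZ
  have hEm := measurableSet_of_loc hK hE
  have hτm := measurableSet_of_loc hK hτ
  have hNm := measurableSet_noHit m W
  set S : Set Oracle := τ ∩ NoHit m W with hS
  have hSm : MeasurableSet S := hτm.inter hNm
  have hmask : ∀ B : Oracle, ∀ x ∈ K, mask K B x = B x := fun B x hx => mask_eq hx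
  have hW0 : W₀ ⊆ W := Finset.subset_union_left
  have hW1 : W₁ ⊆ W := Finset.subset_union_right
  -- the choice of `T`
  have hch : ∀ B : Oracle, ∃ T : Cand → Finset Cand, (∀ κ, (T κ).card ≤ t) ∧
      (B ∈ NoHit m W → B ∈ Z → ∀ κ ∈ W₀, ∀ κ' ∈ W₁, κ' ∉ T κ → κ ∉ T κ' →
        plant (allSpots m {κ}) B ∈ Z → plant (allSpots m {κ'}) B ∈ Z →
        plant (allSpots m {κ, κ'}) B ∈ E) := by
    intro B
    by_cases h1 : B ∈ NoHit m W ∧ B ∈ Z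
    · obtain ⟨T, hT, hT'⟩ := hkey B h1.1 h1.2
      exact ⟨T, hT, fun _ _ => hT'⟩
    · exact ⟨fun _ => ∅, by simp, fun h2 h3 => absurd ⟨h2, h3⟩ h1⟩
  choose T hT1 hT2 using hch
  set Ak : Cand → Cand → Set Oracle := fun κ κ' => {B | κ' ∈ T (mask K B) κ} with hAk
  have hAm : ∀ κ κ', MeasurableSet (Ak κ κ') := fun κ κ' => measurableSet_of_loc hK (by
    intro A A' h
    simp only [hAk, Set.mem_ofPred_eq, mask_congr h])
  set F : Cand → Set Oracle := fun κ => plant (allSpots m {κ}) ⁻¹' Zᶜ with hF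
  set Ep : Cand → Cand → Set Oracle := fun κ κ' => plant (allSpots m {κ, κ'}) ⁻¹' E with hEp
  -- the bound for one pair
  have hone : ∀ κ ∈ W₀, ∀ κ' ∈ W₁, prob S ≤ prob (S ∩ Zᶜ) + prob (S ∩ F κ) + prob (S ∩ F κ') +
      prob (S ∩ Ak κ κ') + prob (S ∩ Ak κ' κ) + prob (S ∩ Ep κ κ') := by
    intro κ hκ κ' hκ'
    have hsub : S ⊆ ((((S ∩ Zᶜ ∪ S ∩ F κ) ∪ S ∩ F κ') ∪ S ∩ Ak κ κ') ∪ S ∩ Ak κ' κ) ∪
        S ∩ Ep κ κ' := by
      intro B hB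
      by_cases c1 : B ∈ Z
      swap
      · exact Or.inl (Or.inl (Or.inl (Or.inl (Or.inl ⟨hB, c1⟩))))
      by_cases c2 : B ∈ F κ
      · exact Or.inl (Or.inl (Or.inl (Or.inl (Or.inr ⟨hB, c2⟩))))
      by_cases c3 : B ∈ F κ'
      · exact Or.inl (Or.inl (Or.inl (Or.inr ⟨hB, c3⟩)))
      by_cases c4 : B ∈ Ak κ κ'
      · exact Or.inl (Or.inl (Or.inr ⟨hB, c4⟩))
      by_cases c5 : B ∈ Ak κ' κ
      · exact Or.inl (Or.inr ⟨hB, c5⟩)
      refine Or.inr ⟨hB, ?_⟩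
      have e1 : mask K B ∈ NoHit m W := (hN _ _ (hmask B)).2 hB.2
      have e2 : mask K B ∈ Z := (hZ _ _ (hmask B)).2 c1
      have e3 : plant (allSpots m {κ}) B ∈ Z := by
        by_contra h
        exact c2 h
      have e4 : plant (allSpots m {κ'}) B ∈ Z := by
        by_contra h
        exact c3 h
      have e5 := hT2 (mask K B) e1 e2 κ hκ κ' hκ' c4 c5
        ((loc_plant hZ (allSpots m {κ}) _ _ (hmask B)).2 e3)
        ((loc_plant hZ (allSpots m {κ'}) _ _ (hmask B)).2 e4)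
      exact (loc_plant hE (allSpots m {κ, κ'}) _ _ (hmask B)).1 e5
    have hh := prob_mono hsub
    have u1 := prob_union_le ((((S ∩ Zᶜ ∪ S ∩ F κ) ∪ S ∩ F κ') ∪ S ∩ Ak κ κ') ∪ S ∩ Ak κ' κ)
      (S ∩ Ep κ κ')
    have u2 := prob_union_le (((S ∩ Zᶜ ∪ S ∩ F κ) ∪ S ∩ F κ') ∪ S ∩ Ak κ κ') (S ∩ Ak κ' κ)
    have u3 := prob_union_le ((S ∩ Zᶜ ∪ S ∩ F κ) ∪ S ∩ F κ') (S ∩ Ak κ κ')
    have u4 := prob_union_le (S ∩ Zᶜ ∪ S ∩ F κ) (S ∩ F κ')
    have u5 := prob_union_le (S ∩ Zᶜ) (S ∩ F κ)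
    linarith
  -- sum over all pairs
  have hsum : (N : ℝ) * N * prob S ≤ N * N * prob (S ∩ Zᶜ) + N * ∑ κ ∈ W₀, prob (S ∩ F κ) +
      N * ∑ κ ∈ W₁, prob (S ∩ F κ) + N * (t * prob S) + N * (t * prob S) +
      ∑ κ ∈ W₀, ∑ κ' ∈ W₁, prob (S ∩ Ep κ κ') := by
    have s1 : ∑ κ ∈ W₀, ∑ κ' ∈ W₁, prob S = (N : ℝ) * N * prob S := by
      simp only [Finset.sum_const, h0, h1, nsmul_eq_mul]
      ring
    have s2 : ∑ κ ∈ W₀, ∑ κ' ∈ W₁, (prob (S ∩ Zᶜ) + prob (S ∩ F κ) + prob (S ∩ F κ') +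
        prob (S ∩ Ak κ κ') + prob (S ∩ Ak κ' κ) + prob (S ∩ Ep κ κ')) =
        N * N * prob (S ∩ Zᶜ) + N * ∑ κ ∈ W₀, prob (S ∩ F κ) +
        N * ∑ κ ∈ W₁, prob (S ∩ F κ) + ∑ κ ∈ W₀, ∑ κ' ∈ W₁, prob (S ∩ Ak κ κ') +
        ∑ κ ∈ W₀, ∑ κ' ∈ W₁, prob (S ∩ Ak κ' κ) +
        ∑ κ ∈ W₀, ∑ κ' ∈ W₁, prob (S ∩ Ep κ κ') := by
      simp only [Finset.sum_add_distrib, Finset.sum_const, h0, h1, nsmul_eq_mul,
        ← Finset.mul_sum]
      ring
    have s3 : ∑ κ ∈ W₀, ∑ κ' ∈ W₁, prob (S ∩ Ak κ κ') ≤ N * (t * prob S) := by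
      calc ∑ κ ∈ W₀, ∑ κ' ∈ W₁, prob (S ∩ Ak κ κ') ≤ ∑ κ ∈ W₀, (t : ℝ) * prob S :=
            Finset.sum_le_sum fun κ _ => sum_prob_le hSm W₁ (Ak κ) (hAm κ) t fun B _ =>
              ⟨T (mask K B) κ, hT1 _ κ, fun κ' _ h => h⟩
        _ = N * (t * prob S) := by rw [Finset.sum_const, h0, nsmul_eq_mul]
    have s4 : ∑ κ ∈ W₀, ∑ κ' ∈ W₁, prob (S ∩ Ak κ' κ) ≤ N * (t * prob S) := by
      rw [Finset.sum_comm]
      calc ∑ κ' ∈ W₁, ∑ κ ∈ W₀, prob (S ∩ Ak κ' κ) ≤ ∑ κ' ∈ W₁, (t : ℝ) * prob S :=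
            Finset.sum_le_sum fun κ' _ => sum_prob_le hSm W₀ (Ak κ') (hAm κ') t fun B _ =>
              ⟨T (mask K B) κ', hT1 _ κ', fun κ _ h => h⟩
        _ = N * (t * prob S) := by rw [Finset.sum_const, h1, nsmul_eq_mul]
    have s5 := Finset.sum_le_sum fun κ hκ => Finset.sum_le_sum fun κ' hκ' => hone κ hκ κ' hκ'
    rw [s1, s2] at s5
    linarith
  -- conversion to events with hits
  have hconv1 : ∀ κ ∈ W, q * prob (S ∩ F κ) = (1 - q) * prob (τ ∩ Zᶜ ∩ HitSet m W {κ}) := by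
    intro κ hκ
    have e := prob_hitSet (hτm.inter hZm.compl) m (Finset.singleton_subset_iff.2 hκ)
    rw [Finset.card_singleton, pow_one, pow_one, ← hq] at e
    have e2 : plant (allSpots m {κ}) ⁻¹' (τ ∩ Zᶜ) ∩ NoHit m W = S ∩ F κ := by
      ext B
      constructor
      · rintro ⟨⟨a1, a2⟩, a3⟩
        exact ⟨⟨(hτ' B {κ} (Finset.singleton_subset_iff.2 hκ)).1 a1, a3⟩, a2⟩
      · rintro ⟨⟨a1, a3⟩, a2⟩
        exact ⟨⟨(hτ' B {κ} (Finset.singleton_subset_iff.2 hκ)).2 a1, a2⟩, a3⟩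
    rw [e2] at e
    linarith
  have hconv2 : ∀ κ ∈ W₀, ∀ κ' ∈ W₁, q ^ 2 * prob (S ∩ Ep κ κ') =
      (1 - q) ^ 2 * prob (E ∩ τ ∩ HitSet m W {κ, κ'}) := by
    intro κ hκ κ' hκ'
    have hne : κ ≠ κ' := by
      rintro rfl
      exact Finset.disjoint_left.1 hd hκ hκ'
    have hsub : ({κ, κ'} : Finset Cand) ⊆ W := by
      intro x hx
      rw [Finset.mem_insert, Finset.mem_singleton] at hx
      rcases hx with rfl | rfl
      · exact hW0 hκ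
      · exact hW1 hκ'
    have e := prob_hitSet (hEm.inter hτm) m hsub
    rw [Finset.card_pair hne, ← hq] at e
    have e2 : plant (allSpots m {κ, κ'}) ⁻¹' (E ∩ τ) ∩ NoHit m W = S ∩ Ep κ κ' := by
      ext B
      constructor
      · rintro ⟨⟨a1, a2⟩, a3⟩
        exact ⟨⟨(hτ' B _ hsub).1 a2, a3⟩, a1⟩
      · rintro ⟨⟨a1, a3⟩, a2⟩
        exact ⟨⟨a2, (hτ' B _ hsub).2 a1⟩, a3⟩
    rw [e2] at e
    linarith
  -- disjointness
  have hF1 : prob (S ∩ Zᶜ) + ∑ κ ∈ W, prob (τ ∩ Zᶜ ∩ HitSet m W {κ}) ≤ prob (τ ∩ Zᶜ) := by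
    have e := sum_hitSet_le (hτm.inter hZm.compl) m W
      (insert ∅ (W.image fun κ => ({κ} : Finset Cand))) (by
        intro h hh
        rw [Finset.mem_insert, Finset.mem_image] at hh
        rcases hh with rfl | ⟨κ, hκ, rfl⟩
        · exact Finset.empty_subset _
        · exact Finset.singleton_subset_iff.2 hκ) (U := τ ∩ Zᶜ)
      (fun h _ => Set.inter_subset_left)
    rw [Finset.sum_insert (by
      rw [Finset.mem_image]
      rintro ⟨κ, _, h⟩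
      exact Finset.singleton_ne_empty κ h), Finset.sum_image (by
      intro κ _ κ' _ h
      exact Finset.singleton_injective h), ← noHit_eq_hitSet] at e
    have e2 : τ ∩ Zᶜ ∩ NoHit m W = S ∩ Zᶜ := by
      ext B
      constructor
      · rintro ⟨⟨a1, a2⟩, a3⟩
        exact ⟨⟨a1, a3⟩, a2⟩
      · rintro ⟨⟨a1, a3⟩, a2⟩
        exact ⟨⟨a1, a2⟩, a3⟩
    rw [e2] at e
    exact e
  have hE2 : ∑ κ ∈ W₀, ∑ κ' ∈ W₁, prob (E ∩ τ ∩ HitSet m W {κ, κ'}) ≤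
      prob (E ∩ τ ∩ ((NoHit m W₀)ᶜ ∩ (NoHit m W₁)ᶜ)) := by
    rw [← Finset.sum_product']
    have hinj : Set.InjOn (fun p : Cand × Cand => ({p.1, p.2} : Finset Cand))
        (W₀ ×ˢ W₁ : Finset (Cand × Cand)) := by
      rintro ⟨a, b⟩ hab ⟨c, d⟩ hcd h
      simp only [Finset.coe_product, Set.mem_prod, Finset.mem_coe] at hab hcd
      simp only at h
      have ha : a ∈ ({c, d} : Finset Cand) := h ▸ Finset.mem_insert_self a {b}
      have hb : b ∈ ({c, d} : Finset Cand) := by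
        rw [← h]; simp
      rw [Finset.mem_insert, Finset.mem_singleton] at ha hb
      have had : a ≠ d := by
        rintro rfl
        exact Finset.disjoint_left.1 hd hab.1 hcd.2
      have hbc : b ≠ c := by
        rintro rfl
        exact Finset.disjoint_left.1 hd hcd.1 hab.2
      have e1 : a = c := ha.resolve_right had
      have e2 : b = d := hb.resolve_left hbc
      rw [e1, e2]
    have e := sum_hitSet_le (hEm.inter hτm) m W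
      ((W₀ ×ˢ W₁).image fun p : Cand × Cand => ({p.1, p.2} : Finset Cand)) (by
        intro h hh
        rw [Finset.mem_image] at hh
        obtain ⟨⟨a, b⟩, hab, rfl⟩ := hh
        rw [Finset.mem_product] at hab
        intro x hx
        rw [Finset.mem_insert, Finset.mem_singleton] at hx
        rcases hx with rfl | rfl
        · exact hW0 hab.1
        · exact hW1 hab.2)
      (U := E ∩ τ ∩ ((NoHit m W₀)ᶜ ∩ (NoHit m W₁)ᶜ)) (by
        intro h hh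
        rw [Finset.mem_image] at hh
        obtain ⟨⟨a, b⟩, hab, rfl⟩ := hh
        rw [Finset.mem_product] at hab
        rintro A ⟨hA, hA'⟩
        refine ⟨hA, fun h3 => ?_, fun h3 => ?_⟩
        · exact h3 a hab.1 ((hA' a (hW0 hab.1)).2 (Finset.mem_insert_self a _))
        · exact h3 b hab.2 ((hA' b (hW1 hab.2)).2 (by simp)))
    rw [Finset.sum_image hinj] at e
    exact e
  -- assemble
  have hU : ∑ κ ∈ W, prob (τ ∩ Zᶜ ∩ HitSet m W {κ}) = ∑ κ ∈ W₀, prob (τ ∩ Zᶜ ∩ HitSet m W {κ}) +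
      ∑ κ ∈ W₁, prob (τ ∩ Zᶜ ∩ HitSet m W {κ}) := by
    rw [hWdef, Finset.sum_union hd]
  set f0 := ∑ κ ∈ W₀, prob (τ ∩ Zᶜ ∩ HitSet m W {κ}) with hf0
  set f1 := ∑ κ ∈ W₁, prob (τ ∩ Zᶜ ∩ HitSet m W {κ}) with hf1
  have c0 : q * ∑ κ ∈ W₀, prob (S ∩ F κ) = (1 - q) * f0 := by
    rw [hf0, Finset.mul_sum, Finset.mul_sum]
    exact Finset.sum_congr rfl fun κ hκ => hconv1 κ (hW0 hκ)
  have c1 : q * ∑ κ ∈ W₁, prob (S ∩ F κ) = (1 - q) * f1 := by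
    rw [hf1, Finset.mul_sum, Finset.mul_sum]
    exact Finset.sum_congr rfl fun κ hκ => hconv1 κ (hW1 hκ)
  have c2 : q ^ 2 * ∑ κ ∈ W₀, ∑ κ' ∈ W₁, prob (S ∩ Ep κ κ') =
      (1 - q) ^ 2 * ∑ κ ∈ W₀, ∑ κ' ∈ W₁, prob (E ∩ τ ∩ HitSet m W {κ, κ'}) := by
    rw [Finset.mul_sum, Finset.mul_sum]
    refine Finset.sum_congr rfl fun κ hκ => ?_
    rw [Finset.mul_sum, Finset.mul_sum]
    exact Finset.sum_congr rfl fun κ' hκ' => hconv2 κ hκ κ' hκ'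
  have hf0n : 0 ≤ f0 := Finset.sum_nonneg fun _ _ => prob_nonneg _
  have hf1n : 0 ≤ f1 := Finset.sum_nonneg fun _ _ => prob_nonneg _
  have hz : 0 ≤ prob (S ∩ Zᶜ) := prob_nonneg _
  have he : 0 ≤ prob (E ∩ τ ∩ ((NoHit m W₀)ᶜ ∩ (NoHit m W₁)ᶜ)) := prob_nonneg _
  have hNn : (0 : ℝ) ≤ N := Nat.cast_nonneg N
  have hqNn : 0 ≤ q * N := by positivity
  have step := mul_le_mul_of_nonneg_left hsum (sq_nonneg q)
  set G := ∑ κ ∈ W₀, ∑ κ' ∈ W₁, prob (S ∩ Ep κ κ') with hG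
  set G' := ∑ κ ∈ W₀, ∑ κ' ∈ W₁, prob (E ∩ τ ∩ HitSet m W {κ, κ'}) with hG'
  set g0 := ∑ κ ∈ W₀, prob (S ∩ F κ) with hg0
  set g1 := ∑ κ ∈ W₁, prob (S ∩ F κ) with hg1
  have d1 : q ^ 2 * (N * g0) ≤ q * N * f0 := by
    have : q ^ 2 * (N * g0) = q * N * ((1 - q) * f0) := by rw [← c0]; ring
    rw [this]
    apply mul_le_mul_of_nonneg_left _ hqNn
    nlinarith
  have d2 : q ^ 2 * (N * g1) ≤ q * N * f1 := by
    have : q ^ 2 * (N * g1) = q * N * ((1 - q) * f1) := by rw [← c1]; ring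
    rw [this]
    apply mul_le_mul_of_nonneg_left _ hqNn
    nlinarith
  have d3 : q ^ 2 * G ≤ prob (E ∩ τ ∩ ((NoHit m W₀)ᶜ ∩ (NoHit m W₁)ᶜ)) := by
    rw [c2]
    have hG'n : 0 ≤ G' := Finset.sum_nonneg fun _ _ => Finset.sum_nonneg fun _ _ => prob_nonneg _
    have : (1 - q) ^ 2 ≤ 1 := by nlinarith
    calc (1 - q) ^ 2 * G' ≤ 1 * G' := mul_le_mul_of_nonneg_right this hG'n
      _ ≤ _ := by rw [one_mul]; exact hE2
  have d4 : q ^ 2 * (N * N * prob (S ∩ Zᶜ)) ≤ q * N * prob (S ∩ Zᶜ) := by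
    have : q ^ 2 * (N * N * prob (S ∩ Zᶜ)) = (q * N) * (q * N) * prob (S ∩ Zᶜ) := by ring
    rw [this]
    apply mul_le_mul_of_nonneg_right _ hz
    nlinarith
  have d5 : q * N * (prob (S ∩ Zᶜ) + (f0 + f1)) ≤ q * N * prob (τ ∩ Zᶜ) := by
    apply mul_le_mul_of_nonneg_left _ hqNn
    rw [← hU]
    exact hF1
  have d6 : q ^ 2 * (N * N * prob S) = (q * N) ^ 2 * prob S := by ring
  rw [d6] at step
  have d7 : q ^ 2 * (N * N * prob (S ∩ Zᶜ) + N * g0 + N * g1 + N * (t * prob S) +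
      N * (t * prob S) + G) = q ^ 2 * (N * N * prob (S ∩ Zᶜ)) + q ^ 2 * (N * g0) +
      q ^ 2 * (N * g1) + 2 * q ^ 2 * N * t * prob S + q ^ 2 * G := by ring
  rw [d7] at step
  linarith

end Pool.Agent.W2helper58.RU
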