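import Pool.Agent.W2helper58.RU.FailC
import Pool.Agent.H628R3.RO.G1

/-!
# The languages are in `UP` and in `coNP` relative to the oracle
-/

set_option autoImplicit false

namespace Pool.Agent.W2helper58.RU

open Pool.Agent.NPC Pool.Agent.H628R3.RO

/-- the stage function is computable in polynomial time (numbers in unary) -/
def StgPoly (stg : ℕ → ℕ × ℕ) : Prop := ∀ {α : Type} [TEnc α] {N : α → ℕ}, UPoly N →
  UPoly (fun a => (stg (N a)).1) ∧ UPoly (fun a => (stg (N a)).2)

theorem u_size {α : Type} [TEnc α] {m : α → ℕ} (hm : UPoly m) :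
    UPoly (fun a => (m a).size) := by
  have h1 : Poly (fun x => (m x).bits) := NPC.Poly.natBits hm.toPoly
  have h2 := UPoly.length h1
  have h3 : (fun x => Nat.size (m x)) = fun x => (m x).bits.length := by
    funext x
    exact (Nat.size_eq_bits_len _).symm
  rw [h3]
  exact h2

/-- a language with unique witnesses checked by nonadaptive questions to the oracle -/
theorem isUP_of_tt (A : Oracle) (L : Set (List Bool))
    {Q : List Bool × List Bool → List (List Bool)}
    {T : (List Bool × List Bool) × List Bool → Bool} (hQ : Poly Q) (hT : Poly T)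
    (p : Polynomial ℕ)
    (h : ∀ x, x ∈ L ↔ ∃ w : List Bool, w.length ≤ p.eval x.length ∧
      T ((x, w), (Q (x, w)).map A) = true)
    (hu : ∀ x w w', T ((x, w), (Q (x, w)).map A) = true →
      T ((x, w'), (Q (x, w')).map A) = true → w = w') : IsUP A L := by
  have h1 : IsFP A (fun y => (fun z : List Bool × List Bool => [T (unpair z.1, z.2)])
      (y, ((fun y => Q (unpair y)) y).map A)) := by
    refine IsFP.tt (Q := fun y => Q (unpair y)) (H := fun z => [T (unpair z.1, z.2)])
      (hQ.comp poly_unpair) ?_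
    exact Poly.cons (hT.comp (Poly.pair (poly_unpair.comp (Poly.fst Poly.id))
      (Poly.snd Poly.id))) (NPC.Poly.const [])
  refine ⟨_, p, h1, fun x => ?_, fun x w w' _ _ h2 h3 => ?_⟩
  · rw [h x]
    refine exists_congr fun w => and_congr_right fun _ => ?_
    simp only [unpair_pairBits, List.cons.injEq, and_true]
  · simp only [unpair_pairBits, List.cons.injEq, and_true] at h2 h3
    exact hu x w w' h2 h3

/-- the language for `UP` -/
def LU (stg : ℕ → ℕ × ℕ) (A : Oracle) (M : ℕ) : Set (List Bool) :=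
  {x | x = List.replicate x.length true ∧ M ≤ x.length ∧ (stg x.length).1 = x.length ∧
    ∃ i, A ∈ HitN i x.length (stg x.length).2}

theorem isUP_lang {stg : ℕ → ℕ × ℕ} (hstg : StgPoly stg) (A : Oracle) (M : ℕ)
    (hu : ∀ N, M ≤ N → (stg N).1 = N → A ∉ TwoN N (stg N).2) : IsUP A (LU stg A M) := by
  refine isUP_of_tt A _
    (Q := fun p => asks (p.1.length + (stg p.1.length).2.size) (min (lvl p.2) 1)
      (p.2.drop (lvl p.2 + 1)))
    (T := fun p => (decide (p.1.1 = List.replicate p.1.1.length true) &&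
      (decide (M ≤ p.1.1.length) && decide ((stg p.1.1.length).1 = p.1.1.length))) &&
      ((decide (lvl p.1.2 ≤ 1) && decide ((p.1.2.drop (lvl p.1.2 + 1)).length = p.1.1.length)) &&
      (decide (p.1.2 = candStr (lvl p.1.2) (p.1.2.drop (lvl p.1.2 + 1))) && p.2.all id)))
    ?_ ?_ (Polynomial.X + Polynomial.C 2) (fun x => ?_) (fun x w w' h h' => ?_)
  · have h1 : Poly (fun p : List Bool × List Bool => p.1) := Poly.fst Poly.id
    have h2 : Poly (fun p : List Bool × List Bool => p.2) := Poly.snd Poly.id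
    have h3 : UPoly (fun p : List Bool × List Bool => p.1.length) := UPoly.length h1
    refine p_asks (h3.add (u_size (hstg h3).2)) ?_ (p_drop h2 ((u_lvl h2).add (UPoly.const 1)))
    exact UPoly.of_le (Poly.min (u_lvl h2).toPoly (NPC.Poly.const 1)) (UPoly.const 1)
      fun a => min_le_right _ _
  · have h1 : Poly (fun p : (List Bool × List Bool) × List Bool => p.1.1) :=
      Poly.fst (Poly.fst Poly.id)
    have h2 : Poly (fun p : (List Bool × List Bool) × List Bool => p.1.2) :=
      Poly.snd (Poly.fst Poly.id)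
    have h3 : UPoly (fun p : (List Bool × List Bool) × List Bool => p.1.1.length) :=
      UPoly.length h1
    have h4 : Poly (fun p : (List Bool × List Bool) × List Bool =>
        p.1.2.drop (lvl p.1.2 + 1)) := p_drop h2 ((u_lvl h2).add (UPoly.const 1))
    refine Poly.and (Poly.and (Poly.decide_eq h1 (p_replicate h3 true))
      (Poly.and (Poly.decide_le (NPC.Poly.const M) h3.toPoly)
        (Poly.decide_eq (hstg h3).1.toPoly h3.toPoly)))
      (Poly.and (Poly.and (Poly.decide_le (u_lvl h2).toPoly (NPC.Poly.const 1))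
        (Poly.decide_eq (Poly.length h4) h3.toPoly))
        (Poly.and (Poly.decide_eq h2 ?_) (p_all_id (Poly.snd Poly.id))))
    exact Poly.append (p_replicate (u_lvl h2) true) (Poly.cons (NPC.Poly.const false) h4)
  · simp only [LU, Set.mem_ofPred_eq, Bool.and_eq_true, decide_eq_true_eq, Polynomial.eval_add,
      Polynomial.eval_X, Polynomial.eval_C]
    constructor
    · rintro ⟨h1, h2, h3, i, h4⟩
      rw [hitN_iff] at h4
      obtain ⟨⟨c, w⟩, hκ, hh⟩ := h4
      rw [mem_halfN] at hκ
      obtain ⟨rfl, hw⟩ := hκ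
      simp only at hw
      have hi : i.toNat ≤ 1 := Bool.toNat_le i
      refine ⟨candStr i.toNat w, ?_, ⟨h1, h2, h3⟩, ?_⟩
      · rw [length_candStr]
        omega
      · rw [lvl_candStr, drop_candStr, min_eq_left hi, asks_all]
        exact ⟨⟨hi, hw⟩, rfl, hh⟩
    · rintro ⟨w, -, ⟨h1, h2, h3⟩, ⟨h4, h5⟩, h6, h7⟩
      rw [min_eq_left h4, asks_all] at h7
      refine ⟨h1, h2, h3, ?_⟩
      rcases Nat.lt_or_ge (lvl w) 1 with h8 | h8
      · refine ⟨false, hitN_iff.2 ⟨(lvl w, w.drop (lvl w + 1)), mem_halfN.2 ⟨?_, h5⟩, h7⟩⟩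
        simp only [Bool.toNat_false]
        omega
      · refine ⟨true, hitN_iff.2 ⟨(lvl w, w.drop (lvl w + 1)), mem_halfN.2 ⟨?_, h5⟩, h7⟩⟩
        simp only [Bool.toNat_true]
        omega
  · simp only [Bool.and_eq_true, decide_eq_true_eq] at h h'
    obtain ⟨⟨h1, h2, h3⟩, ⟨h4, h5⟩, h6, h7⟩ := h
    obtain ⟨-, ⟨h4', h5'⟩, h6', h7'⟩ := h'
    rw [min_eq_left h4, asks_all] at h7
    rw [min_eq_left h4', asks_all] at h7'
    by_contra hne
    apply hu x.length h2 h3
    have hmem : ∀ w : List Bool, lvl w ≤ 1 → (w.drop (lvl w + 1)).length = x.length →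
        (lvl w, w.drop (lvl w + 1)) ∈ halfN false x.length ∪ halfN true x.length := by
      intro w h8 h9
      rw [Finset.mem_union, mem_halfN, mem_halfN]
      rcases Nat.lt_or_ge (lvl w) 1 with h10 | h10
      · left
        refine ⟨?_, h9⟩
        simp only [Bool.toNat_false]
        omega
      · right
        refine ⟨?_, h9⟩
        simp only [Bool.toNat_true]
        omega
    refine ⟨_, hmem w h4 h5, _, hmem w' h4' h5', fun heq => hne ?_, h7, h7'⟩
    rw [Prod.mk.injEq] at heq
    rw [h6, h6', heq.1]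
    rw [← heq.1, heq.2, ← heq.1]

/-- the languages for disjoint pairs of `coNP` sets -/
def LC (stg : ℕ → ℕ × ℕ) (A : Oracle) (M : ℕ) (i : Bool) : Set (List Bool) :=
  {x | x = List.replicate x.length true ∧ M ≤ x.length ∧ (stg x.length).1 = x.length ∧
    A ∉ HitC i x.length (stg x.length).2}

theorem isCoNP_lang {stg : ℕ → ℕ × ℕ} (hstg : StgPoly stg) (A : Oracle) (M : ℕ) (i : Bool) :
    IsCoNP A (LC stg A M i) := by
  obtain ⟨r, hr⟩ := uPoly_le (hstg (α := List Bool) (N := List.length) (UPoly.length Poly.id)).2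
  have hlvC : ∀ {α : Type} [TEnc α] {N : α → ℕ}, UPoly N →
      UPoly (fun a => lvC (stg (N a)).2) := by
    intro α _ N hN
    refine UPoly.of_le (Poly.div ((u_size (hstg hN).2).add (UPoly.const 1)).toPoly
      (NPC.Poly.const 2)) ((u_size (hstg hN).2).add (UPoly.const 1)) fun a => ?_
    exact Nat.div_le_self _ _
  refine isNP_of_tt A _
    (Q := fun p => asks p.1.length (lvl p.2) (p.2.drop (lvl p.2 + 1)))
    (T := fun p => (!(decide (p.1.1 = List.replicate p.1.1.length true)) ||
      (decide (p.1.1.length < M) || !(decide ((stg p.1.1.length).1 = p.1.1.length)))) ||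
      ((decide (i.toNat * lvC (stg p.1.1.length).2 ≤ lvl p.1.2) &&
        decide (lvl p.1.2 < (i.toNat + 1) * lvC (stg p.1.1.length).2)) &&
      (decide ((p.1.2.drop (lvl p.1.2 + 1)).length = p.1.1.length) && p.2.all id)))
    ?_ ?_ (r.comp (Polynomial.C 4 * Polynomial.X + Polynomial.C 1) + Polynomial.X +
      Polynomial.C 3) fun x => ?_
  · have h1 : Poly (fun p : List Bool × List Bool => p.1) := Poly.fst Poly.id
    have h2 : Poly (fun p : List Bool × List Bool => p.2) := Poly.snd Poly.id
    exact p_asks (UPoly.length h1) (u_lvl h2) (p_drop h2 ((u_lvl h2).add (UPoly.const 1)))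
  · have h1 : Poly (fun p : (List Bool × List Bool) × List Bool => p.1.1) :=
      Poly.fst (Poly.fst Poly.id)
    have h2 : Poly (fun p : (List Bool × List Bool) × List Bool => p.1.2) :=
      Poly.snd (Poly.fst Poly.id)
    have h3 : UPoly (fun p : (List Bool × List Bool) × List Bool => p.1.1.length) :=
      UPoly.length h1
    have h4 : Poly (fun p : (List Bool × List Bool) × List Bool =>
        p.1.2.drop (lvl p.1.2 + 1)) := p_drop h2 ((u_lvl h2).add (UPoly.const 1))
    refine Poly.or (Poly.or (Poly.not (Poly.decide_eq h1 (p_replicate h3 true)))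
      (Poly.or (Poly.decide_lt h3.toPoly (NPC.Poly.const M))
        (Poly.not (Poly.decide_eq (hstg h3).1.toPoly h3.toPoly))))
      (Poly.and (Poly.and
        (Poly.decide_le (Poly.mul (NPC.Poly.const i.toNat) (hlvC h3).toPoly) (u_lvl h2).toPoly)
        (Poly.decide_lt (u_lvl h2).toPoly
          (Poly.mul (NPC.Poly.const (i.toNat + 1)) (hlvC h3).toPoly)))
        (Poly.and (Poly.decide_eq (Poly.length h4) h3.toPoly) (p_all_id (Poly.snd Poly.id))))
  · simp only [LC, Set.mem_compl_iff, Set.mem_ofPred_eq, Bool.and_eq_true, Bool.or_eq_true,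
      Bool.not_eq_true', decide_eq_false_iff_not, decide_eq_true_eq, asks_all,
      Polynomial.eval_add, Polynomial.eval_X, Polynomial.eval_C, Polynomial.eval_comp,
      Polynomial.eval_mul]
    constructor
    · intro h
      by_cases h1 : x = List.replicate x.length true
      swap
      · exact ⟨[], by simp, Or.inl (Or.inl h1)⟩
      by_cases h2 : M ≤ x.length
      swap
      · exact ⟨[], by simp, Or.inl (Or.inr (Or.inl (by omega)))⟩
      by_cases h3 : (stg x.length).1 = x.length
      swap
      · exact ⟨[], by simp, Or.inl (Or.inr (Or.inr h3))⟩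
      have h4 : A ∈ HitC i x.length (stg x.length).2 := by
        by_contra h4
        exact h ⟨h1, h2, h3, h4⟩
      rw [hitC_iff] at h4
      obtain ⟨⟨c, w⟩, hκ, hh⟩ := h4
      rw [mem_halfC] at hκ
      obtain ⟨⟨h5, h6⟩, h7⟩ := hκ
      simp only at h5 h6 h7
      refine ⟨candStr c w, ?_, Or.inr ?_⟩
      · rw [length_candStr]
        have e1 : c < 2 * lvC (stg x.length).2 := by
          cases i <;> simp at h6 <;> omega
        have e2 := lvC_le (stg x.length).2
        have e3 := lvN_le (stg x.length).2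
        unfold lvN at e3
        have e4 := hr x
        have e5 := eval_mono r (sz_listBool_le x)
        omega
      · rw [lvl_candStr, drop_candStr]
        exact ⟨⟨h5, h6⟩, h7, hh⟩
    · rintro ⟨w, -, (h | h | h) | ⟨⟨h5, h6⟩, h7, h8⟩⟩ ⟨h1, h2, h3, h4⟩
      · exact h h1
      · omega
      · exact h h3
      · apply h4
        rw [hitC_iff]
        exact ⟨(lvl w, w.drop (lvl w + 1)), mem_halfC.2 ⟨⟨h5, h6⟩, h7⟩, h8⟩

end Pool.Agent.W2helper58.RU
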